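import Mathlib

/-!
Area integrals of `log⁺ (1/|h|)` over discs, via Jensen's formula.
-/

open MeasureTheory Filter Topology Set Metric
open scoped ENNReal Real

namespace Pool.Agent.Had83

lemma lintegral_ball_polar (φ : ℂ → ℝ≥0∞) (hφ : Measurable φ) (c : ℂ) (R : ℝ) :
    ∫⁻ z in ball c R, φ z =
      ∫⁻ r in Ioo 0 R, ENNReal.ofReal r * ∫⁻ θ in Ioo (-π) π, φ (circleMap c r θ) := by
  have h1 : ∫⁻ z in ball c R, φ z = ∫⁻ z, (ball c R).indicator φ (c + z) := by
    rw [← lintegral_indicator measurableSet_ball]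
    exact (lintegral_add_left_eq_self _ c).symm
  rw [h1, ← Complex.lintegral_comp_polarCoord_symm]
  have ht : polarCoord.target = Ioi (0 : ℝ) ×ˢ Ioo (-π) π := rfl
  rw [ht, Measure.volume_eq_prod, ← Measure.prod_restrict]
  have hmeas : Measurable fun p : ℝ × ℝ => ENNReal.ofReal p.1 •
      (ball c R).indicator φ (c + Complex.polarCoord.symm p) := by
    have hm1 : Measurable fun p : ℝ × ℝ => Complex.polarCoord.symm p := by
      simp only [Complex.polarCoord_symm_apply]
      fun_prop
    have hm2 : Measurable ((ball c R).indicator φ) := hφ.indicator measurableSet_ball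
    simp only [smul_eq_mul]
    exact (ENNReal.measurable_ofReal.comp measurable_fst).mul
      (hm2.comp (measurable_const.add hm1))
  rw [lintegral_prod _ hmeas.aemeasurable]
  have h2 : ∀ r ∈ Ioi (0 : ℝ), ∫⁻ θ in Ioo (-π) π, ENNReal.ofReal r •
      (ball c R).indicator φ (c + Complex.polarCoord.symm (r, θ)) =
      (Iio R).indicator (fun r => ENNReal.ofReal r * ∫⁻ θ in Ioo (-π) π, φ (circleMap c r θ)) r := by
    intro r hr
    have hr : 0 < r := hr
    have e : ∀ θ : ℝ, c + Complex.polarCoord.symm (r, θ) = circleMap c r θ := by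
      intro θ
      rw [Complex.polarCoord_symm_apply, circleMap, Complex.exp_mul_I]
      simp
    by_cases hrR : r < R
    · rw [indicator_of_mem (show r ∈ Iio R from hrR)]
      simp only [smul_eq_mul, e]
      rw [← lintegral_const_mul]
      · apply lintegral_congr
        intro θ
        rw [indicator_of_mem]
        rw [mem_ball, dist_eq_norm, circleMap_sub_center]
        simp [abs_of_pos hr, hrR]
      · exact hφ.comp (continuous_circleMap c r).measurable
    · rw [indicator_of_notMem (show r ∉ Iio R from hrR)]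
      simp only [smul_eq_mul, e]
      rw [lintegral_eq_zero_iff']
      · filter_upwards with θ
        rw [indicator_of_notMem]
        · simp
        · rw [mem_ball, dist_eq_norm, circleMap_sub_center]
          simp only [norm_circleMap_zero, abs_of_pos hr]
          exact hrR
      · apply Measurable.aemeasurable
        exact measurable_const.mul ((hφ.indicator measurableSet_ball).comp
          (continuous_circleMap c r).measurable)
  rw [setLIntegral_congr_fun measurableSet_Ioi h2, setLIntegral_indicator measurableSet_Iio]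
  have : Iio R ∩ Ioi (0 : ℝ) = Ioo 0 R := by
    ext r; simp [and_comm]
  rw [this]

/-- pointwise bound -/
lemma posLog_inv_le {t M : ℝ} (ht : 0 ≤ t) (hM : 1 ≤ M) (htM : t ≤ M) :
    max 0 (Real.log t⁻¹) ≤ Real.log M - Real.log t := by
  rw [Real.log_inv]
  have h1 : 0 ≤ Real.log M := Real.log_nonneg hM
  rcases ht.eq_or_lt with h | h
  · rw [← h]; simp [h1]
  · have h2 : Real.log t ≤ Real.log M := Real.log_le_log h htM
    apply max_le <;> linarith

/-- Jensen's inequality on a circle -/
lemma jensen_le {h : ℂ → ℂ} {c : ℂ} {r : ℝ} (hr : 0 < r)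
    (hh : AnalyticOnNhd ℂ h (closedBall c r)) (hc : h c ≠ 0) :
    Real.log ‖h c‖ ≤ Real.circleAverage (fun z => Real.log ‖h z‖) c r := by
  have hh' : AnalyticOnNhd ℂ h (closedBall c |r|) := by rwa [abs_of_pos hr]
  rw [hh'.circleAverage_log_norm hr.ne' hc]
  have : 0 ≤ ∑ᶠ u, (MeromorphicOn.divisor h (closedBall c |r|)) u * Real.log (r * ‖c - u‖⁻¹) := by
    apply finsum_nonneg
    intro u
    by_cases hu : u ∈ closedBall c |r|
    · apply mul_nonneg
      · exact_mod_cast (MeromorphicOn.AnalyticOnNhd.divisor_nonneg hh') u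
      · rcases eq_or_ne c u with h1 | h1
        · simp [h1]
        · apply Real.log_nonneg
          rw [mem_closedBall, dist_eq_norm, abs_of_pos hr, norm_sub_rev] at hu
          have h2 : 0 < ‖c - u‖ := norm_pos_iff.2 (sub_ne_zero.2 h1)
          rw [← div_eq_mul_inv, le_div_iff₀ h2, one_mul]
          exact hu
    · rw [Function.locallyFinsuppWithin.apply_eq_zero_of_notMem _ hu]
      simp
  linarith

lemma circle_log {h : ℂ → ℂ} {c : ℂ} {r M : ℝ} (hr : 0 < r)
    (hh : AnalyticOnNhd ℂ h (closedBall c r)) (hc : h c ≠ 0) (hM : 1 ≤ M)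
    (hb : ∀ z ∈ closedBall c r, ‖h z‖ ≤ M) :
    ∫⁻ θ in Ioo (-π) π, ENNReal.ofReal (max 0 (Real.log ‖h (circleMap c r θ)‖⁻¹)) ≤
      ENNReal.ofReal (2 * π * (Real.log M - Real.log ‖h c‖)) := by
  have hpi := Real.pi_pos
  set g : ℂ → ℝ := fun z => Real.log M - Real.log ‖h z‖ with hg
  have hsph : ∀ θ, circleMap c r θ ∈ closedBall c r := fun θ =>
    sphere_subset_closedBall (circleMap_mem_sphere c hr.le θ)
  have hL : CircleIntegrable (fun z => Real.log ‖h z‖) c r := by
    have : MeromorphicOn h (sphere c |r|) := by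
      rw [abs_of_pos hr]
      exact fun z hz => (hh z (sphere_subset_closedBall hz)).meromorphicAt
    exact this.circleIntegrable_log_norm
  have hgi : CircleIntegrable g c r := (circleIntegrable_const _ c r).sub hL
  have hper : Function.Periodic (fun θ => g (circleMap c r θ)) (2 * π) := fun θ => by
    simp [periodic_circleMap c r θ]
  have hgi' : IntervalIntegrable (fun θ => g (circleMap c r θ)) volume (-π) π :=
    hper.intervalIntegrable₀ (by positivity) hgi _ _
  have hgnn : ∀ θ, 0 ≤ g (circleMap c r θ) := by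
    intro θ
    have := posLog_inv_le (norm_nonneg (h (circleMap c r θ))) hM (hb _ (hsph θ))
    exact (le_max_left _ _).trans this
  have h1 : ∫⁻ θ in Ioo (-π) π, ENNReal.ofReal (max 0 (Real.log ‖h (circleMap c r θ)‖⁻¹)) ≤
      ∫⁻ θ in Ioo (-π) π, ENNReal.ofReal (g (circleMap c r θ)) := by
    apply lintegral_mono
    intro θ
    exact ENNReal.ofReal_le_ofReal
      (posLog_inv_le (norm_nonneg (h (circleMap c r θ))) hM (hb _ (hsph θ)))
  refine h1.trans ?_
  have hi : Integrable (fun θ => g (circleMap c r θ)) (volume.restrict (Ioo (-π) π)) := by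
    have := (intervalIntegrable_iff_integrableOn_Ioo_of_le (by linarith)).1 hgi'
    exact this
  rw [← ofReal_integral_eq_lintegral_ofReal hi (Eventually.of_forall hgnn)]
  apply ENNReal.ofReal_le_ofReal
  have h2 : ∫ θ in Ioo (-π) π, g (circleMap c r θ) = ∫ θ in (-π)..π, g (circleMap c r θ) := by
    rw [intervalIntegral.integral_of_le (by linarith), integral_Ioc_eq_integral_Ioo]
  have h3 : ∫ θ in (-π)..π, g (circleMap c r θ) = ∫ θ in (0 : ℝ)..(2 * π), g (circleMap c r θ) := by
    have := hper.intervalIntegral_add_eq (-π) 0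
    rw [show -π + 2 * π = π by ring, zero_add] at this
    exact this
  have h4 : ∫ θ in (0 : ℝ)..(2 * π), g (circleMap c r θ) = 2 * π * Real.circleAverage g c r := by
    rw [Real.circleAverage_def, smul_eq_mul]
    field_simp
  rw [h2, h3, h4]
  have h5 : Real.circleAverage g c r = Real.log M - Real.circleAverage (fun z => Real.log ‖h z‖) c r
      := by
    rw [hg, Real.circleAverage_fun_sub (circleIntegrable_const _ c r) hL,
      Real.circleAverage_const]
  rw [h5]
  have := jensen_le hr hh hc
  gcongr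

/-- **Area bound.** -/
theorem area_log {h : ℂ → ℂ} {c : ℂ} {R M m : ℝ} (hR : 0 < R)
    (hh : AnalyticOnNhd ℂ h (closedBall c R)) (hm : 0 < m) (hc : m ≤ ‖h c‖) (hM : 1 ≤ M)
    (hb : ∀ z ∈ closedBall c R, ‖h z‖ ≤ M) :
    ∫⁻ z in ball c R, ENNReal.ofReal (max 0 (Real.log ‖h z‖⁻¹)) ≤
      ENNReal.ofReal (2 * π * R ^ 2 * (Real.log M - Real.log m)) := by
  classical
  have hpi := Real.pi_pos
  set h' : ℂ → ℂ := (ball c R).piecewise h (fun _ => 0) with hh'
  have hcont : ContinuousOn h (ball c R) :=
    hh.continuousOn.mono ball_subset_closedBall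
  have hmeas : Measurable h' :=
    hcont.measurable_piecewise continuousOn_const measurableSet_ball
  set φ : ℂ → ℝ≥0∞ := fun z => ENNReal.ofReal (max 0 (Real.log ‖h' z‖⁻¹)) with hφ
  have hφm : Measurable φ := by
    apply ENNReal.measurable_ofReal.comp
    exact measurable_const.max (Real.measurable_log.comp hmeas.norm.inv)
  have h1 : ∫⁻ z in ball c R, ENNReal.ofReal (max 0 (Real.log ‖h z‖⁻¹)) =
      ∫⁻ z in ball c R, φ z := by
    apply setLIntegral_congr_fun measurableSet_ball
    intro z hz
    simp only [hφ, hh', piecewise_eq_of_mem _ _ _ hz]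
  rw [h1, lintegral_ball_polar φ hφm]
  have hcne : h c ≠ 0 := norm_pos_iff.1 (lt_of_lt_of_le hm hc)
  have hlog : Real.log m ≤ Real.log ‖h c‖ := Real.log_le_log hm hc
  have hcM : ‖h c‖ ≤ M := hb c (mem_closedBall_self hR.le)
  have hnn : 0 ≤ Real.log M - Real.log m := by
    have := Real.log_le_log hm (hc.trans hcM)
    linarith
  have h2 : ∀ r ∈ Ioo (0 : ℝ) R, ENNReal.ofReal r * ∫⁻ θ in Ioo (-π) π, φ (circleMap c r θ) ≤
      ENNReal.ofReal (R * (2 * π * (Real.log M - Real.log m))) := by
    intro r hr
    have h3 : ∫⁻ θ in Ioo (-π) π, φ (circleMap c r θ) ≤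
        ENNReal.ofReal (2 * π * (Real.log M - Real.log m)) := by
      have h4 : ∀ θ, φ (circleMap c r θ) =
          ENNReal.ofReal (max 0 (Real.log ‖h (circleMap c r θ)‖⁻¹)) := by
        intro θ
        have : circleMap c r θ ∈ ball c R := by
          rw [mem_ball, dist_eq_norm, circleMap_sub_center, norm_circleMap_zero, abs_of_pos hr.1]
          exact hr.2
        simp only [hφ, hh', piecewise_eq_of_mem _ _ _ this]
      simp only [h4]
      refine (circle_log hr.1 (hh.mono (closedBall_subset_closedBall hr.2.le)) hcne hM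
        (fun z hz => hb z (closedBall_subset_closedBall hr.2.le hz))).trans ?_
      apply ENNReal.ofReal_le_ofReal
      gcongr
    calc ENNReal.ofReal r * ∫⁻ θ in Ioo (-π) π, φ (circleMap c r θ)
        ≤ ENNReal.ofReal R * ENNReal.ofReal (2 * π * (Real.log M - Real.log m)) := by
          gcongr
          exact hr.2.le
      _ = _ := by rw [← ENNReal.ofReal_mul hR.le]
  calc ∫⁻ r in Ioo (0 : ℝ) R, ENNReal.ofReal r * ∫⁻ θ in Ioo (-π) π, φ (circleMap c r θ)
      ≤ ∫⁻ _ in Ioo (0 : ℝ) R, ENNReal.ofReal (R * (2 * π * (Real.log M - Real.log m))) :=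
        setLIntegral_mono measurable_const h2
    _ = ENNReal.ofReal (R * (2 * π * (Real.log M - Real.log m))) * ENNReal.ofReal R := by
        rw [setLIntegral_const, Real.volume_Ioo, sub_zero]
    _ = _ := by
        rw [← ENNReal.ofReal_mul (by positivity)]
        congr 1
        ring

end Pool.Agent.Had83
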