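import Pool.Agent.Had83.Series

/-!
Averages over the angle.
-/

open MeasureTheory Filter Topology Set Metric
open scoped ENNReal Real

namespace Pool.Agent.Had83

lemma lintegral_shift {φ : ℝ → ℝ≥0∞} (hper : ∀ θ, φ (θ + 2 * π) = φ θ) (δ : ℝ) :
    ∫⁻ θ in Ioc 0 (2 * π), φ (θ + δ) = ∫⁻ θ in Ioc 0 (2 * π), φ θ := by
  have hpi := Real.pi_pos
  have h1 : ∫⁻ θ in Ioc 0 (2 * π), φ (θ + δ) = ∫⁻ θ in Ioc δ (δ + 2 * π), φ θ := by
    rw [← lintegral_indicator measurableSet_Ioc, ← lintegral_indicator measurableSet_Ioc,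
      ← lintegral_add_right_eq_self (fun θ => (Ioc δ (δ + 2 * π)).indicator φ θ) δ]
    apply lintegral_congr
    intro θ
    by_cases h : θ ∈ Ioc 0 (2 * π)
    · rw [indicator_of_mem h, indicator_of_mem]
      exact ⟨by linarith [h.1], by linarith [h.2]⟩
    · rw [indicator_of_notMem h, indicator_of_notMem]
      intro h'
      exact h ⟨by linarith [h'.1], by linarith [h'.2]⟩
  rw [h1]
  have hp : Function.Periodic φ (2 * π) := hper
  have : VAddInvariantMeasure (AddSubgroup.zmultiples (2 * π)) ℝ volume :=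
    ⟨fun c s _ => measure_preimage_add _ _ _⟩
  have h2 := (isAddFundamentalDomain_Ioc (show (0 : ℝ) < 2 * π by positivity) δ).setLIntegral_eq
    (isAddFundamentalDomain_Ioc (show (0 : ℝ) < 2 * π by positivity) 0) φ hp.map_vadd_zmultiples
  rw [zero_add] at h2
  exact h2

/-- swapping the average over the angle with the local integral -/
lemma avg_swap {φ : ℂ → ℝ≥0∞} (hφ : Measurable φ)
    (hper : ∀ ζ : ℂ, φ (ζ + (2 * π : ℝ) * Complex.I) = φ ζ) (D : Set ℂ) (B : ℝ) {N : ℕ}
    (hN : 0 < N) :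
    ∫⁻ θ in Ioc 0 (2 * π), ∫⁻ τ in D, φ (base B θ N + τ / N) =
      ∫⁻ τ in D, ∫⁻ θ in Ioc 0 (2 * π), φ (((-B + τ.re) / N : ℝ) + (θ : ℝ) * Complex.I) := by
  have hNr : (0 : ℝ) < N := by exact_mod_cast hN
  rw [lintegral_lintegral_swap]
  · apply lintegral_congr
    intro τ
    have h1 : ∀ θ : ℝ, φ (base B θ N + τ / N) =
        φ (((-B + τ.re) / N : ℝ) + ((θ + τ.im / N : ℝ) : ℂ) * Complex.I) := by
      intro θ
      congr 1
      unfold base
      apply Complex.ext
      · simp [Complex.div_natCast_re]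
        ring
      · simp [Complex.div_natCast_im]
    simp only [h1]
    apply lintegral_shift (φ := fun θ => φ (((-B + τ.re) / N : ℝ) + (θ : ℝ) * Complex.I))
    intro θ
    rw [← hper (((-B + τ.re) / N : ℝ) + (θ : ℝ) * Complex.I)]
    congr 1
    push_cast
    ring
  · apply Measurable.aemeasurable
    apply hφ.comp
    unfold base
    fun_prop

lemma lintegral_re_le {f : ℝ → ℝ≥0∞} (hf : Measurable f) {R : ℝ} (hR : 0 ≤ R) :
    ∫⁻ τ in closedBall (0 : ℂ) R, f τ.re ≤ ENNReal.ofReal (2 * R) * ∫⁻ x in Icc (-R) R, f x := by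
  have hsub : closedBall (0 : ℂ) R ⊆
      Complex.measurableEquivRealProd ⁻¹' (Icc (-R) R ×ˢ Icc (-R) R) := by
    intro τ hτ
    rw [mem_closedBall, dist_zero_right] at hτ
    simp only [mem_preimage, Complex.measurableEquivRealProd_apply, mem_prod]
    have h1 := abs_le.1 ((Complex.abs_re_le_norm τ).trans hτ)
    have h2 := abs_le.1 ((Complex.abs_im_le_norm τ).trans hτ)
    exact ⟨h1, h2⟩
  calc ∫⁻ τ in closedBall (0 : ℂ) R, f τ.re
      ≤ ∫⁻ τ in Complex.measurableEquivRealProd ⁻¹' (Icc (-R) R ×ˢ Icc (-R) R), f τ.re :=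
        lintegral_mono_set hsub
    _ = ∫⁻ p in Icc (-R) R ×ˢ Icc (-R) R, f p.1 := by
        have h := Complex.volume_preserving_equiv_real_prod.setLIntegral_comp_preimage
          (s := Icc (-R) R ×ˢ Icc (-R) R) (f := fun p : ℝ × ℝ => f p.1)
          (measurableSet_Icc.prod measurableSet_Icc) (hf.comp measurable_fst)
        rw [← h]
        rfl
    _ = ENNReal.ofReal (2 * R) * ∫⁻ x in Icc (-R) R, f x := by
        have h := setLIntegral_prod (μ := (volume : Measure ℝ)) (ν := (volume : Measure ℝ))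
          (s := Icc (-R) R) (t := Icc (-R) R) (fun p : ℝ × ℝ => f p.1)
          (hf.comp measurable_fst).aemeasurable
        rw [Measure.volume_eq_prod, h]
        simp only [setLIntegral_const, Real.volume_Icc]
        rw [lintegral_mul_const _ hf, mul_comm]
        congr 2
        ring

lemma lintegral_scale {f : ℝ → ℝ≥0∞} {R B : ℝ} {N : ℕ} (hN : 0 < N) :
    ∫⁻ x in Icc (-R) R, f ((-B + x) / N) =
      ENNReal.ofReal N * ∫⁻ t in Icc ((-B - R) / N) ((-B + R) / N), f t := by
  have hNr : (0 : ℝ) < N := by exact_mod_cast hN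
  have himg : (fun x : ℝ => (-B + x) / N) '' Icc (-R) R = Icc ((-B - R) / N) ((-B + R) / N) := by
    ext t
    constructor
    · rintro ⟨x, hx, rfl⟩
      constructor
      · have := hx.1
        apply div_le_div_of_nonneg_right _ hNr.le
        linarith
      · have := hx.2
        apply div_le_div_of_nonneg_right _ hNr.le
        linarith
    · rintro ⟨h1, h2⟩
      rw [div_le_iff₀ hNr] at h1
      rw [le_div_iff₀ hNr] at h2
      refine ⟨t * N + B, ⟨by linarith, by linarith⟩, ?_⟩
      simp only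
      field_simp
      ring
  have hd : ∀ x ∈ Icc (-R) R, HasDerivWithinAt (fun x : ℝ => (-B + x) / N) (1 / N) (Icc (-R) R) x := by
    intro x _
    exact (((hasDerivAt_id x).const_add (-B)).div_const (N : ℝ)).hasDerivWithinAt
  have hinj : InjOn (fun x : ℝ => (-B + x) / N) (Icc (-R) R) := by
    intro x _ y _ h
    simp only at h
    field_simp at h
    linarith
  rw [← himg, lintegral_image_eq_lintegral_abs_deriv_mul measurableSet_Icc hd hinj,
    abs_of_pos (by positivity), lintegral_const_mul' _ _ ENNReal.ofReal_ne_top, ← mul_assoc,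
    ← ENNReal.ofReal_mul hNr.le]
  have : (N : ℝ) * (1 / N) = 1 := by field_simp
  rw [this, ENNReal.ofReal_one, one_mul]

end Pool.Agent.Had83
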