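import Pool.Agent.Had83.Records

/-!
The case of bounded coefficients.
-/

open MeasureTheory Filter Topology Set Metric
open scoped ENNReal Real

namespace Pool.Agent.Had83

/-- finite overlap -/
lemma overlap {n : ℕ → ℕ} {q : ℝ} (hq : 1 < q) (hr : ∀ k, q * (n k : ℝ) ≤ (n (k + 1) : ℝ))
    {B R : ℝ} (hB : R < B) {L : ℕ} (hL : (B + R) / (B - R) < q ^ L) (S : Finset ℕ)
    (hS : ∀ k ∈ S, 0 < n k) (t : ℝ) (f : ℝ≥0∞) :
    ∑ k ∈ S, (Icc ((-B - R) / n k) ((-B + R) / n k)).indicator (fun _ => f) t ≤ L * f := by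
  classical
  set S' := S.filter (fun k => t ∈ Icc ((-B - R) / n k) ((-B + R) / n k)) with hS'
  have h1 : ∑ k ∈ S, (Icc ((-B - R) / n k) ((-B + R) / n k)).indicator (fun _ => f) t =
      (S'.card : ℝ≥0∞) * f := by
    rw [← nsmul_eq_mul, ← Finset.sum_const, hS', Finset.sum_filter]
    apply Finset.sum_congr rfl
    intro k _
    rw [indicator_apply]
  rw [h1]
  apply mul_le_mul_left
  have hcard : S'.card ≤ L := by
    rcases S'.eq_empty_or_nonempty with he | hne
    · rw [he]; simp
    · obtain ⟨k0, hk0, hmin⟩ := Finset.exists_min_image S' id hne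
      have hsub : S' ⊆ Finset.Ico k0 (k0 + L) := by
        intro j hj
        have hj0 : k0 ≤ j := hmin j hj
        rw [Finset.mem_Ico]
        refine ⟨hj0, ?_⟩
        by_contra hcon
        rw [not_lt] at hcon
        obtain ⟨h2, h3⟩ := Finset.mem_filter.1 hk0
        obtain ⟨h4, h5⟩ := Finset.mem_filter.1 hj
        have p1 : (0 : ℝ) < n k0 := by exact_mod_cast hS k0 h2
        have p2 : (0 : ℝ) < n j := by exact_mod_cast hS j h4
        have a1 := h3.2
        have a2 := h5.1
        rw [le_div_iff₀ p1] at a1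
        rw [div_le_iff₀ p2] at a2
        have h6 := ratio_pow hq hr k0 (j - k0)
        rw [Nat.add_sub_cancel' hj0] at h6
        have h7 : q ^ L ≤ q ^ (j - k0) := pow_le_pow_right₀ hq.le (by omega)
        have h8 : q ^ L * n k0 ≤ n j := le_trans (by gcongr) h6
        rw [div_lt_iff₀ (by linarith)] at hL
        -- t n_k0 ≤ -(B-R), -(B+R) ≤ t n_j
        have ht : t < 0 := by
          by_contra hc
          rw [not_lt] at hc
          nlinarith
        have h9 : (-t) * (q ^ L * n k0) ≤ (-t) * n j := by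
          apply mul_le_mul_of_nonneg_left h8
          linarith
        have h10 : q ^ L * (B - R) ≤ q ^ L * ((-t) * n k0) := by
          apply mul_le_mul_of_nonneg_left _ (by positivity)
          linarith
        have h11 : q ^ L * ((-t) * n k0) = (-t) * (q ^ L * n k0) := by ring
        linarith
      calc S'.card ≤ (Finset.Ico k0 (k0 + L)).card := Finset.card_le_card hsub
        _ = L := by rw [Nat.card_Ico]; omega
  exact_mod_cast hcard

lemma interval_facts {B R x y t : ℝ} (hR : 2 ≤ R) (hB : 2 * R + 5 ≤ B) (hx : 1 ≤ x) (hxy : x ≤ y)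
    (ht : t ∈ Icc ((-B - R) / x) ((-B + R) / x)) :
    -(B + R + 1) < t ∧ t ≤ -(1 / y) ∧ 1 / x ≤ -(1 / y) - t := by
  have hx0 : 0 < x := by linarith
  have hy0 : 0 < y := by linarith
  obtain ⟨h1, h2⟩ := ht
  rw [div_le_iff₀ hx0] at h1
  have h3 : 1 / y ≤ 1 / x := one_div_le_one_div_of_le hx0 hxy
  have h4 : (-B + R) / x ≤ -(2 / x) := by
    rw [← neg_div]
    apply div_le_div_of_nonneg_right _ hx0.le
    linarith
  have h5 : 0 < 1 / x := by positivity
  have h6 : 2 / x = 2 * (1 / x) := by ring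
  refine ⟨?_, by linarith, by linarith⟩
  by_contra hcon
  rw [not_lt] at hcon
  have h7 : t * x ≤ -(B + R + 1) * x := mul_le_mul_of_nonneg_right hcon hx0.le
  have h8 : (B + R + 1) * 1 ≤ (B + R + 1) * x := mul_le_mul_of_nonneg_left hx (by linarith)
  linarith

lemma sqrt_aux {A x y z ρ : ℝ} (hA : 0 ≤ A) (hx : 0 ≤ x) (hy : 0 ≤ y) (hz : 0 ≤ z) (h : x ≤ z + y)
    (hρ : 0 ≤ ρ) (hρA : ρ ≤ A) : Real.sqrt (ρ ^ 2 + x ^ 2) ≤ (A + y) + z := by
  apply Real.sqrt_le_iff.2
  refine ⟨by positivity, ?_⟩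
  have h1 : ρ ^ 2 ≤ A ^ 2 := pow_le_pow_left₀ hρ hρA 2
  have h2 : x ^ 2 ≤ (z + y) ^ 2 := pow_le_pow_left₀ hx h 2
  nlinarith [mul_nonneg hA (add_nonneg hz hy)]

variable {c : ℕ → ℂ} {n : ℕ → ℕ} {q : ℝ}

/-- **bounded coefficients**: square summability -/
theorem bounded_case (hq : 1 < q) (hn : StrictMono n)
    (hr : ∀ k, q * (n k : ℝ) ≤ (n (k + 1) : ℝ)) (h : Good c n) (w : ℂ) {A : ℝ} (hA0 : 0 < A)
    (hA : ∀ k, ‖c k‖ ≤ A)
    (hM : ∀ M : ℝ, ∃ s < 0, ∀ t : ℝ, s < t → t < 0 → ENNReal.ofReal M ≤ mPsi c n w t) :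
    ∃ S, ∀ m, ∑ k ∈ Finset.range m, ‖c k‖ ^ 2 ≤ S := by
  have hpi := Real.pi_pos
  obtain ⟨J, R, B, C, hR, hB, hC, hstep⟩ := step hq A hA0
  have hx1 : 1 / q < 1 := by
    rw [div_lt_one (by linarith)]
    exact hq
  set β : ℝ := 2 / (1 - 1 / q) with hβ
  have hβ0 : 0 < β := by
    rw [hβ]
    apply div_pos (by norm_num)
    linarith
  obtain ⟨L, hL⟩ := pow_unbounded_of_one_lt ((B + R) / (B - R)) hq
  set M : ℝ := (L * π * β + 1) / C with hMdef
  have hM0 : 0 ≤ M := by positivity
  obtain ⟨s, hs0, hs⟩ := hM M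
  obtain ⟨K1', hK1'⟩ := exists_nat_gt ((B + 1) / (-s))
  set K1 : ℕ := max (max J K1') 1 with hK1
  set s0 : ℝ := -(B + R + 1) with hs0def
  set E0 : ℝ := ∫ θ in (0 : ℝ)..(2 * π), ‖Ser (Dc c n) n (s0 + θ * Complex.I)‖ with hE0
  have hE0n : 0 ≤ E0 := intervalIntegral.integral_nonneg (by positivity) fun _ _ => norm_nonneg _
  set X1 : ℝ := ∑ k ∈ Finset.range K1, ‖c k‖ ^ 2 with hX1
  have hX1n : 0 ≤ X1 := Finset.sum_nonneg fun _ _ => by positivity
  set D : ℝ := L * (2 * π * (A + ‖w‖) + π * (‖c 0‖ ^ 2 + β * X1 + 1) + (-s0) * E0) with hD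
  have hs0' : 0 ≤ -s0 := by rw [hs0def]; linarith
  have hD0 : 0 ≤ D := by positivity
  -- the main bound
  have main : ∀ K0, DomN c n K0 → XX c n K0 ≤ X1 + D := by
    intro K0 hK0
    classical
    set S := (Rec c n K0).filter (fun k => K1 ≤ k) with hS
    have hsplit : XX c n K0 ≤ X1 + ∑ k ∈ S, ‖c k‖ ^ 2 := by
      unfold XX
      rw [← Finset.sum_filter_add_sum_filter_not (Rec c n K0) (fun k => k < K1)]
      apply add_le_add
      · apply Finset.sum_le_sum_of_subset_of_nonneg
        · intro k hk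
          exact Finset.mem_range.2 (Finset.mem_filter.1 hk).2
        · intro _ _ _
          positivity
      · apply le_of_eq
        apply Finset.sum_congr _ fun _ _ => rfl
        ext k
        simp only [hS, Finset.mem_filter, not_lt]
    have hSmem : ∀ k ∈ S, k ≤ K0 ∧ DomN c n k ∧ K1 ≤ k := by
      intro k hk
      obtain ⟨h1, h2⟩ := Finset.mem_filter.1 hk
      obtain ⟨h3, h4⟩ := mem_Rec.1 h1
      exact ⟨h3, h4, h2⟩
    set X' := ∑ k ∈ S, ‖c k‖ ^ 2 with hX'
    have hX'n : 0 ≤ X' := Finset.sum_nonneg fun _ _ => by positivity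
    -- choose rho
    obtain ⟨ρ, hρ0, hρA, hρ⟩ : ∃ ρ : ℝ, 0 < ρ ∧ ρ ≤ A ∧ ∀ k ∈ S, ρ ≤ ‖c k‖ := by
      rcases S.eq_empty_or_nonempty with he | hne
      · exact ⟨A, hA0, le_rfl, by rw [he]; simp⟩
      · obtain ⟨k, hk, hmin⟩ := Finset.exists_min_image S (fun k => ‖c k‖) hne
        exact ⟨‖c k‖, norm_pos_iff.2 (hSmem k hk).2.1.2.1, hA k, hmin⟩
    have h0r : (0 : ℝ) < n K0 := by exact_mod_cast hK0.1
    set s2 : ℝ := -(1 / n K0) with hs2
    have hs2neg : s2 < 0 := by
      rw [hs2]
      have : 0 < 1 / (n K0 : ℝ) := by positivity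
      linarith
    have h1n : (1 : ℝ) ≤ n K0 := by
      have := hK0.1
      exact_mod_cast this
    have hs02 : s0 ≤ s2 := by
      rw [hs0def, hs2]
      have : 1 / (n K0 : ℝ) ≤ 1 := by
        rw [div_le_one h0r]
        exact h1n
      linarith
    -- energy
    have hen := energyE h w hρ0 hs02 hs2neg
    -- each index
    have hone : ∀ k ∈ S, ENNReal.ofReal (M * ‖c k‖ ^ 2 * C) ≤
        ∫⁻ t in Ioc s0 s2, (Icc ((-B - R) / n k) ((-B + R) / n k)).indicator
          (fun t => ENNReal.ofReal (s2 - t) * eK c n w ρ t) t := by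
      intro k hk
      obtain ⟨hk0, hkd, hk1⟩ := hSmem k hk
      have hkr : (0 : ℝ) < n k := by exact_mod_cast hkd.1
      have hk1r : (1 : ℝ) ≤ n k := by
        have := hkd.1
        exact_mod_cast this
      have hkK : (n k : ℝ) ≤ n K0 := by exact_mod_cast hn.monotone hk0
      have hJk : J ≤ k := by omega
      have hkn : (k : ℝ) ≤ n k := by exact_mod_cast hn.le_apply
      have hK1k : (K1' : ℝ) ≤ k := by
        have : K1' ≤ k := by omega
        exact_mod_cast this
      have hBk : (B + 1) / n k < -s := by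
        rw [div_lt_iff₀ (by linarith)] at hK1'
        rw [div_lt_iff₀ hkr]
        have : (K1' : ℝ) * (-s) ≤ n k * (-s) :=
          mul_le_mul_of_nonneg_right (by linarith) (by linarith)
        linarith
      have h2 := hstep c n k w ρ M h hr hkd hJk (hA k) hρ0 (hρ k hk) hM0 (by
        intro t ht1 ht2
        apply hs
        · rw [neg_div] at ht1
          linarith
        · refine lt_of_le_of_lt ht2 ?_
          apply div_neg_of_neg_of_pos _ hkr
          linarith)
      refine h2.trans ?_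
      have hsubset : Icc ((-B - R) / n k) ((-B + R) / n k) ⊆ Ioc s0 s2 := by
        intro t ht
        obtain ⟨i1, i2, -⟩ := interval_facts hR hB hk1r hkK ht
        exact ⟨i1, i2⟩
      rw [← lintegral_indicator measurableSet_Ioc, indicator_indicator,
        inter_eq_self_of_subset_right hsubset, lintegral_indicator measurableSet_Icc,
        ← lintegral_const_mul' _ _ ENNReal.ofReal_ne_top]
      apply setLIntegral_mono' measurableSet_Icc
      intro t ht
      apply mul_le_mul_left
      apply ENNReal.ofReal_le_ofReal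
      exact (interval_facts hR hB hk1r hkK ht).2.2
    have hsum : ENNReal.ofReal (M * X' * C) ≤
        L * ∫⁻ t in Ioc s0 s2, ENNReal.ofReal (s2 - t) * eK c n w ρ t := by
      have hmeas : Measurable fun t => ENNReal.ofReal (s2 - t) * eK c n w ρ t :=
        (measurable_const.sub measurable_id).ennreal_ofReal.mul (eK_meas h ρ)
      calc ENNReal.ofReal (M * X' * C) = ∑ k ∈ S, ENNReal.ofReal (M * ‖c k‖ ^ 2 * C) := by
            rw [← ENNReal.ofReal_sum_of_nonneg (fun _ _ => by positivity), ← Finset.sum_mul,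
              ← Finset.mul_sum]
        _ ≤ ∑ k ∈ S, ∫⁻ t in Ioc s0 s2, (Icc ((-B - R) / n k) ((-B + R) / n k)).indicator
              (fun t => ENNReal.ofReal (s2 - t) * eK c n w ρ t) t := Finset.sum_le_sum hone
        _ = ∫⁻ t in Ioc s0 s2, ∑ k ∈ S, (Icc ((-B - R) / n k) ((-B + R) / n k)).indicator
              (fun t => ENNReal.ofReal (s2 - t) * eK c n w ρ t) t := by
            rw [lintegral_finsetSum]
            intro k _
            exact hmeas.indicator measurableSet_Icc
        _ ≤ ∫⁻ t in Ioc s0 s2, L * (ENNReal.ofReal (s2 - t) * eK c n w ρ t) := by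
            apply lintegral_mono
            intro t
            have := overlap hq hr (by linarith : R < B) hL S
              (fun k hk => (hSmem k hk).2.1.1) t (ENNReal.ofReal (s2 - t) * eK c n w ρ t)
            refine le_trans (le_of_eq ?_) this
            apply Finset.sum_congr rfl
            intro k _
            simp only [indicator_apply]
        _ = _ := by rw [lintegral_const_mul' _ _ (ENNReal.natCast_ne_top L)]
    -- upper bound for the energy
    have hmean := mean_le hn h hs2neg (sum_exp_le hq hn hr hK0)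
    have hup : (∫ θ in (0 : ℝ)..(2 * π), Real.sqrt (ρ ^ 2 + ‖Ser c n (s2 + θ * Complex.I) - w‖ ^ 2)) +
        (s2 - s0) * ∫ θ in (0 : ℝ)..(2 * π), ‖Ser (Dc c n) n (s0 + θ * Complex.I)‖ ≤
        2 * π * (A + ‖w‖) + π * (‖c 0‖ ^ 2 + β * XX c n K0 + 1) + (-s0) * E0 := by
      have hc := h.cont_line hs2neg
      have h1 : ∫ θ in (0 : ℝ)..(2 * π),
          Real.sqrt (ρ ^ 2 + ‖Ser c n (s2 + θ * Complex.I) - w‖ ^ 2) ≤
          ∫ θ in (0 : ℝ)..(2 * π), ((A + ‖w‖) + ‖Ser c n (s2 + θ * Complex.I)‖) := by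
        apply intervalIntegral.integral_mono_on (by positivity)
        · exact (continuous_const.add (((hc.sub continuous_const).norm).pow 2)).sqrt.intervalIntegrable
            _ _
        · exact (continuous_const.add hc.norm).intervalIntegrable _ _
        · intro θ _
          set z := Ser c n (s2 + θ * Complex.I) with hz
          have h2 : ‖z - w‖ ≤ ‖z‖ + ‖w‖ := norm_sub_le _ _
          exact sqrt_aux hA0.le (norm_nonneg _) (norm_nonneg _) (norm_nonneg _) h2 hρ0.le hρA
      have h2 : ∫ θ in (0 : ℝ)..(2 * π), ((A + ‖w‖) + ‖Ser c n (s2 + θ * Complex.I)‖) =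
          2 * π * (A + ‖w‖) + ∫ θ in (0 : ℝ)..(2 * π), ‖Ser c n (s2 + θ * Complex.I)‖ := by
        rw [intervalIntegral.integral_add (continuous_const.intervalIntegrable _ _)
          (hc.norm.intervalIntegrable _ _), intervalIntegral.integral_const]
        simp
      have h3 : (s2 - s0) * E0 ≤ (-s0) * E0 := by
        apply mul_le_mul_of_nonneg_right _ hE0n
        linarith
      have h4 : ∫ θ in (0 : ℝ)..(2 * π), ‖Ser c n (s2 + θ * Complex.I)‖ ≤
          π * (‖c 0‖ ^ 2 + β * XX c n K0 + 1) := hmean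
      linarith
    have hfin : M * X' * C ≤ L * (2 * π * (A + ‖w‖) + π * (‖c 0‖ ^ 2 + β * XX c n K0 + 1) +
        (-s0) * E0) := by
      have hXX : 0 ≤ XX c n K0 := Finset.sum_nonneg fun _ _ => by positivity
      have h1 : ENNReal.ofReal (M * X' * C) ≤ ENNReal.ofReal (L * (2 * π * (A + ‖w‖) +
          π * (‖c 0‖ ^ 2 + β * XX c n K0 + 1) + (-s0) * E0)) := by
        refine hsum.trans ?_
        rw [ENNReal.ofReal_mul (by positivity), ENNReal.ofReal_natCast]
        apply mul_le_mul_right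
        exact hen.trans (ENNReal.ofReal_le_ofReal hup)
      rwa [ENNReal.ofReal_le_ofReal_iff (by positivity)] at h1
    have hMC : M * X' * C = (L * π * β + 1) * X' := by
      rw [hMdef]
      field_simp
    have hfin2 : (L * π * β + 1) * X' ≤ D + L * π * β * X' := by
      rw [← hMC]
      refine hfin.trans ?_
      have h1 : (L : ℝ) * (π * (β * XX c n K0)) ≤ L * (π * (β * (X1 + X'))) := by
        gcongr
      rw [hD]
      linarith
    have hX'D : X' ≤ D := by linarith
    linarith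
  refine ⟨‖c 0‖ ^ 2 + 2 / (1 - 1 / q) * (X1 + D), fun m => ?_⟩
  exact sum_bdd hq hn hr hA (by positivity) main m

end Pool.Agent.Had83
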