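import Mathlib

/-!
The energy inequality for circle means of `√(ρ² + |G|²)`.
-/

open MeasureTheory Filter Topology Set
open scoped Real

namespace Pool.Agent.Had83

section Calculus

variable {X X1 Y Y1 : ℝ → ℝ} {X2 Y2 ρ t : ℝ}

lemma d1_sqrt (hρ : 0 < ρ) (hX : HasDerivAt X (X1 t) t) (hY : HasDerivAt Y (Y1 t) t) :
    HasDerivAt (fun t => Real.sqrt (ρ ^ 2 + (X t ^ 2 + Y t ^ 2)))
      ((X t * X1 t + Y t * Y1 t) / Real.sqrt (ρ ^ 2 + (X t ^ 2 + Y t ^ 2))) t := by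
  have h1 : HasDerivAt (fun t => ρ ^ 2 + (X t ^ 2 + Y t ^ 2))
      (2 * (X t * X1 t + Y t * Y1 t)) t := by
    refine (((hX.pow 2).add (hY.pow 2)).const_add (ρ ^ 2)).congr_deriv ?_
    push_cast
    ring
  have hpos : 0 < ρ ^ 2 + (X t ^ 2 + Y t ^ 2) := by positivity
  refine (h1.sqrt hpos.ne').congr_deriv ?_
  have : Real.sqrt (ρ ^ 2 + (X t ^ 2 + Y t ^ 2)) ≠ 0 := (Real.sqrt_pos.2 hpos).ne'
  field_simp

lemma d2_sqrt (hρ : 0 < ρ) (hX : HasDerivAt X (X1 t) t) (hY : HasDerivAt Y (Y1 t) t)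
    (hX1 : HasDerivAt X1 X2 t) (hY1 : HasDerivAt Y1 Y2 t) :
    HasDerivAt (fun t => (X t * X1 t + Y t * Y1 t) / Real.sqrt (ρ ^ 2 + (X t ^ 2 + Y t ^ 2)))
      ((X1 t ^ 2 + Y1 t ^ 2 + X t * X2 + Y t * Y2) / Real.sqrt (ρ ^ 2 + (X t ^ 2 + Y t ^ 2)) -
        (X t * X1 t + Y t * Y1 t) ^ 2 / Real.sqrt (ρ ^ 2 + (X t ^ 2 + Y t ^ 2)) ^ 3) t := by
  have hpos : 0 < ρ ^ 2 + (X t ^ 2 + Y t ^ 2) := by positivity
  have hs : 0 < Real.sqrt (ρ ^ 2 + (X t ^ 2 + Y t ^ 2)) := Real.sqrt_pos.2 hpos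
  have h1 := ((hX.mul hX1).add (hY.mul hY1)).div (d1_sqrt hρ hX hY) hs.ne'
  refine h1.congr_deriv ?_
  simp only [Pi.add_apply, Pi.mul_apply]
  field_simp
  ring

end Calculus

section Fubini

variable {s0 s2 : ℝ} {F : ℝ × ℝ → ℝ}

lemma cont_integrable (hF : ContinuousOn F (Icc s0 s2 ×ˢ Icc 0 (2 * π))) :
    IntegrableOn F (Ioc s0 s2 ×ˢ Ioc 0 (2 * π)) :=
  (hF.integrableOn_compact (isCompact_Icc.prod isCompact_Icc)).mono_set
    (prod_mono Ioc_subset_Icc_self Ioc_subset_Icc_self)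

lemma iter1 (hs : s0 ≤ s2) (hF : ContinuousOn F (Icc s0 s2 ×ˢ Icc 0 (2 * π))) :
    ∫ p in Ioc s0 s2 ×ˢ Ioc 0 (2 * π), F p = ∫ t in s0..s2, ∫ θ in (0 : ℝ)..(2 * π), F (t, θ) := by
  have hpi := Real.pi_pos
  have h := cont_integrable hF
  rw [Measure.volume_eq_prod] at h ⊢
  rw [setIntegral_prod F h, intervalIntegral.integral_of_le hs]
  simp only [intervalIntegral.integral_of_le (show (0 : ℝ) ≤ 2 * π by positivity)]

lemma iter2 (hs : s0 ≤ s2) (hF : ContinuousOn F (Icc s0 s2 ×ˢ Icc 0 (2 * π))) :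
    ∫ p in Ioc s0 s2 ×ˢ Ioc 0 (2 * π), F p = ∫ θ in (0 : ℝ)..(2 * π), ∫ t in s0..s2, F (t, θ) := by
  have hpi := Real.pi_pos
  rw [iter1 hs hF]
  apply MeasureTheory.intervalIntegral_intervalIntegral_swap (F := fun t θ => F (t, θ))
  rw [uIoc_of_le hs, uIoc_of_le (by positivity)]
  exact cont_integrable hF

end Fubini

/-- **Energy inequality.** -/
theorem energy {G G1 G2 G3 : ℂ → ℂ}
    (h0 : ∀ ζ : ℂ, ζ.re < 0 → HasDerivAt G (G1 ζ) ζ)
    (h1 : ∀ ζ : ℂ, ζ.re < 0 → HasDerivAt G1 (G2 ζ) ζ)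
    (h2 : ∀ ζ : ℂ, ζ.re < 0 → HasDerivAt G2 (G3 ζ) ζ)
    (p0 : ∀ ζ : ℂ, G (ζ + (2 * π : ℝ) * Complex.I) = G ζ)
    (p1 : ∀ ζ : ℂ, G1 (ζ + (2 * π : ℝ) * Complex.I) = G1 ζ)
    {ρ s0 s2 : ℝ} (hρ : 0 < ρ) (hs : s0 ≤ s2) (hs2 : s2 < 0) :
    ∫ t in s0..s2, (s2 - t) * ∫ θ in (0 : ℝ)..(2 * π),
        ‖G1 (t + θ * Complex.I)‖ ^ 2 / Real.sqrt (ρ ^ 2 + ‖G (t + θ * Complex.I)‖ ^ 2) ≤
      (∫ θ in (0 : ℝ)..(2 * π), Real.sqrt (ρ ^ 2 + ‖G (s2 + θ * Complex.I)‖ ^ 2)) +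
        (s2 - s0) * ∫ θ in (0 : ℝ)..(2 * π), ‖G1 (s0 + θ * Complex.I)‖ := by
  have hpi := Real.pi_pos
  -- notation
  set z : ℝ → ℝ → ℂ := fun t θ => t + θ * Complex.I with hz
  have hzre : ∀ t θ, (z t θ).re = t := by intro t θ; simp [hz]
  have hnsq : ∀ w : ℂ, ‖w‖ ^ 2 = w.re ^ 2 + w.im ^ 2 := by
    intro w
    rw [Complex.sq_norm, Complex.normSq_apply]; ring
  set v : ℝ → ℝ → ℝ := fun t θ =>
    Real.sqrt (ρ ^ 2 + ((G (z t θ)).re ^ 2 + (G (z t θ)).im ^ 2)) with hv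
  have hvpos : ∀ t θ, 0 < v t θ := fun t θ => Real.sqrt_pos.2 (by positivity)
  have hvsq : ∀ t θ, v t θ ^ 2 = ρ ^ 2 + ((G (z t θ)).re ^ 2 + (G (z t θ)).im ^ 2) := by
    intro t θ
    exact Real.sq_sqrt (by positivity)
  -- derivatives of re, im along s and θ
  have ds : ∀ (H H1 : ℂ → ℂ), (∀ ζ : ℂ, ζ.re < 0 → HasDerivAt H (H1 ζ) ζ) →
      ∀ t θ, t < 0 → HasDerivAt (fun t => (H (z t θ)).re) (H1 (z t θ)).re t ∧
        HasDerivAt (fun t => (H (z t θ)).im) (H1 (z t θ)).im t := by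
    intro H H1 hH t θ ht
    have e1 : HasDerivAt (fun t : ℝ => z t θ) 1 t := by
      have : HasDerivAt (fun t : ℝ => (t : ℂ)) 1 t := Complex.ofRealCLM.hasDerivAt
      exact this.add_const _
    have e2 : HasDerivAt (fun t : ℝ => H (z t θ)) (H1 (z t θ)) t := by
      have := (hH (z t θ) (by rw [hzre]; exact ht)).comp t e1
      rwa [mul_one] at this
    exact ⟨Complex.reCLM.hasFDerivAt.comp_hasDerivAt t e2,
      Complex.imCLM.hasFDerivAt.comp_hasDerivAt t e2⟩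
  have dθ : ∀ (H H1 : ℂ → ℂ), (∀ ζ : ℂ, ζ.re < 0 → HasDerivAt H (H1 ζ) ζ) →
      ∀ t θ, t < 0 → HasDerivAt (fun θ => (H (z t θ)).re) (-(H1 (z t θ)).im) θ ∧
        HasDerivAt (fun θ => (H (z t θ)).im) (H1 (z t θ)).re θ := by
    intro H H1 hH t θ ht
    have e1 : HasDerivAt (fun θ : ℝ => z t θ) Complex.I θ := by
      have : HasDerivAt (fun θ : ℝ => (θ : ℂ)) 1 θ := Complex.ofRealCLM.hasDerivAt
      have := (this.mul_const Complex.I).const_add (t : ℂ)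
      rwa [one_mul] at this
    have e2 : HasDerivAt (fun θ : ℝ => H (z t θ)) (H1 (z t θ) * Complex.I) θ :=
      (hH (z t θ) (by rw [hzre]; exact ht)).comp θ e1
    have e3 := Complex.reCLM.hasFDerivAt.comp_hasDerivAt θ e2
    have e4 := Complex.imCLM.hasFDerivAt.comp_hasDerivAt θ e2
    constructor
    · refine e3.congr_deriv ?_
      simp
    · refine e4.congr_deriv ?_
      simp
  -- the second derivatives
  set vs : ℝ → ℝ → ℝ := fun t θ => ((G (z t θ)).re * (G1 (z t θ)).re +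
    (G (z t θ)).im * (G1 (z t θ)).im) / v t θ with hvs
  set vt : ℝ → ℝ → ℝ := fun t θ => ((G (z t θ)).re * (-(G1 (z t θ)).im) +
    (G (z t θ)).im * (G1 (z t θ)).re) / v t θ with hvt
  set vss : ℝ → ℝ → ℝ := fun t θ =>
    ((G1 (z t θ)).re ^ 2 + (G1 (z t θ)).im ^ 2 + (G (z t θ)).re * (G2 (z t θ)).re +
      (G (z t θ)).im * (G2 (z t θ)).im) / v t θ -
      ((G (z t θ)).re * (G1 (z t θ)).re + (G (z t θ)).im * (G1 (z t θ)).im) ^ 2 / v t θ ^ 3
    with hvss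
  set vtt : ℝ → ℝ → ℝ := fun t θ =>
    ((-(G1 (z t θ)).im) ^ 2 + (G1 (z t θ)).re ^ 2 + (G (z t θ)).re * (-(G2 (z t θ)).re) +
      (G (z t θ)).im * (-(G2 (z t θ)).im)) / v t θ -
      ((G (z t θ)).re * (-(G1 (z t θ)).im) + (G (z t θ)).im * (G1 (z t θ)).re) ^ 2 / v t θ ^ 3
    with hvtt
  have hd_v : ∀ t θ, t < 0 → HasDerivAt (fun t => v t θ) (vs t θ) t := by
    intro t θ ht
    have a1 := ds G G1 h0 t θ ht
    exact d1_sqrt (X := fun t => (G (z t θ)).re) (Y := fun t => (G (z t θ)).im)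
      (X1 := fun t => (G1 (z t θ)).re) (Y1 := fun t => (G1 (z t θ)).im) hρ a1.1 a1.2
  have hd_vs : ∀ t θ, t < 0 → HasDerivAt (fun t => vs t θ) (vss t θ) t := by
    intro t θ ht
    have a1 := ds G G1 h0 t θ ht
    have a2 := ds G1 G2 h1 t θ ht
    exact d2_sqrt (X := fun t => (G (z t θ)).re) (Y := fun t => (G (z t θ)).im)
      (X1 := fun t => (G1 (z t θ)).re) (Y1 := fun t => (G1 (z t θ)).im) hρ a1.1 a1.2 a2.1 a2.2
  have hd_vt : ∀ t θ, t < 0 → HasDerivAt (fun θ => vt t θ) (vtt t θ) θ := by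
    intro t θ ht
    have a1 := dθ G G1 h0 t θ ht
    have a2 := dθ G1 G2 h1 t θ ht
    exact d2_sqrt (X := fun θ => (G (z t θ)).re) (Y := fun θ => (G (z t θ)).im)
      (X1 := fun θ => -(G1 (z t θ)).im) (Y1 := fun θ => (G1 (z t θ)).re) hρ a1.1 a1.2
      a2.2.neg a2.1
  -- continuity
  have hzc : Continuous fun p : ℝ × ℝ => z p.1 p.2 := by
    simp only [hz]; fun_prop
  have hcomp : ∀ (H H1 : ℂ → ℂ), (∀ ζ : ℂ, ζ.re < 0 → HasDerivAt H (H1 ζ) ζ) →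
      ContinuousOn (fun p : ℝ × ℝ => H (z p.1 p.2)) {p | p.1 < 0} := by
    intro H H1 hH p hp
    have hp : p.1 < 0 := hp
    have c1 : ContinuousAt H (z p.1 p.2) := (hH _ (by rw [hzre]; exact hp)).continuousAt
    exact (ContinuousAt.comp (f := fun p : ℝ × ℝ => z p.1 p.2) (g := H) c1
      hzc.continuousAt).continuousWithinAt
  have cG := hcomp G G1 h0
  have cG1 := hcomp G1 G2 h1
  have cG2 := hcomp G2 G3 h2
  have cre : ∀ {H : ℂ → ℂ}, ContinuousOn (fun p : ℝ × ℝ => H (z p.1 p.2)) {p | p.1 < 0} →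
      ContinuousOn (fun p : ℝ × ℝ => (H (z p.1 p.2)).re) {p | p.1 < 0} := fun h =>
    Complex.continuous_re.comp_continuousOn h
  have cim : ∀ {H : ℂ → ℂ}, ContinuousOn (fun p : ℝ × ℝ => H (z p.1 p.2)) {p | p.1 < 0} →
      ContinuousOn (fun p : ℝ × ℝ => (H (z p.1 p.2)).im) {p | p.1 < 0} := fun h =>
    Complex.continuous_im.comp_continuousOn h
  have cv : ContinuousOn (fun p : ℝ × ℝ => v p.1 p.2) {p | p.1 < 0} := by
    apply ContinuousOn.sqrt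
    exact continuousOn_const.add (((cre cG).pow 2).add ((cim cG).pow 2))
  set κ : ℝ → ℝ → ℝ := fun t θ => ((G1 (z t θ)).re ^ 2 + (G1 (z t θ)).im ^ 2) / v t θ with hκ
  have cκ : ContinuousOn (fun p : ℝ × ℝ => κ p.1 p.2) {p | p.1 < 0} :=
    (((cre cG1).pow 2).add ((cim cG1).pow 2)).div cv (fun p _ => (hvpos _ _).ne')
  have cvs : ContinuousOn (fun p : ℝ × ℝ => vs p.1 p.2) {p | p.1 < 0} :=
    (((cre cG).mul (cre cG1)).add ((cim cG).mul (cim cG1))).div cv (fun p _ => (hvpos _ _).ne')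
  have cvt : ContinuousOn (fun p : ℝ × ℝ => vt p.1 p.2) {p | p.1 < 0} :=
    (((cre cG).mul (cim cG1).neg).add ((cim cG).mul (cre cG1))).div cv
      (fun p _ => (hvpos _ _).ne')
  have cvss : ContinuousOn (fun p : ℝ × ℝ => vss p.1 p.2) {p | p.1 < 0} := by
    apply ContinuousOn.sub
    · exact (((((cre cG1).pow 2).add ((cim cG1).pow 2)).add ((cre cG).mul (cre cG2))).add
        ((cim cG).mul (cim cG2))).div cv (fun p _ => (hvpos _ _).ne')
    · exact ((((cre cG).mul (cre cG1)).add ((cim cG).mul (cim cG1))).pow 2).div (cv.pow 3)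
        (fun p _ => (pow_pos (hvpos _ _) 3).ne')
  have cvtt : ContinuousOn (fun p : ℝ × ℝ => vtt p.1 p.2) {p | p.1 < 0} := by
    apply ContinuousOn.sub
    · exact (((((cim cG1).neg.pow 2).add ((cre cG1).pow 2)).add ((cre cG).mul (cre cG2).neg)).add
        ((cim cG).mul (cim cG2).neg)).div cv (fun p _ => (hvpos _ _).ne')
    · exact ((((cre cG).mul (cim cG1).neg).add ((cim cG).mul (cre cG1))).pow 2).div (cv.pow 3)
        (fun p _ => (pow_pos (hvpos _ _) 3).ne')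
  have hsubZ : Icc s0 s2 ×ˢ Icc 0 (2 * π) ⊆ {p : ℝ × ℝ | p.1 < 0} := by
    rintro ⟨t, θ⟩ ⟨ht, _⟩
    exact lt_of_le_of_lt ht.2 hs2
  have cst : Continuous fun p : ℝ × ℝ => s2 - p.1 := by fun_prop
  -- pointwise inequality
  have hpt : ∀ t θ, κ t θ ≤ vss t θ + vtt t θ := by
    intro t θ
    have hvp := hvpos t θ
    have hsq := hvsq t θ
    have e : vss t θ + vtt t θ - κ t θ =
        ((G1 (z t θ)).re ^ 2 + (G1 (z t θ)).im ^ 2) *
          (v t θ ^ 2 - ((G (z t θ)).re ^ 2 + (G (z t θ)).im ^ 2)) / v t θ ^ 3 := by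
      simp only [hvss, hvtt, hκ]
      field_simp
      ring
    have : 0 ≤ vss t θ + vtt t θ - κ t θ := by
      rw [e, hsq]
      have : ρ ^ 2 + ((G (z t θ)).re ^ 2 + (G (z t θ)).im ^ 2) -
        ((G (z t θ)).re ^ 2 + (G (z t θ)).im ^ 2) = ρ ^ 2 := by ring
      rw [this]
      positivity
    linarith
  -- the θ-part vanishes
  have hzero : ∀ t, t < 0 → ∫ θ in (0 : ℝ)..(2 * π), (s2 - t) * vtt t θ = 0 := by
    intro t ht
    rw [intervalIntegral.integral_const_mul]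
    have hc : Continuous fun θ => vtt t θ := by
      rw [← continuousOn_univ]
      exact cvtt.comp (f := fun θ : ℝ => (t, θ)) (by fun_prop) (fun θ _ => ht)
    have := intervalIntegral.integral_eq_sub_of_hasDerivAt (a := 0) (b := 2 * π)
      (f := fun θ => vt t θ) (f' := fun θ => vtt t θ) (fun θ _ => hd_vt t θ ht)
      (hc.intervalIntegrable _ _)
    rw [this]
    have e1 : z t (2 * π) = z t 0 + (2 * π : ℝ) * Complex.I := by
      simp only [hz]; push_cast; ring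
    have e2 : vt t (2 * π) = vt t 0 := by
      simp only [hvt, hv, e1, p0, p1]
    rw [e2, sub_self, mul_zero]
  -- Taylor in s
  have htaylor : ∀ θ, ∫ t in s0..s2, (s2 - t) * vss t θ =
      v s2 θ - (v s0 θ + (s2 - s0) * vs s0 θ) := by
    intro θ
    have hc : ContinuousOn (fun t => (s2 - t) * vss t θ) (uIcc s0 s2) := by
      apply ContinuousOn.mul (by fun_prop)
      exact cvss.comp (f := fun t : ℝ => (t, θ)) (by fun_prop) (fun t ht => by
        rw [uIcc_of_le hs] at ht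
        exact lt_of_le_of_lt ht.2 hs2)
    have := intervalIntegral.integral_eq_sub_of_hasDerivAt (a := s0) (b := s2)
      (f := fun t => v t θ + (s2 - t) * vs t θ) (f' := fun t => (s2 - t) * vss t θ)
      (fun t ht => by
        rw [uIcc_of_le hs] at ht
        have ht0 : t < 0 := lt_of_le_of_lt ht.2 hs2
        have a1 := hd_v t θ ht0
        have a2 := hd_vs t θ ht0
        have a3 : HasDerivAt (fun t : ℝ => s2 - t) (-1) t := by
          simpa using (hasDerivAt_id t).const_sub s2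
        refine (a1.add (a3.mul a2)).congr_deriv ?_
        ring) hc.intervalIntegrable
    rw [this]
    ring
  -- assemble
  have hκeq : ∀ t θ : ℝ, ‖G1 (t + θ * Complex.I)‖ ^ 2 /
      Real.sqrt (ρ ^ 2 + ‖G (t + θ * Complex.I)‖ ^ 2) = κ t θ := by
    intro t θ
    simp only [hκ, hv, hz]
    rw [hnsq, hnsq]
  have hveq : ∀ t θ : ℝ, Real.sqrt (ρ ^ 2 + ‖G (t + θ * Complex.I)‖ ^ 2) = v t θ := by
    intro t θ
    simp only [hv, hz]
    rw [hnsq]
  simp only [hκeq]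
  simp only [hveq]
  have c1 : ContinuousOn (fun p : ℝ × ℝ => (s2 - p.1) * κ p.1 p.2)
      (Icc s0 s2 ×ˢ Icc 0 (2 * π)) := cst.continuousOn.mul (cκ.mono hsubZ)
  have c2 : ContinuousOn (fun p : ℝ × ℝ => (s2 - p.1) * vss p.1 p.2)
      (Icc s0 s2 ×ˢ Icc 0 (2 * π)) := cst.continuousOn.mul (cvss.mono hsubZ)
  have c3 : ContinuousOn (fun p : ℝ × ℝ => (s2 - p.1) * vtt p.1 p.2)
      (Icc s0 s2 ×ˢ Icc 0 (2 * π)) := cst.continuousOn.mul (cvtt.mono hsubZ)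
  have e1 : ∫ t in s0..s2, (s2 - t) * ∫ θ in (0 : ℝ)..(2 * π), κ t θ =
      ∫ p in Ioc s0 s2 ×ˢ Ioc 0 (2 * π), (s2 - p.1) * κ p.1 p.2 := by
    rw [iter1 hs c1]
    simp only [intervalIntegral.integral_const_mul]
  have e2 : ∫ p in Ioc s0 s2 ×ˢ Ioc 0 (2 * π), (s2 - p.1) * vtt p.1 p.2 = 0 := by
    rw [iter1 hs c3]
    have : ∀ t ∈ uIcc s0 s2, ∫ θ in (0 : ℝ)..(2 * π), (s2 - t) * vtt t θ = 0 := by
      intro t ht
      rw [uIcc_of_le hs] at ht
      exact hzero t (lt_of_le_of_lt ht.2 hs2)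
    rw [intervalIntegral.integral_congr this]
    simp
  have e3 : ∫ p in Ioc s0 s2 ×ˢ Ioc 0 (2 * π), (s2 - p.1) * vss p.1 p.2 =
      ∫ θ in (0 : ℝ)..(2 * π), (v s2 θ - (v s0 θ + (s2 - s0) * vs s0 θ)) := by
    rw [iter2 hs c2]
    simp only [htaylor]
  have e4 : ∫ p in Ioc s0 s2 ×ˢ Ioc 0 (2 * π), (s2 - p.1) * κ p.1 p.2 ≤
      ∫ p in Ioc s0 s2 ×ˢ Ioc 0 (2 * π),
        ((s2 - p.1) * vss p.1 p.2 + (s2 - p.1) * vtt p.1 p.2) := by
    apply setIntegral_mono_on (cont_integrable c1)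
      ((cont_integrable c2).add (cont_integrable c3)) (measurableSet_Ioc.prod measurableSet_Ioc)
    rintro ⟨t, θ⟩ ⟨ht, _⟩
    change (s2 - t) * κ t θ ≤ (s2 - t) * vss t θ + (s2 - t) * vtt t θ
    rw [← mul_add]
    have ht2 : t ≤ s2 := ht.2
    exact mul_le_mul_of_nonneg_left (hpt t θ) (by linarith)
  rw [integral_add (cont_integrable c2) (cont_integrable c3), e2, add_zero, e3] at e4
  rw [e1]
  refine e4.trans ?_
  have hlt0 : s0 < 0 := lt_of_le_of_lt hs hs2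
  have cθ : ∀ {f : ℝ → ℝ → ℝ}, ContinuousOn (fun p : ℝ × ℝ => f p.1 p.2) {p | p.1 < 0} →
      ∀ t, t < 0 → Continuous fun θ => f t θ := by
    intro f hf t ht
    rw [← continuousOn_univ]
    exact hf.comp (f := fun θ : ℝ => (t, θ)) (by fun_prop) (fun θ _ => ht)
  have i1 : IntervalIntegrable (fun θ => v s2 θ) volume 0 (2 * π) :=
    (cθ cv s2 hs2).intervalIntegrable _ _
  have cn : Continuous fun θ : ℝ => ‖G1 (s0 + θ * Complex.I)‖ := by
    rw [← continuousOn_univ]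
    exact (cG1.norm).comp (f := fun θ : ℝ => (s0, θ)) (by fun_prop) (fun θ _ => hlt0)
  have i2 : IntervalIntegrable (fun θ : ℝ => (s2 - s0) * ‖G1 (s0 + θ * Complex.I)‖)
      volume 0 (2 * π) := (cn.intervalIntegrable _ _).const_mul _
  rw [← intervalIntegral.integral_const_mul, ← intervalIntegral.integral_add i1 i2]
  apply intervalIntegral.integral_mono_on (by positivity)
  · apply Continuous.intervalIntegrable
    exact (cθ cv s2 hs2).sub ((cθ cv s0 hlt0).add (continuous_const.mul (cθ cvs s0 hlt0)))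
  · exact i1.add i2
  · intro θ _
    have a1 : |vs s0 θ| ≤ ‖G1 (s0 + θ * Complex.I)‖ := by
      simp only [hvs]
      rw [abs_div, abs_of_pos (hvpos s0 θ), div_le_iff₀ (hvpos s0 θ)]
      apply abs_le_of_sq_le_sq _ (by have := hvpos s0 θ; positivity)
      rw [mul_pow, hvsq, hnsq]
      change _ ≤ ((G1 (z s0 θ)).re ^ 2 + (G1 (z s0 θ)).im ^ 2) *
        (ρ ^ 2 + ((G (z s0 θ)).re ^ 2 + (G (z s0 θ)).im ^ 2))
      nlinarith [sq_nonneg ((G (z s0 θ)).re * (G1 (z s0 θ)).im -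
        (G (z s0 θ)).im * (G1 (z s0 θ)).re), mul_nonneg (sq_nonneg ρ) (add_nonneg
          (sq_nonneg (G1 (z s0 θ)).re) (sq_nonneg (G1 (z s0 θ)).im))]
    have a2 := (abs_le.1 a1).1
    have a3 := hvpos s0 θ
    have a4 : (s2 - s0) * (-vs s0 θ) ≤ (s2 - s0) * ‖G1 (s0 + θ * Complex.I)‖ :=
      mul_le_mul_of_nonneg_left (by linarith) (by linarith)
    linarith

end Pool.Agent.Had83
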