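import Pool.Agent.Had83.Step

/-!
Energy inequality for the series, in `ℝ≥0∞`.
-/

open MeasureTheory Filter Topology Set Metric
open scoped ENNReal Real

namespace Pool.Agent.Had83

variable {c : ℕ → ℂ} {n : ℕ → ℕ} {w : ℂ}

/-- continuity along vertical segments -/
lemma Good.cont_pair (h : Good c n) :
    ContinuousOn (fun p : ℝ × ℝ => Ser c n ((p.1 : ℝ) + (p.2 : ℝ) * Complex.I))
      {p : ℝ × ℝ | p.1 < 0} := by
  apply h.continuousOn.comp (by fun_prop : Continuous fun p : ℝ × ℝ =>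
    (((p.1 : ℝ) : ℂ) + (p.2 : ℝ) * Complex.I)).continuousOn
  intro p hp
  have : (((p.1 : ℝ) : ℂ) + (p.2 : ℝ) * Complex.I).re = p.1 := by simp
  change (((p.1 : ℝ) : ℂ) + (p.2 : ℝ) * Complex.I).re < 0
  rw [this]
  exact hp

lemma Good.cont_line (h : Good c n) {t : ℝ} (ht : t < 0) :
    Continuous (fun θ : ℝ => Ser c n ((t : ℝ) + (θ : ℝ) * Complex.I)) := by
  have h1 := h.cont_pair
  have h2 : Continuous (fun θ : ℝ => (t, θ)) := by fun_prop
  have h3 : ContinuousOn (fun θ : ℝ => Ser c n ((t : ℝ) + (θ : ℝ) * Complex.I)) univ :=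
    h1.comp (f := fun θ : ℝ => (t, θ)) h2.continuousOn (fun θ _ => ht)
  exact continuousOn_univ.1 h3

theorem energyE (h : Good c n) (w : ℂ) {ρ s0 s2 : ℝ} (hρ : 0 < ρ) (hs : s0 ≤ s2) (hs2 : s2 < 0) :
    ∫⁻ t in Ioc s0 s2, ENNReal.ofReal (s2 - t) * eK c n w ρ t ≤ ENNReal.ofReal (
      (∫ θ in (0 : ℝ)..(2 * π), Real.sqrt (ρ ^ 2 + ‖Ser c n (s2 + θ * Complex.I) - w‖ ^ 2)) +
        (s2 - s0) * ∫ θ in (0 : ℝ)..(2 * π), ‖Ser (Dc c n) n (s0 + θ * Complex.I)‖) := by
  have hpi := Real.pi_pos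
  have h2pi : (0 : ℝ) ≤ 2 * π := by positivity
  set F : ℝ × ℝ → ℝ := fun p => ‖Ser (Dc c n) n ((p.1 : ℝ) + (p.2 : ℝ) * Complex.I)‖ ^ 2 /
    Real.sqrt (ρ ^ 2 + ‖Ser c n ((p.1 : ℝ) + (p.2 : ℝ) * Complex.I) - w‖ ^ 2) with hF
  have hFc : ContinuousOn F {p : ℝ × ℝ | p.1 < 0} := by
    apply ContinuousOn.div
    · exact (h.Dc.cont_pair.norm).pow 2
    · exact (continuousOn_const.add (((h.cont_pair.sub continuousOn_const).norm).pow 2)).sqrt
    · intro p _
      exact (Real.sqrt_pos.2 (by positivity)).ne'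
  have hF0 : ∀ p, 0 ≤ F p := by
    intro p
    simp only [hF]
    positivity
  have hsub : Icc s0 s2 ×ˢ Icc 0 (2 * π) ⊆ {p : ℝ × ℝ | p.1 < 0} := by
    rintro p ⟨hp, -⟩
    exact lt_of_le_of_lt hp.2 hs2
  have heK : ∀ t ∈ Ioc s0 s2, eK c n w ρ t = ENNReal.ofReal (∫ θ in (0 : ℝ)..(2 * π), F (t, θ)) := by
    intro t ht
    have ht0 : t < 0 := lt_of_le_of_lt ht.2 hs2
    have hc : Continuous fun θ : ℝ => F (t, θ) := by
      have h2 : Continuous (fun θ : ℝ => (t, θ)) := by fun_prop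
      have h3 : ContinuousOn (fun θ : ℝ => F (t, θ)) univ :=
        hFc.comp (f := fun θ : ℝ => (t, θ)) h2.continuousOn (fun θ _ => ht0)
      exact continuousOn_univ.1 h3
    rw [intervalIntegral.integral_of_le h2pi, ofReal_integral_eq_lintegral_ofReal
      (hc.integrableOn_Ioc) (Eventually.of_forall fun θ => hF0 _)]
    unfold eK
    apply lintegral_congr
    intro θ
    unfold Kap
    have hre : (((t : ℝ) : ℂ) + (θ : ℝ) * Complex.I).re < 0 := by simpa using ht0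
    rw [SerM_eq hre, SerM_eq hre]
  set F2 : ℝ × ℝ → ℝ := fun p => (s2 - p.1) * F p with hF2
  have hF2c : ContinuousOn F2 (Icc s0 s2 ×ˢ Icc 0 (2 * π)) := by
    apply ContinuousOn.mul
    · fun_prop
    · exact hFc.mono hsub
  have hint : IntegrableOn (fun t => (s2 - t) * ∫ θ in (0 : ℝ)..(2 * π), F (t, θ)) (Ioc s0 s2) := by
    have h1 := cont_integrable hF2c
    unfold IntegrableOn at h1
    rw [Measure.volume_eq_prod, ← Measure.prod_restrict] at h1
    have h2 := h1.integral_prod_left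
    refine h2.congr (Eventually.of_forall fun t => ?_)
    simp only [hF2]
    rw [intervalIntegral.integral_of_le h2pi, integral_const_mul]
  have hlhs : ∫⁻ t in Ioc s0 s2, ENNReal.ofReal (s2 - t) * eK c n w ρ t =
      ENNReal.ofReal (∫ t in s0..s2, (s2 - t) * ∫ θ in (0 : ℝ)..(2 * π), F (t, θ)) := by
    rw [intervalIntegral.integral_of_le hs, ofReal_integral_eq_lintegral_ofReal hint]
    · apply setLIntegral_congr_fun measurableSet_Ioc
      intro t ht
      simp only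
      rw [heK t ht, ENNReal.ofReal_mul (by linarith [ht.2])]
    · filter_upwards [ae_restrict_mem measurableSet_Ioc] with t ht
      apply mul_nonneg (by linarith [ht.2])
      exact intervalIntegral.integral_nonneg h2pi (fun θ _ => hF0 _)
  rw [hlhs]
  apply ENNReal.ofReal_le_ofReal
  exact energy (G := fun ζ => Ser c n ζ - w) (G1 := Ser (Dc c n) n)
    (G2 := Ser (Dc (Dc c n) n) n) (G3 := Ser (Dc (Dc (Dc c n) n) n) n)
    (fun ζ hζ => (h.hasDerivAt hζ).sub_const w) (fun ζ hζ => h.Dc.hasDerivAt hζ)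
    (fun ζ hζ => h.Dc.Dc.hasDerivAt hζ) (fun ζ => by rw [Ser_per]) (fun ζ => Ser_per ζ) hρ hs hs2

end Pool.Agent.Had83
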