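import Pool.Agent.Had83.Bounded

/-!
Unbounded coefficients, and the theorem.
-/

open MeasureTheory Filter Topology Set Metric
open scoped ENNReal Real

namespace Pool.Agent.Had83

variable {c : ℕ → ℂ} {n : ℕ → ℕ} {q : ℝ}

lemma Ser_shift (s : ℝ) (ζ : ℂ) :
    Ser (fun k => c k * Real.exp (n k * s)) n ζ = Ser c n (ζ + s) := by
  unfold Ser
  apply tsum_congr
  intro k
  rw [mul_add, Complex.exp_add]
  push_cast
  ring

lemma mPsi_shift {s t : ℝ} (hs : s < 0) (ht : t < 0) (w : ℂ) :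
    mPsi (fun k => c k * Real.exp (n k * s)) n w t = mPsi c n w (t + s) := by
  unfold mPsi
  apply lintegral_congr
  intro θ
  unfold Psi
  rw [SerM_eq, SerM_eq, Ser_shift]
  · have e : ((t : ℝ) : ℂ) + (θ : ℝ) * Complex.I + ((s : ℝ) : ℂ) =
        ((t + s : ℝ) : ℂ) + (θ : ℝ) * Complex.I := by
      push_cast
      ring
    rw [e]
  · simpa using by linarith
  · simpa using ht

/-- **unbounded coefficients** -/
theorem unbounded_case (hq : 1 < q) (hn : StrictMono n)
    (hr : ∀ k, q * (n k : ℝ) ≤ (n (k + 1) : ℝ)) (h : Good c n) (w : ℂ)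
    (hunb : ∀ A : ℝ, ∃ k, A < ‖c k‖)
    (hM : ∀ M : ℝ, ∃ s < 0, ∀ t : ℝ, s < t → t < 0 → ENNReal.ofReal M ≤ mPsi c n w t) : False := by
  obtain ⟨J, B, C, hB, hC, hstep⟩ := step_large hq
  obtain ⟨sM, hsM0, hsM⟩ := hM (C + 1)
  obtain ⟨T', hT'⟩ := exists_nat_gt (2 * (B + 1) / (-sM))
  set T : ℕ := max J T' with hT
  set m0 : ℝ := ∑ j ∈ Finset.range (T + 1), ‖c j‖ with hm0
  have hm0n : 0 ≤ m0 := Finset.sum_nonneg fun _ _ => norm_nonneg _
  obtain ⟨k0, hk0⟩ := hunb (2 * (m0 + 1))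
  set δ : ℝ := min (-sM / 4) (1 / (2 * ((n k0 : ℝ) + 1))) with hδ
  have hδ0 : 0 < δ := lt_min (by linarith) (by positivity)
  have hδ1 : δ ≤ -sM / 4 := min_le_left _ _
  have hδ2 : δ ≤ 1 / (2 * ((n k0 : ℝ) + 1)) := min_le_right _ _
  set s : ℝ := -δ with hs
  have hs0 : s < 0 := by linarith
  set c' : ℕ → ℂ := fun k => c k * Real.exp (n k * s) with hc'
  have hnorm : ∀ k, ‖c' k‖ = ‖c k‖ * Real.exp (n k * s) := by
    intro k
    simp only [hc']
    rw [norm_mul, Complex.norm_real, Real.norm_of_nonneg (Real.exp_pos _).le]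
  have hle : ∀ k, ‖c' k‖ ≤ ‖c k‖ := by
    intro k
    rw [hnorm]
    have h1 : Real.exp (n k * s) ≤ 1 := by
      rw [Real.exp_le_one_iff]
      exact mul_nonpos_of_nonneg_of_nonpos (Nat.cast_nonneg _) hs0.le
    calc ‖c k‖ * Real.exp (n k * s) ≤ ‖c k‖ * 1 := by gcongr
      _ = _ := mul_one _
  have hbig : m0 + 1 < ‖c' k0‖ := by
    rw [hnorm]
    have h1 := Real.add_one_le_exp ((n k0 : ℝ) * s)
    have h2 : (n k0 : ℝ) * δ ≤ 1 / 2 := by
      have h3 : (0 : ℝ) ≤ n k0 := Nat.cast_nonneg _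
      calc (n k0 : ℝ) * δ ≤ ((n k0 : ℝ) + 1) * (1 / (2 * ((n k0 : ℝ) + 1))) := by gcongr; linarith
        _ = 1 / 2 := by field_simp
    have h4 : 1 / 2 ≤ Real.exp (n k0 * s) := by
      rw [hs] at h1 ⊢
      linarith
    nlinarith
  have hgood' : Good c' n := by
    intro η hη
    apply Summable.of_nonneg_of_le (fun _ => by positivity) _ (h η hη)
    intro k
    exact mul_le_mul_of_nonneg_right (hle k) (Real.exp_pos _).le
  have htend : Tendsto (fun k => ‖c' k‖) atTop (𝓝 0) := by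
    have h1 := (h δ hδ0).tendsto_atTop_zero
    refine h1.congr fun k => ?_
    rw [hnorm, hs]
    congr 2
    ring
  obtain ⟨T2, hT2⟩ := (htend.eventually_lt_const (show (0 : ℝ) < ‖c' k0‖ by linarith)).exists_forall_of_atTop
  obtain ⟨K, hK, hKmax⟩ := Finset.exists_max_image (Finset.range (max T2 k0 + 1))
    (fun j => ‖c' j‖) ⟨0, Finset.mem_range.2 (by omega)⟩
  have hmax : ∀ j, ‖c' j‖ ≤ ‖c' K‖ := by
    intro j
    by_cases hj : j ≤ max T2 k0
    · exact hKmax j (Finset.mem_range.2 (by omega))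
    · rw [not_le] at hj
      exact (hT2 j (by omega)).le.trans (hKmax k0 (Finset.mem_range.2 (by omega)))
  have hKbig : m0 + 1 < ‖c' K‖ := lt_of_lt_of_le hbig (hmax k0)
  have hKT : T < K := by
    by_contra hcon
    rw [not_lt] at hcon
    have h1 : ‖c K‖ ≤ m0 :=
      Finset.single_le_sum (f := fun j => ‖c j‖) (fun _ _ => norm_nonneg _)
        (Finset.mem_range.2 (by omega))
    have := hle K
    linarith
  have hnK : 0 < n K := n_pos hn (by omega)
  have hnKr : (0 : ℝ) < n K := by exact_mod_cast hnK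
  have hdom : DomN c' n K := by
    refine ⟨hnK, ?_, ?_, ?_⟩
    · intro h0
      rw [h0, norm_zero] at hKbig
      linarith
    · intro j hj
      have h1 : (n j : ℝ) ≤ n K := by exact_mod_cast (hn hj).le
      have h2 := pow_le_pow_left₀ (norm_nonneg _) (hmax j) 2
      exact mul_le_mul h2 h1 (Nat.cast_nonneg _) (by positivity)
    · intro j hj
      have h1 : (n K : ℝ) ≤ n j := by exact_mod_cast (hn hj).le
      have h2 := pow_le_pow_left₀ (norm_nonneg _) (hmax j) 2
      exact mul_le_mul h2 h1 (Nat.cast_nonneg _) (by positivity)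
  have hfin := hstep c' n K w (C + 1) hgood' hr hdom (by omega) (by linarith) (by
    intro t ht1 ht2
    have ht0 : t < 0 := by
      refine lt_of_le_of_lt ht2 ?_
      apply div_neg_of_neg_of_pos _ hnKr
      linarith
    rw [mPsi_shift hs0 ht0]
    apply hsM
    · have h1 : (T' : ℝ) ≤ n K := by
        have : T' ≤ K := by omega
        exact_mod_cast this.trans hn.le_apply
      have h2 : (B + 1) / n K < -sM / 2 := by
        rw [div_lt_iff₀ (by linarith)] at hT'
        rw [div_lt_iff₀ hnKr]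
        have : (T' : ℝ) * (-sM) ≤ n K * (-sM) := mul_le_mul_of_nonneg_right h1 (by linarith)
        linarith
      rw [neg_div] at ht1
      linarith
    · linarith)
  linarith

/-- the theorem in exponential form -/
theorem expForm (hq : 1 < q) (hn : StrictMono n)
    (hr : ∀ k, q * (n k : ℝ) ≤ (n (k + 1) : ℝ)) (h : Good c n) (w : ℂ)
    (hunb : ∀ S : ℝ, ∃ t : ℝ, t < 0 ∧ S < (2 * π)⁻¹ * ∫ θ in (0 : ℝ)..(2 * π),
      max 0 (Real.log ‖Ser c n (t + θ * Complex.I)‖))
    (hM : ∀ M : ℝ, ∃ s < 0, ∀ t : ℝ, s < t → t < 0 → ENNReal.ofReal M ≤ mPsi c n w t) : False := by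
  by_cases hb : ∃ A, ∀ k, ‖c k‖ ≤ A
  · obtain ⟨A, hA⟩ := hb
    obtain ⟨S, hS⟩ := bounded_case hq hn hr h w (A := max A 1) (by positivity)
      (fun k => (hA k).trans (le_max_left _ _)) hM
    obtain ⟨t, ht, hlt⟩ := hunb S
    have := char_le hn h ht (S := S) (by
      intro m
      refine le_trans ?_ (hS m)
      apply Finset.sum_le_sum
      intro k _
      have h1 : Real.exp (2 * n k * t) ≤ 1 := by
        rw [Real.exp_le_one_iff]
        exact mul_nonpos_of_nonneg_of_nonpos (by positivity) ht.le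
      calc ‖c k‖ ^ 2 * Real.exp (2 * n k * t) ≤ ‖c k‖ ^ 2 * 1 := by gcongr
        _ = _ := mul_one _)
    linarith
  · push Not at hb
    exact unbounded_case hq hn hr h w hb hM

lemma ser_circle (a : ℕ → ℂ) (n : ℕ → ℕ) (t θ : ℝ) :
    ∑' k, a k * (circleMap 0 (Real.exp t) θ) ^ (n k) = Ser a n (t + θ * Complex.I) := by
  unfold Ser
  apply tsum_congr
  intro k
  congr 1
  rw [circleMap_zero, Complex.ofReal_exp, ← Complex.exp_add, ← Complex.exp_nat_mul]

/-- **Main theorem.** -/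
theorem main (a : ℕ → ℂ) (n : ℕ → ℕ) (q : ℝ) (hq : 1 < q) (hn : StrictMono n)
    (hr : ∀ k, q * (n k : ℝ) ≤ (n (k + 1) : ℝ))
    (hs : ∀ z : ℂ, ‖z‖ < 1 → Summable (fun k => a k * z ^ (n k)))
    (hT : Filter.Tendsto
        (fun r : ℝ => (2 * Real.pi)⁻¹ * ∫ θ in (0:ℝ)..(2 * Real.pi),
          max 0 (Real.log ‖∑' k, a k * (circleMap 0 r θ) ^ (n k)‖))
        (nhdsWithin 1 (Set.Iio 1)) Filter.atTop)
    (w : ℂ) (ε : ℝ) (hε : 0 < ε) (r₀ : ℝ) (hr₀ : r₀ < 1) :
    ∃ r : ℝ, r₀ < r ∧ r < 1 ∧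
      (2 * Real.pi)⁻¹ * ∫ θ in (0:ℝ)..(2 * Real.pi),
          max 0 (Real.log (‖(∑' k, a k * (circleMap 0 r θ) ^ (n k)) - w‖⁻¹))
        ≤ ε * ((2 * Real.pi)⁻¹ * ∫ θ in (0:ℝ)..(2 * Real.pi),
          max 0 (Real.log ‖∑' k, a k * (circleMap 0 r θ) ^ (n k)‖)) := by
  have hpi := Real.pi_pos
  by_contra hcon
  push Not at hcon
  have hgood : Good a n := by
    intro η hη
    have h1 := (hs ((Real.exp (-η) : ℝ) : ℂ) (by
      rw [Complex.norm_real, Real.norm_of_nonneg (Real.exp_pos _).le, Real.exp_lt_one_iff]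
      linarith)).norm
    refine h1.congr fun k => ?_
    rw [norm_mul, norm_pow, Complex.norm_real, Real.norm_of_nonneg (Real.exp_pos _).le,
      ← Real.exp_nat_mul]
    congr 2
    ring
  -- eventually large
  have hev : ∀ S : ℝ, ∃ s < 0, ∀ t : ℝ, s < t → t < 0 →
      S < (2 * π)⁻¹ * ∫ θ in (0 : ℝ)..(2 * π),
        max 0 (Real.log ‖Ser a n (t + θ * Complex.I)‖) := by
    intro S
    have h1 := hT.eventually (eventually_gt_atTop S)
    rw [eventually_nhdsWithin_iff, Metric.eventually_nhds_iff] at h1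
    obtain ⟨δ, hδ, h2⟩ := h1
    refine ⟨-δ, by linarith, fun t ht1 ht2 => ?_⟩
    have h3 : Real.exp t < 1 := by
      rw [Real.exp_lt_one_iff]
      exact ht2
    have h4 := h2 (y := Real.exp t) (by
      rw [Real.dist_eq, abs_sub_comm, abs_of_pos (by linarith)]
      have := Real.add_one_le_exp t
      linarith) h3
    simp only [ser_circle] at h4
    exact h4
  apply expForm hq hn hr hgood w
  · intro S
    obtain ⟨s, hs0, h1⟩ := hev S
    exact ⟨s / 2, by linarith, h1 (s / 2) (by linarith) (by linarith)⟩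
  · intro M
    obtain ⟨s, hs0, h1⟩ := hev (|M| / ε)
    set s' : ℝ := max s (r₀ - 1) with hs'
    -- need `exp t > r₀`
    refine ⟨s', max_lt hs0 (by linarith), fun t ht1 ht2 => ?_⟩
    have h2 := h1 t (lt_of_le_of_lt (le_max_left _ _) ht1) ht2
    have h3 : Real.exp t < 1 := by
      rw [Real.exp_lt_one_iff]
      exact ht2
    have h4 : r₀ < Real.exp t := by
      have h5 := Real.add_one_le_exp t
      have h6 : r₀ - 1 < t := lt_of_le_of_lt (le_max_right _ _) ht1
      linarith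
    have h7 := hcon (Real.exp t) h4 h3
    simp only [ser_circle] at h7
    rw [div_lt_iff₀ hε] at h2
    set T := (2 * π)⁻¹ * ∫ θ in (0 : ℝ)..(2 * π),
        max 0 (Real.log ‖Ser a n (t + θ * Complex.I)‖) with hTdef
    set I := ∫ θ in (0 : ℝ)..(2 * π),
        max 0 (Real.log (‖Ser a n (t + θ * Complex.I) - w‖⁻¹)) with hIdef
    have h8 : |M| < (2 * π)⁻¹ * I := by linarith
    rw [inv_mul_eq_div, lt_div_iff₀ (by positivity)] at h8
    have h9 : M ≤ I := by
      have h10 : |M| * 1 ≤ |M| * (2 * π) := by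
        apply mul_le_mul_of_nonneg_left _ (abs_nonneg _)
        linarith [Real.pi_gt_three]
      linarith [le_abs_self M]
    have h11 : mPsi a n w t = ∫⁻ θ in Ioc 0 (2 * π), ENNReal.ofReal
        (max 0 (Real.log (‖Ser a n (t + θ * Complex.I) - w‖⁻¹))) := by
      unfold mPsi
      apply lintegral_congr
      intro θ
      unfold Psi
      rw [SerM_eq]
      simpa using ht2
    rw [h11]
    refine (ENNReal.ofReal_le_ofReal h9).trans ?_
    rw [hIdef, intervalIntegral.integral_of_le (by positivity)]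
    by_cases hint : IntegrableOn (fun θ : ℝ => max 0
        (Real.log (‖Ser a n (t + θ * Complex.I) - w‖⁻¹))) (Ioc 0 (2 * π))
    · rw [ofReal_integral_eq_lintegral_ofReal hint (Eventually.of_forall fun θ => le_max_left _ _)]
    · rw [integral_undef hint]
      simp

end Pool.Agent.Had83
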