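import Pool.Agent.Had83.Area

/-!
Local estimate of `∫ log⁺ (1/|g|)` by the weighted Dirichlet integral.
-/

open MeasureTheory Filter Topology Set Metric
open scoped ENNReal Real

namespace Pool.Agent.Had83

/-- local hypotheses on an analytic function -/
structure LocHyp (R C1 c1 a : ℝ) (g g' : ℂ → ℂ) : Prop where
  der : ∀ τ ∈ ball (0 : ℂ) (2 * R + 4), HasDerivAt g (g' τ) τ
  b1 : ∀ τ ∈ ball (0 : ℂ) (2 * R + 4), ‖g' τ‖ ≤ C1 * a
  b2 : ∀ τ ∈ ball (0 : ℂ) (2 * R + 4), ∀ σ ∈ ball (0 : ℂ) (2 * R + 4),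
    ‖g' τ - g' σ‖ ≤ C1 * a * ‖τ - σ‖
  low : ∃ τ1 : ℂ, ‖τ1‖ ≤ R - 1 ∧ c1 * a ≤ ‖g' τ1‖

variable {R C1 c1 a : ℝ} {g g' : ℂ → ℂ}

lemma LocHyp.lip (h : LocHyp R C1 c1 a g g') {τ σ : ℂ} (hτ : τ ∈ ball (0 : ℂ) (2 * R + 4))
    (hσ : σ ∈ ball (0 : ℂ) (2 * R + 4)) : ‖g τ - g σ‖ ≤ C1 * a * ‖τ - σ‖ :=
  Convex.norm_image_sub_le_of_norm_hasDerivWithin_le
    (fun x hx => (h.der x hx).hasDerivWithinAt) h.b1 (convex_ball _ _) hσ hτ

lemma LocHyp.c1_le (h : LocHyp R C1 c1 a g g') (hR : 2 ≤ R) (ha : 0 < a) : c1 ≤ C1 := by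
  obtain ⟨τ1, h1, h2⟩ := h.low
  have h3 : τ1 ∈ ball (0 : ℂ) (2 * R + 4) := by
    rw [mem_ball, dist_zero_right]; linarith
  have := h2.trans (h.b1 τ1 h3)
  exact le_of_mul_le_mul_right this ha

/-- the derivative is large on a small disc -/
lemma LocHyp.large (h : LocHyp R C1 c1 a g g') (hR : 2 ≤ R) (ha : 0 < a) (hc1 : 0 < c1) :
    ∃ τ1 : ℂ, ‖τ1‖ ≤ R - 1 ∧ (∀ τ ∈ closedBall τ1 (c1 / (2 * C1)), c1 * a / 2 ≤ ‖g' τ‖) ∧
      ∃ τ2 : ℂ, ‖τ2‖ ≤ R ∧ c1 ^ 2 / (8 * C1) * a ≤ ‖g τ2‖ := by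
  obtain ⟨τ1, h1, h2⟩ := h.low
  have hcC := h.c1_le hR ha
  have hC1 : 0 < C1 := by linarith
  set ε := c1 / (2 * C1) with hε
  have hε0 : 0 < ε := by positivity
  have hε1 : ε ≤ 1 / 2 := by
    rw [hε, div_le_div_iff₀ (by positivity) (by norm_num)]; linarith
  have hmem1 : τ1 ∈ ball (0 : ℂ) (2 * R + 4) := by
    rw [mem_ball, dist_zero_right]; linarith
  have hmem : ∀ τ ∈ closedBall τ1 ε, τ ∈ ball (0 : ℂ) (2 * R + 4) := by
    intro τ hτ
    rw [mem_closedBall, dist_eq_norm] at hτ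
    rw [mem_ball, dist_zero_right]
    calc ‖τ‖ = ‖(τ - τ1) + τ1‖ := by ring_nf
      _ ≤ ‖τ - τ1‖ + ‖τ1‖ := norm_add_le _ _
      _ < 2 * R + 4 := by linarith
  have hCε : C1 * ε = c1 / 2 := by rw [hε]; field_simp
  refine ⟨τ1, h1, ?_, ?_⟩
  · intro τ hτ
    have h3 := h.b2 τ (hmem τ hτ) τ1 hmem1
    rw [mem_closedBall, dist_eq_norm] at hτ
    have h4 : C1 * a * ‖τ - τ1‖ ≤ c1 * a / 2 := by
      calc C1 * a * ‖τ - τ1‖ ≤ C1 * a * ε := by gcongr
        _ = C1 * ε * a := by ring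
        _ = c1 * a / 2 := by rw [hCε]; ring
    have h5 : ‖g' τ1‖ ≤ ‖g' τ‖ + ‖g' τ - g' τ1‖ := by
      calc ‖g' τ1‖ = ‖g' τ - (g' τ - g' τ1)‖ := by ring_nf
        _ ≤ _ := norm_sub_le _ _
    linarith
  · -- values
    have h6 : ‖(g (τ1 + ε) - g' τ1 * (τ1 + ε)) - (g τ1 - g' τ1 * τ1)‖ ≤
        (C1 * a * ε) * ‖(τ1 + ε) - τ1‖ := by
      apply Convex.norm_image_sub_le_of_norm_hasDerivWithin_le
        (f := fun τ => g τ - g' τ1 * τ) (f' := fun τ => g' τ - g' τ1) (s := closedBall τ1 ε)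
      · intro τ hτ
        have h7 : HasDerivAt (fun τ => g τ - g' τ1 * τ) (g' τ - g' τ1 * 1) τ :=
          (h.der τ (hmem τ hτ)).sub ((hasDerivAt_id τ).const_mul (g' τ1))
        rw [mul_one] at h7
        exact h7.hasDerivWithinAt
      · intro τ hτ
        refine (h.b2 τ (hmem τ hτ) τ1 hmem1).trans ?_
        rw [mem_closedBall, dist_eq_norm] at hτ
        gcongr
      · exact convex_closedBall _ _
      · exact mem_closedBall_self hε0.le
      · rw [mem_closedBall, dist_eq_norm, add_sub_cancel_left, Complex.norm_real,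
          Real.norm_of_nonneg hε0.le]
    have h7 : ‖(τ1 + ε) - τ1‖ = ε := by
      rw [add_sub_cancel_left, Complex.norm_real, Real.norm_of_nonneg hε0.le]
    rw [h7] at h6
    have h8 : (g (τ1 + ε) - g' τ1 * (τ1 + ε)) - (g τ1 - g' τ1 * τ1) =
        (g (τ1 + ε) - g τ1) - g' τ1 * ε := by ring
    rw [h8] at h6
    have h9 : ‖g' τ1 * ε‖ = ‖g' τ1‖ * ε := by
      rw [norm_mul, Complex.norm_real, Real.norm_of_nonneg hε0.le]
    have h10 : ‖g' τ1 * ε‖ ≤ ‖g (τ1 + ε) - g τ1‖ + ‖(g (τ1 + ε) - g τ1) - g' τ1 * ε‖ := by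
      calc ‖g' τ1 * ε‖ = ‖(g (τ1 + ε) - g τ1) - ((g (τ1 + ε) - g τ1) - g' τ1 * ε)‖ := by ring_nf
        _ ≤ _ := norm_sub_le _ _
    have h11 : c1 * a * ε ≤ ‖g' τ1‖ * ε := by gcongr
    have h12 : C1 * a * ε * ε = c1 * a * ε / 2 := by
      calc C1 * a * ε * ε = (C1 * ε) * a * ε := by ring
        _ = _ := by rw [hCε]; ring
    have h13 : c1 * a * ε / 2 ≤ ‖g (τ1 + ε) - g τ1‖ := by
      rw [h9] at h10; linarith
    have h14 : c1 * a * ε / 2 = 2 * (c1 ^ 2 / (8 * C1) * a) := by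
      rw [hε]; field_simp; ring
    have h15 : ‖g (τ1 + ε) - g τ1‖ ≤ ‖g (τ1 + ε)‖ + ‖g τ1‖ := norm_sub_le _ _
    by_cases h16 : c1 ^ 2 / (8 * C1) * a ≤ ‖g τ1‖
    · exact ⟨τ1, by linarith, h16⟩
    · refine ⟨τ1 + ε, ?_, by linarith⟩
      calc ‖τ1 + ε‖ ≤ ‖τ1‖ + ‖(ε : ℂ)‖ := norm_add_le _ _
        _ = ‖τ1‖ + ε := by rw [Complex.norm_real, Real.norm_of_nonneg hε0.le]
        _ ≤ R := by linarith

/-- integrability bound when `g 0` is not large -/
lemma LocHyp.area (h : LocHyp R C1 c1 a g g') (hR : 2 ≤ R) (ha : 0 < a) (hc1 : 0 < c1)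
    (h0 : ‖g 0‖ ≤ (2 * C1 * R + 2) * a) :
    ∫⁻ τ in closedBall (0 : ℂ) 1, ENNReal.ofReal (max 0 (Real.log (‖g τ‖ / a)⁻¹)) ≤
      ENNReal.ofReal (2 * π * (R + 2) ^ 2 * (Real.log (4 * C1 * R + 4 * C1 + 2) -
        Real.log (c1 ^ 2 / (8 * C1)))) := by
  obtain ⟨τ1, -, -, τ2, h2, h3⟩ := h.large hR ha hc1
  have hcC := h.c1_le hR ha
  have hC1 : 0 < C1 := by linarith
  have hnorm : ∀ τ, ‖g τ / a‖ = ‖g τ‖ / a := by
    intro τ
    rw [norm_div, Complex.norm_real, Real.norm_of_nonneg ha.le]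
  have hsub : closedBall τ2 (R + 2) ⊆ ball (0 : ℂ) (2 * R + 4) := by
    intro τ hτ
    rw [mem_closedBall, dist_eq_norm] at hτ
    rw [mem_ball, dist_zero_right]
    calc ‖τ‖ = ‖(τ - τ2) + τ2‖ := by ring_nf
      _ ≤ ‖τ - τ2‖ + ‖τ2‖ := norm_add_le _ _
      _ < 2 * R + 4 := by linarith
  have han : AnalyticOnNhd ℂ (fun τ => g τ / a) (closedBall τ2 (R + 2)) := by
    have h4 : DifferentiableOn ℂ (fun τ => g τ / a) (ball (0 : ℂ) (2 * R + 4)) := fun τ hτ =>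
      ((h.der τ hτ).div_const (a : ℂ)).differentiableAt.differentiableWithinAt
    exact (h4.analyticOnNhd isOpen_ball).mono hsub
  have hzero : (0 : ℂ) ∈ ball (0 : ℂ) (2 * R + 4) := by
    rw [mem_ball, dist_self]; linarith
  have hbound : ∀ z ∈ closedBall τ2 (R + 2), ‖g z / a‖ ≤ 4 * C1 * R + 4 * C1 + 2 := by
    intro z hz
    have h5 := h.lip (hsub hz) hzero
    rw [sub_zero] at h5
    have h6 : ‖z‖ ≤ 2 * R + 2 := by
      rw [mem_closedBall, dist_eq_norm] at hz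
      calc ‖z‖ = ‖(z - τ2) + τ2‖ := by ring_nf
        _ ≤ ‖z - τ2‖ + ‖τ2‖ := norm_add_le _ _
        _ ≤ 2 * R + 2 := by linarith
    have h7 : ‖g z‖ ≤ ‖g z - g 0‖ + ‖g 0‖ := by
      calc ‖g z‖ = ‖(g z - g 0) + g 0‖ := by ring_nf
        _ ≤ _ := norm_add_le _ _
    rw [hnorm, div_le_iff₀ ha]
    have h8 : C1 * a * ‖z‖ ≤ C1 * a * (2 * R + 2) := by gcongr
    nlinarith
  have hM : 1 ≤ 4 * C1 * R + 4 * C1 + 2 := by nlinarith
  have hA := area_log (h := fun τ => g τ / a) (c := τ2) (R := R + 2)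
    (M := 4 * C1 * R + 4 * C1 + 2) (m := c1 ^ 2 / (8 * C1)) (by linarith) han (by positivity)
    (by rw [hnorm, le_div_iff₀ ha]; exact h3) hM hbound
  refine le_trans ?_ hA
  simp only [hnorm]
  apply lintegral_mono_set
  intro τ hτ
  rw [mem_closedBall, dist_zero_right] at hτ
  rw [mem_ball, dist_eq_norm]
  calc ‖τ - τ2‖ ≤ ‖τ‖ + ‖τ2‖ := norm_sub_le _ _
    _ < R + 2 := by linarith

lemma vol_closedBall (c : ℂ) {r : ℝ} (hr : 0 ≤ r) :
    volume (closedBall c r) = ENNReal.ofReal (π * r ^ 2) := by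
  rw [Complex.volume_closedBall, ← ENNReal.ofReal_coe_nnreal, NNReal.coe_real_pi,
    ← ENNReal.ofReal_pow hr, ← ENNReal.ofReal_mul (by positivity)]
  ring_nf

/-- local estimate, large coefficient -/
theorem local_large (hR : 2 ≤ R) (hc1 : 0 < c1) (hC1 : 0 < C1) : ∃ C2 : ℝ, 0 < C2 ∧
    ∀ (a : ℝ) (g g' : ℂ → ℂ), 1 ≤ a → LocHyp R C1 c1 a g g' →
      ∫⁻ τ in closedBall (0 : ℂ) 1, ENNReal.ofReal (max 0 (Real.log ‖g τ‖⁻¹)) ≤
        ENNReal.ofReal C2 := by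
  set C9 := 2 * π * (R + 2) ^ 2 * (Real.log (4 * C1 * R + 4 * C1 + 2) -
        Real.log (c1 ^ 2 / (8 * C1))) with hC9
  refine ⟨|C9| + 1, by positivity, ?_⟩
  intro a g g' ha1 h
  have ha : 0 < a := by linarith
  have hzero : (0 : ℂ) ∈ ball (0 : ℂ) (2 * R + 4) := by
    rw [mem_ball, dist_self]; linarith
  by_cases h0 : ‖g 0‖ ≤ (2 * C1 * R + 2) * a
  · refine le_trans ?_ ((h.area hR ha hc1 h0).trans (ENNReal.ofReal_le_ofReal
      ((le_abs_self _).trans (by linarith))))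
    apply lintegral_mono
    intro τ
    apply ENNReal.ofReal_le_ofReal
    apply max_le_max le_rfl
    rcases (norm_nonneg (g τ)).eq_or_lt with h1 | h1
    · rw [← h1]; simp
    · apply Real.log_le_log (by positivity)
      rw [inv_div]
      rw [← one_div]
      gcongr
  · rw [not_le] at h0
    have : ∀ τ ∈ closedBall (0 : ℂ) 1, ENNReal.ofReal (max 0 (Real.log ‖g τ‖⁻¹)) = 0 := by
      intro τ hτ
      rw [mem_closedBall, dist_zero_right] at hτ
      have hτ' : τ ∈ ball (0 : ℂ) (2 * R + 4) := by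
        rw [mem_ball, dist_zero_right]; linarith
      have h1 := h.lip hτ' hzero
      rw [sub_zero] at h1
      have h2 : ‖g 0‖ ≤ ‖g τ‖ + ‖g τ - g 0‖ := by
        calc ‖g 0‖ = ‖g τ - (g τ - g 0)‖ := by ring_nf
          _ ≤ _ := norm_sub_le _ _
      have h3 : C1 * a * ‖τ‖ ≤ C1 * a * 1 := by gcongr
      have h4 : 1 ≤ ‖g τ‖ := by nlinarith [mul_pos hC1 ha]
      rw [ENNReal.ofReal_eq_zero]
      apply max_le le_rfl
      rw [Real.log_inv]
      have := Real.log_nonneg h4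
      linarith
    rw [setLIntegral_congr_fun measurableSet_closedBall this]
    simp

/-- local estimate, bounded coefficient -/
theorem local_small (hR : 2 ≤ R) (hc1 : 0 < c1) (hC1 : 0 < C1) (A : ℝ) (hA : 0 < A) :
    ∃ C2 : ℝ, 0 < C2 ∧
    ∀ (a ρ : ℝ) (g g' : ℂ → ℂ), 0 < a → a ≤ A → 0 < ρ → ρ ≤ a → LocHyp R C1 c1 a g g' →
      ∫⁻ τ in closedBall (0 : ℂ) 1, ENNReal.ofReal (max 0 (Real.log ‖g τ‖⁻¹)) ≤
        ENNReal.ofReal (C2 / a ^ 2) * ∫⁻ τ in closedBall (0 : ℂ) R,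
          ENNReal.ofReal (‖g' τ‖ ^ 2 / Real.sqrt (ρ ^ 2 + ‖g τ‖ ^ 2)) := by
  have hpi := Real.pi_pos
  set C9 := |2 * π * (R + 2) ^ 2 * (Real.log (4 * C1 * R + 4 * C1 + 2) -
        Real.log (c1 ^ 2 / (8 * C1)))| with hC9
  have hC9n : 0 ≤ C9 := abs_nonneg _
  set C8 := 4 * C1 * R + 4 * C1 + 2 with hC8
  have hC8p : 0 < C8 := by positivity
  set ε := c1 / (2 * C1) with hε
  have hε0 : 0 < ε := by positivity
  set k1 := c1 ^ 2 * π * ε ^ 2 / (4 * (1 + C8)) with hk1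
  have hk1p : 0 < k1 := by positivity
  set C2 := (C9 * A + π) / k1 + 16 / (c1 ^ 2 * ε ^ 2) with hC2
  have hC2p : 0 < C2 := by positivity
  refine ⟨C2, hC2p, ?_⟩
  intro a ρ g g' ha haA hρ hρa h
  have hzero : (0 : ℂ) ∈ ball (0 : ℂ) (2 * R + 4) := by
    rw [mem_ball, dist_self]; linarith
  have hcC := h.c1_le hR ha
  have hε1 : ε ≤ 1 / 2 := by
    rw [hε, div_le_div_iff₀ (by positivity) (by norm_num)]; linarith
  obtain ⟨τ1, ht1, hlarge, -⟩ := h.large hR ha hc1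
  have hsubR : closedBall τ1 ε ⊆ closedBall (0 : ℂ) R := by
    intro τ hτ
    rw [mem_closedBall, dist_eq_norm] at hτ
    rw [mem_closedBall, dist_zero_right]
    calc ‖τ‖ = ‖(τ - τ1) + τ1‖ := by ring_nf
      _ ≤ ‖τ - τ1‖ + ‖τ1‖ := norm_add_le _ _
      _ ≤ R := by linarith
  have hmemR : ∀ τ ∈ closedBall (0 : ℂ) R, τ ∈ ball (0 : ℂ) (2 * R + 4) := by
    intro τ hτ
    rw [mem_closedBall, dist_zero_right] at hτ
    rw [mem_ball, dist_zero_right]; linarith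
  -- lower bound of the right-hand side, given an upper bound `W` for the denominator
  have hlow : ∀ W : ℝ, 0 < W →
      (∀ τ ∈ closedBall τ1 ε, Real.sqrt (ρ ^ 2 + ‖g τ‖ ^ 2) ≤ W) →
      ENNReal.ofReal (C2 / a ^ 2 * ((c1 * a / 2) ^ 2 / W * (π * ε ^ 2))) ≤
        ENNReal.ofReal (C2 / a ^ 2) * ∫⁻ τ in closedBall (0 : ℂ) R,
          ENNReal.ofReal (‖g' τ‖ ^ 2 / Real.sqrt (ρ ^ 2 + ‖g τ‖ ^ 2)) := by
    intro W hW hWb
    rw [ENNReal.ofReal_mul (by positivity)]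
    gcongr
    calc ENNReal.ofReal ((c1 * a / 2) ^ 2 / W * (π * ε ^ 2))
        = ∫⁻ _ in closedBall τ1 ε, ENNReal.ofReal ((c1 * a / 2) ^ 2 / W) := by
          rw [setLIntegral_const, vol_closedBall _ hε0.le, ENNReal.ofReal_mul (by positivity)]
      _ ≤ ∫⁻ τ in closedBall τ1 ε,
          ENNReal.ofReal (‖g' τ‖ ^ 2 / Real.sqrt (ρ ^ 2 + ‖g τ‖ ^ 2)) := by
          apply setLIntegral_mono' measurableSet_closedBall
          intro τ hτ
          apply ENNReal.ofReal_le_ofReal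
          have h1 := hlarge τ hτ
          have h2 := hWb τ hτ
          have h3 : 0 < Real.sqrt (ρ ^ 2 + ‖g τ‖ ^ 2) := Real.sqrt_pos.2 (by positivity)
          gcongr
      _ ≤ _ := lintegral_mono_set hsubR
  by_cases h0 : ‖g 0‖ ≤ (2 * C1 * R + 2) * a
  · -- case II
    have hub : ∀ τ ∈ closedBall τ1 ε, Real.sqrt (ρ ^ 2 + ‖g τ‖ ^ 2) ≤ (1 + C8) * a := by
      intro τ hτ
      have hτR := hsubR hτ
      have h5 := h.lip (hmemR τ hτR) hzero
      rw [sub_zero] at h5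
      rw [mem_closedBall, dist_zero_right] at hτR
      have h7 : ‖g τ‖ ≤ ‖g τ - g 0‖ + ‖g 0‖ := by
        calc ‖g τ‖ = ‖(g τ - g 0) + g 0‖ := by ring_nf
          _ ≤ _ := norm_add_le _ _
      have h8 : C1 * a * ‖τ‖ ≤ C1 * a * R := by gcongr
      have h9 : ‖g τ‖ ≤ C8 * a := by
        rw [hC8]
        nlinarith [mul_pos hC1 ha]
      apply Real.sqrt_le_iff.2
      refine ⟨by positivity, ?_⟩
      have h10 : ρ ^ 2 ≤ a ^ 2 := by gcongr
      have h11 : ‖g τ‖ ^ 2 ≤ (C8 * a) ^ 2 := by gcongr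
      nlinarith [mul_pos hC8p (pow_pos ha 2)]
    refine le_trans ?_ (hlow _ (by positivity) hub)
    have h12 := h.area hR ha hc1 h0
    calc ∫⁻ τ in closedBall (0 : ℂ) 1, ENNReal.ofReal (max 0 (Real.log ‖g τ‖⁻¹))
        ≤ ∫⁻ τ in closedBall (0 : ℂ) 1, (ENNReal.ofReal (max 0 (Real.log (‖g τ‖ / a)⁻¹)) +
            ENNReal.ofReal a⁻¹) := by
          apply lintegral_mono
          intro τ
          simp only
          rw [← ENNReal.ofReal_add (le_max_left _ _) (by positivity)]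
          apply ENNReal.ofReal_le_ofReal
          rcases (norm_nonneg (g τ)).eq_or_lt with h1 | h1
          · rw [← h1]; simp; positivity
          · rw [Real.log_inv, Real.log_inv, Real.log_div h1.ne' ha.ne']
            have h2 : Real.log a⁻¹ ≤ a⁻¹ := (Real.log_le_sub_one_of_pos (by positivity)).trans
              (by linarith)
            rw [Real.log_inv] at h2
            have h3 : 0 ≤ a⁻¹ := by positivity
            have h4 := le_max_left 0 (-(Real.log ‖g τ‖ - Real.log a))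
            have h5 := le_max_right 0 (-(Real.log ‖g τ‖ - Real.log a))
            apply max_le <;> linarith
      _ = (∫⁻ τ in closedBall (0 : ℂ) 1, ENNReal.ofReal (max 0 (Real.log (‖g τ‖ / a)⁻¹))) +
            ENNReal.ofReal a⁻¹ * ENNReal.ofReal π := by
          rw [lintegral_add_right _ measurable_const, setLIntegral_const,
            vol_closedBall _ zero_le_one]
          simp
      _ ≤ ENNReal.ofReal C9 + ENNReal.ofReal a⁻¹ * ENNReal.ofReal π := by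
          gcongr
          exact h12.trans (ENNReal.ofReal_le_ofReal (le_abs_self _))
      _ = ENNReal.ofReal (C9 + a⁻¹ * π) := by
          rw [← ENNReal.ofReal_mul (by positivity), ← ENNReal.ofReal_add hC9n (by positivity)]
      _ ≤ _ := by
          apply ENNReal.ofReal_le_ofReal
          have e1 : C2 / a ^ 2 * ((c1 * a / 2) ^ 2 / ((1 + C8) * a) * (π * ε ^ 2)) =
              C2 * k1 / a := by
            rw [hk1]; field_simp; ring
          rw [e1, le_div_iff₀ ha]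
          have e2 : (C9 * A + π) ≤ C2 * k1 := by
            rw [hC2, add_mul, div_mul_cancel₀ _ hk1p.ne']
            have : 0 ≤ 16 / (c1 ^ 2 * ε ^ 2) * k1 := by positivity
            linarith
          have e3 : (C9 + a⁻¹ * π) * a = C9 * a + π := by field_simp
          rw [e3]
          have : C9 * a ≤ C9 * A := by gcongr
          linarith
  · -- case I
    rw [not_le] at h0
    have hg0 : 0 < ‖g 0‖ := lt_of_le_of_lt (by positivity) h0
    have hCRa : C1 * a * R ≤ ‖g 0‖ / 2 - a := by nlinarith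
    have hgb : ∀ τ ∈ closedBall (0 : ℂ) R, ‖g 0‖ / 2 ≤ ‖g τ‖ ∧ ‖g τ‖ ≤ 3 / 2 * ‖g 0‖ := by
      intro τ hτ
      have h5 := h.lip (hmemR τ hτ) hzero
      rw [sub_zero] at h5
      rw [mem_closedBall, dist_zero_right] at hτ
      have h7 : ‖g τ‖ ≤ ‖g τ - g 0‖ + ‖g 0‖ := by
        calc ‖g τ‖ = ‖(g τ - g 0) + g 0‖ := by ring_nf
          _ ≤ _ := norm_add_le _ _
      have h7' : ‖g 0‖ ≤ ‖g τ‖ + ‖g τ - g 0‖ := by
        calc ‖g 0‖ = ‖g τ - (g τ - g 0)‖ := by ring_nf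
          _ ≤ _ := norm_sub_le _ _
      have h8 : C1 * a * ‖τ‖ ≤ C1 * a * R := by gcongr
      constructor <;> linarith
    have hub : ∀ τ ∈ closedBall τ1 ε, Real.sqrt (ρ ^ 2 + ‖g τ‖ ^ 2) ≤ 2 * ‖g 0‖ := by
      intro τ hτ
      have h1 := hgb τ (hsubR hτ)
      apply Real.sqrt_le_iff.2
      refine ⟨by positivity, ?_⟩
      have h2 : ρ ≤ ‖g 0‖ / 2 := by nlinarith [mul_pos hC1 ha]
      have h3 : ρ ^ 2 ≤ (‖g 0‖ / 2) ^ 2 := by gcongr
      have h4 : ‖g τ‖ ^ 2 ≤ (3 / 2 * ‖g 0‖) ^ 2 := by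
        have := h1.2
        gcongr
      nlinarith
    refine le_trans ?_ (hlow _ (by positivity) hub)
    calc ∫⁻ τ in closedBall (0 : ℂ) 1, ENNReal.ofReal (max 0 (Real.log ‖g τ‖⁻¹))
        ≤ ∫⁻ _ in closedBall (0 : ℂ) 1, ENNReal.ofReal (2 / ‖g 0‖) := by
          apply setLIntegral_mono' measurableSet_closedBall
          intro τ hτ
          apply ENNReal.ofReal_le_ofReal
          have hτR : τ ∈ closedBall (0 : ℂ) R := by
            rw [mem_closedBall, dist_zero_right] at hτ ⊢; linarith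
          have h1 := (hgb τ hτR).1
          have h2 : 0 < ‖g τ‖ := by linarith
          apply max_le (by positivity)
          refine (Real.log_le_sub_one_of_pos (by positivity)).trans ?_
          have h3 : ‖g τ‖⁻¹ ≤ 2 / ‖g 0‖ := by
            rw [← one_div, div_le_div_iff₀ h2 hg0]; linarith
          linarith
      _ = ENNReal.ofReal (2 / ‖g 0‖ * π) := by
          rw [setLIntegral_const, vol_closedBall _ zero_le_one,
            ← ENNReal.ofReal_mul (by positivity)]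
          simp
      _ ≤ _ := by
          apply ENNReal.ofReal_le_ofReal
          have e1 : C2 / a ^ 2 * ((c1 * a / 2) ^ 2 / (2 * ‖g 0‖) * (π * ε ^ 2)) =
              (C2 * (c1 ^ 2 * ε ^ 2)) / 8 / ‖g 0‖ * π := by
            field_simp; ring
          rw [e1]
          have e2 : 16 ≤ C2 * (c1 ^ 2 * ε ^ 2) := by
            rw [hC2, add_mul, div_mul_cancel₀ _ (by positivity)]
            have : 0 ≤ (C9 * A + π) / k1 * (c1 ^ 2 * ε ^ 2) := by positivity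
            linarith
          gcongr
          linarith

end Pool.Agent.Had83
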