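import Mathlib

/-!
Local oscillation of Hadamard lacunary exponential sums near a dominating index.
-/

open Filter Topology

namespace Pool.Agent.Had83

/-- The index `K` dominates. -/
structure Dom (q : ℝ) (x : ℕ → ℝ) (b : ℕ → ℂ) (K : ℕ) (a : ℝ) : Prop where
  x0 : ∀ k, 0 ≤ x k
  xK : x K = 1
  ratio : ∀ k, q * x k ≤ x (k + 1)
  a0 : 0 < a
  bK : ‖b K‖ = a
  low : ∀ k, k < K → ‖b k‖ ^ 2 * x k ≤ a ^ 2
  high : ∀ k, K < k → ‖b k‖ ^ 2 ≤ a ^ 2 * x k

variable {q : ℝ} {x : ℕ → ℝ} {b : ℕ → ℂ} {K : ℕ} {a : ℝ}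

lemma Dom.x_le (h : Dom q x b K a) (hq : 1 < q) : ∀ j, j ≤ K → x (K - j) ≤ (1 / q) ^ j := by
  intro j
  induction j with
  | zero => intro _; simp [h.xK]
  | succ j ih =>
    intro hj
    have h1 := ih (by omega)
    have h2 := h.ratio (K - (j + 1))
    have e : K - (j + 1) + 1 = K - j := by omega
    rw [e] at h2
    have hq0 : 0 < q := by linarith
    rw [pow_succ]
    have : x (K - (j + 1)) ≤ x (K - j) / q := by
      rw [le_div_iff₀ hq0]; linarith
    calc x (K - (j + 1)) ≤ x (K - j) / q := this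
      _ ≤ (1 / q) ^ j / q := by gcongr
      _ = (1 / q) ^ j * (1 / q) := by ring

lemma Dom.x_ge (h : Dom q x b K a) (hq : 1 < q) : ∀ j, q ^ j ≤ x (K + j) := by
  intro j
  induction j with
  | zero => simp [h.xK]
  | succ j ih =>
    have h2 := h.ratio (K + j)
    rw [pow_succ, ← add_assoc]
    have hq0 : 0 < q := by linarith
    nlinarith

lemma Dom.x_le_one (h : Dom q x b K a) (hq : 1 < q) {k : ℕ} (hk : k ≤ K) : x k ≤ 1 := by
  have := h.x_le hq (K - k) (by omega)
  have e : K - (K - k) = k := by omega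
  rw [e] at this
  refine this.trans (pow_le_one₀ (by positivity) ?_)
  rw [div_le_one (by linarith)]
  exact hq.le

lemma Dom.one_le_x (h : Dom q x b K a) (hq : 1 < q) {k : ℕ} (hk : K ≤ k) : 1 ≤ x k := by
  have := h.x_ge hq (k - K)
  have e : K + (k - K) = k := by omega
  rw [e] at this
  exact (one_le_pow₀ hq.le).trans this

/-- decay below -/
lemma Dom.low_bound (h : Dom q x b K a) (hq : 1 < q) {k : ℕ} (hk : k ≤ K) :
    ‖b k‖ * x k ≤ a * (Real.sqrt (1 / q)) ^ (K - k) := by
  have ha := h.a0
  have hs : 0 ≤ Real.sqrt (1 / q) := Real.sqrt_nonneg _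
  apply le_of_sq_le_sq _ (by positivity)
  have h1 : ‖b k‖ ^ 2 * x k ≤ a ^ 2 := by
    rcases Nat.lt_or_ge k K with h2 | h2
    · exact h.low k h2
    · have : k = K := by omega
      subst this
      rw [h.bK, h.xK, mul_one]
  have h2 := h.x_le hq (K - k) (by omega)
  have e : K - (K - k) = k := by omega
  rw [e] at h2
  have h3 : (Real.sqrt (1 / q) ^ (K - k)) ^ 2 = (1 / q) ^ (K - k) := by
    rw [← pow_mul, mul_comm, pow_mul, Real.sq_sqrt (by positivity)]
  rw [mul_pow, mul_pow, h3]
  have h4 := h.x0 k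
  calc ‖b k‖ ^ 2 * x k ^ 2 = (‖b k‖ ^ 2 * x k) * x k := by ring
    _ ≤ a ^ 2 * (1 / q) ^ (K - k) := by gcongr

/-- growth above -/
lemma Dom.high_bound (h : Dom q x b K a) (hq : 1 < q) {k : ℕ} (hk : K ≤ k) :
    ‖b k‖ ≤ a * x k := by
  have ha := h.a0
  have h1 := h.one_le_x hq hk
  apply le_of_sq_le_sq _ (by positivity)
  rcases Nat.lt_or_ge K k with h2 | h2
  · refine (h.high k h2).trans ?_
    rw [mul_pow]
    have : x k ≤ x k ^ 2 := by nlinarith
    nlinarith [sq_nonneg a]
  · have : k = K := by omega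
    subst this
    rw [h.bK, h.xK, mul_one]

/-- sums over a two-sided geometric majorant -/
lemma two_sided {f : ℕ → ℝ} {lam C : ℝ} (hl0 : 0 ≤ lam) (hl1 : lam < 1) (hC : 0 ≤ C) (K : ℕ)
    (hf0 : ∀ k, 0 ≤ f k)
    (hlow : ∀ k, k ≤ K → f k ≤ C * lam ^ (K - k)) (hhigh : ∀ k, K ≤ k → f k ≤ C * lam ^ (k - K)) :
    Summable f ∧ ∑' k, f k ≤ 2 * C / (1 - lam) := by
  have h1 : Summable fun k : ℕ => C * lam ^ k := (summable_geometric_of_lt_one hl0 hl1).mul_left C
  have hs : Summable f := by
    rw [← summable_nat_add_iff K]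
    refine Summable.of_nonneg_of_le (fun k => hf0 _) (fun k => ?_) h1
    have := hhigh (k + K) (by omega)
    rwa [Nat.add_sub_cancel] at this
  refine ⟨hs, ?_⟩
  rw [← hs.sum_add_tsum_nat_add K]
  have h2 : ∑ k ∈ Finset.range K, f k ≤ C / (1 - lam) := by
    calc ∑ k ∈ Finset.range K, f k ≤ ∑ k ∈ Finset.range K, C * lam ^ (K - 1 - k) := by
          apply Finset.sum_le_sum
          intro k hk
          rw [Finset.mem_range] at hk
          refine (hlow k hk.le).trans ?_
          apply mul_le_mul_of_nonneg_left _ hC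
          exact pow_le_pow_of_le_one hl0 hl1.le (by omega)
      _ = ∑ k ∈ Finset.range K, C * lam ^ k := Finset.sum_range_reflect (fun k => C * lam ^ k) K
      _ ≤ ∑' k, C * lam ^ k := h1.sum_le_tsum _ (fun k _ => by positivity)
      _ = C / (1 - lam) := by rw [tsum_mul_left, tsum_geometric_of_lt_one hl0 hl1]; rfl
  have h3 : ∑' k, f (k + K) ≤ C / (1 - lam) := by
    calc ∑' k, f (k + K) ≤ ∑' k, C * lam ^ k := by
          apply Summable.tsum_le_tsum _ ((summable_nat_add_iff K).2 hs) h1
          intro k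
          have := hhigh (k + K) (by omega)
          rwa [Nat.add_sub_cancel] at this
      _ = C / (1 - lam) := by rw [tsum_mul_left, tsum_geometric_of_lt_one hl0 hl1]; rfl
  calc _ ≤ C / (1 - lam) + C / (1 - lam) := add_le_add h2 h3
    _ = _ := by ring

lemma sqrt_inv_lt_one (hq : 1 < q) : Real.sqrt (1 / q) < 1 := by
  rw [Real.sqrt_lt' one_pos, one_pow, div_lt_one (by linarith)]
  exact hq

lemma inv_le_sqrt_inv (hq : 1 < q) : 1 / q ≤ Real.sqrt (1 / q) := by
  apply Real.le_sqrt_of_sq_le
  have h0 : 0 ≤ 1 / q := by positivity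
  have h1 : 1 / q ≤ 1 := by rw [div_le_one (by linarith)]; exact hq.le
  nlinarith

lemma Dom.inv_x_le (h : Dom q x b K a) (hq : 1 < q) {k : ℕ} (hk : K ≤ k) :
    1 / x k ≤ (Real.sqrt (1 / q)) ^ (k - K) := by
  have h1 := h.x_ge hq (k - K)
  have e : K + (k - K) = k := by omega
  rw [e] at h1
  have h2 : 1 / x k ≤ 1 / q ^ (k - K) := one_div_le_one_div_of_le (by positivity) h1
  refine h2.trans ?_
  rw [← one_div_pow]
  exact pow_le_pow_left₀ (by positivity) (inv_le_sqrt_inv hq) _

/-- the basic majorised sums -/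
lemma Dom.main_sum (h : Dom q x b K a) (hq : 1 < q) (p : ℕ) (hp : 1 ≤ p) :
    Summable (fun k => ‖b k‖ * x k ^ p * Real.exp (-x k)) ∧
      ∑' k, ‖b k‖ * x k ^ p * Real.exp (-x k) ≤
        2 * ((p + 2).factorial * a) / (1 - Real.sqrt (1 / q)) := by
  have ha := h.a0
  have hf : (1 : ℝ) ≤ (p + 2).factorial := by
    exact_mod_cast Nat.succ_le_of_lt (Nat.factorial_pos _)
  apply two_sided (Real.sqrt_nonneg _) (sqrt_inv_lt_one hq) (by positivity) K
  · intro k
    have := h.x0 k
    positivity
  · intro k hk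
    have h0 := h.x0 k
    have h1 := h.x_le_one hq hk
    have h2 := h.low_bound hq hk
    have h3 : x k ^ p ≤ x k := by
      calc x k ^ p ≤ x k ^ 1 := pow_le_pow_of_le_one h0 h1 hp
        _ = x k := pow_one _
    have h4 : Real.exp (-x k) ≤ 1 := Real.exp_le_one_iff.2 (by linarith)
    calc ‖b k‖ * x k ^ p * Real.exp (-x k) ≤ ‖b k‖ * x k * 1 := by gcongr
      _ ≤ a * Real.sqrt (1 / q) ^ (K - k) := by linarith
      _ ≤ (p + 2).factorial * a * Real.sqrt (1 / q) ^ (K - k) := by
          have : 0 ≤ a * Real.sqrt (1 / q) ^ (K - k) := by positivity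
          nlinarith
  · intro k hk
    have h1 := h.one_le_x hq hk
    have h2 := h.high_bound hq hk
    have h3 := Real.pow_div_factorial_le_exp (x k) (by linarith) (p + 2)
    have hx : 0 < x k := by linarith
    have h4 : x k ^ (p + 2) * Real.exp (-x k) ≤ (p + 2).factorial := by
      rw [Real.exp_neg, ← div_eq_mul_inv, div_le_iff₀ (Real.exp_pos _)]
      rw [div_le_iff₀ (by positivity)] at h3
      linarith
    have h5 : x k ^ (p + 1) * Real.exp (-x k) ≤ (p + 2).factorial * (1 / x k) := by
      rw [mul_one_div, le_div_iff₀ hx]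
      calc x k ^ (p + 1) * Real.exp (-x k) * x k = x k ^ (p + 2) * Real.exp (-x k) := by ring
        _ ≤ _ := h4
    calc ‖b k‖ * x k ^ p * Real.exp (-x k) ≤ (a * x k) * x k ^ p * Real.exp (-x k) := by gcongr
      _ = a * (x k ^ (p + 1) * Real.exp (-x k)) := by ring
      _ ≤ a * ((p + 2).factorial * (1 / x k)) := by gcongr
      _ ≤ a * ((p + 2).factorial * Real.sqrt (1 / q) ^ (k - K)) := by
          gcongr
          exact h.inv_x_le hq hk
      _ = _ := by ring

/-- the annihilating polynomial -/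
noncomputable def pol (x : ℕ → ℝ) (K j : ℕ) (u : ℝ) : ℝ :=
  ∏ i ∈ Finset.range j, (u - Real.exp (x (K - 1 - i))) / (Real.exp 1 - Real.exp (x (K - 1 - i)))

/-- the gap constant -/
noncomputable def gapc (q : ℝ) : ℝ := Real.exp 1 - Real.exp (1 / q)

lemma gapc_pos (hq : 1 < q) : 0 < gapc q := by
  unfold gapc
  have : Real.exp (1 / q) < Real.exp 1 := by
    apply Real.exp_lt_exp.2
    rw [div_lt_one (by linarith)]
    exact hq
  linarith

lemma Dom.den_ge (h : Dom q x b K a) (hq : 1 < q) {i : ℕ} (hi : i < K) :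
    gapc q ≤ Real.exp 1 - Real.exp (x (K - 1 - i)) := by
  have h1 := h.x_le hq (i + 1) (by omega)
  have e : K - (i + 1) = K - 1 - i := by omega
  rw [e] at h1
  have h2 : x (K - 1 - i) ≤ 1 / q := by
    refine h1.trans ?_
    calc (1 / q) ^ (i + 1) ≤ (1 / q) ^ 1 := by
          apply pow_le_pow_of_le_one (by positivity) _ (by omega)
          rw [div_le_one (by linarith)]; exact hq.le
      _ = 1 / q := pow_one _
  unfold gapc
  have := Real.exp_le_exp.2 h2
  linarith

lemma Dom.pol_abs_le (h : Dom q x b K a) (hq : 1 < q) {j : ℕ} (hj : j ≤ K) {u : ℝ}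
    (hu : 1 ≤ u) : |pol x K j u| ≤ (Real.exp 1 * u / gapc q) ^ j := by
  unfold pol
  rw [Finset.abs_prod]
  calc ∏ i ∈ Finset.range j, |(u - Real.exp (x (K - 1 - i))) /
        (Real.exp 1 - Real.exp (x (K - 1 - i)))|
      ≤ ∏ i ∈ Finset.range j, (Real.exp 1 * u / gapc q) := by
        apply Finset.prod_le_prod
        · intro i _; exact abs_nonneg _
        · intro i hi
          rw [Finset.mem_range] at hi
          have h1 := h.den_ge hq (i := i) (by omega)
          have h0 := gapc_pos hq
          rw [abs_div, abs_of_pos (show 0 < Real.exp 1 - Real.exp (x (K - 1 - i)) by linarith)]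
          have h2 : x (K - 1 - i) ≤ 1 := h.x_le_one hq (by omega)
          have h3 : Real.exp (x (K - 1 - i)) ≤ Real.exp 1 := Real.exp_le_exp.2 h2
          have h4 := Real.exp_pos (x (K - 1 - i))
          have he : 1 ≤ Real.exp 1 := Real.one_le_exp (by norm_num)
          have h5 : |u - Real.exp (x (K - 1 - i))| ≤ Real.exp 1 * u := by
            rw [abs_le]; constructor <;> nlinarith
          gcongr
    _ = _ := by rw [Finset.prod_const, Finset.card_range]

lemma Dom.pol_high (h : Dom q x b K a) (hq : 1 < q) {j : ℕ} (hj : j ≤ K) {u : ℝ}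
    (hu : Real.exp 1 ≤ u) : |pol x K j u| ≤ (u / gapc q) ^ j := by
  unfold pol
  rw [Finset.abs_prod]
  calc ∏ i ∈ Finset.range j, |(u - Real.exp (x (K - 1 - i))) /
        (Real.exp 1 - Real.exp (x (K - 1 - i)))|
      ≤ ∏ i ∈ Finset.range j, (u / gapc q) := by
        apply Finset.prod_le_prod
        · intro i _; exact abs_nonneg _
        · intro i hi
          rw [Finset.mem_range] at hi
          have h1 := h.den_ge hq (i := i) (by omega)
          have h0 := gapc_pos hq
          rw [abs_div, abs_of_pos (show 0 < Real.exp 1 - Real.exp (x (K - 1 - i)) by linarith)]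
          have h2 : x (K - 1 - i) ≤ 1 := h.x_le_one hq (by omega)
          have h3 : Real.exp (x (K - 1 - i)) ≤ Real.exp 1 := Real.exp_le_exp.2 h2
          have h4 := Real.exp_pos (x (K - 1 - i))
          have h5 : |u - Real.exp (x (K - 1 - i))| ≤ u := by
            rw [abs_le]; constructor <;> linarith
          have h6 : 0 ≤ u := by linarith
          gcongr
    _ = _ := by rw [Finset.prod_const, Finset.card_range]

lemma Dom.pol_low (h : Dom q x b K a) (hq : 1 < q) {j : ℕ} (hj : j ≤ K) {k : ℕ} (hk : k < K) :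
    |pol x K j (Real.exp (x k))| ≤ ∏ i ∈ Finset.range j, (Real.exp 1 / gapc q) * (1 / q) ^ (i + 1) := by
  by_cases hkj : K - j ≤ k
  · have : pol x K j (Real.exp (x k)) = 0 := by
      unfold pol
      apply Finset.prod_eq_zero (i := K - 1 - k) (by rw [Finset.mem_range]; omega)
      have e : K - 1 - (K - 1 - k) = k := by omega
      rw [e]
      simp
    rw [this, abs_zero]
    have := gapc_pos hq
    positivity
  · rw [not_le] at hkj
    unfold pol
    rw [Finset.abs_prod]
    apply Finset.prod_le_prod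
    · intro i _; exact abs_nonneg _
    · intro i hi
      rw [Finset.mem_range] at hi
      have h1 := h.den_ge hq (i := i) (by omega)
      have h0 := gapc_pos hq
      rw [abs_div, abs_of_pos (show 0 < Real.exp 1 - Real.exp (x (K - 1 - i)) by linarith)]
      have h2 : x (K - 1 - i) ≤ 1 := h.x_le_one hq (by omega)
      have h2' := h.x0 (K - 1 - i)
      have h3 := h.x_le hq (i + 1) (by omega)
      have e : K - (i + 1) = K - 1 - i := by omega
      rw [e] at h3
      -- monotonicity of x
      have hmono : Monotone x := by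
        apply monotone_nat_of_le_succ
        intro l
        have h4 := h.ratio l
        have h5 := h.x0 l
        nlinarith
      have h4 : x k ≤ x (K - 1 - i) := hmono (by omega)
      have h5 : Real.exp (x k) ≤ Real.exp (x (K - 1 - i)) := Real.exp_le_exp.2 h4
      have h6 : 1 ≤ Real.exp (x k) := Real.one_le_exp (h.x0 k)
      have h7 : Real.exp (x (K - 1 - i)) - 1 ≤ Real.exp 1 * x (K - 1 - i) := by
        -- convexity: exp x ≤ 1 + x e on [0,1]
        have h8 : 1 - x (K - 1 - i) ≤ Real.exp (-x (K - 1 - i)) := by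
          have := Real.add_one_le_exp (-x (K - 1 - i))
          linarith
        have h9 : Real.exp (x (K - 1 - i)) * Real.exp (-x (K - 1 - i)) = 1 := by
          rw [← Real.exp_add]; simp
        have h10 : Real.exp (x (K - 1 - i)) ≤ Real.exp 1 := Real.exp_le_exp.2 h2
        have h11 := Real.exp_pos (x (K - 1 - i))
        nlinarith
      have h8 : |Real.exp (x k) - Real.exp (x (K - 1 - i))| ≤ Real.exp 1 * (1 / q) ^ (i + 1) := by
        rw [abs_sub_comm, abs_of_nonneg (by linarith)]
        calc Real.exp (x (K - 1 - i)) - Real.exp (x k) ≤ Real.exp (x (K - 1 - i)) - 1 := by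
              linarith
          _ ≤ Real.exp 1 * x (K - 1 - i) := h7
          _ ≤ Real.exp 1 * (1 / q) ^ (i + 1) := by gcongr
      calc |Real.exp (x k) - Real.exp (x (K - 1 - i))| /
            (Real.exp 1 - Real.exp (x (K - 1 - i)))
          ≤ (Real.exp 1 * (1 / q) ^ (i + 1)) / gapc q := by gcongr
        _ = _ := by ring

lemma Dom.pol_one (h : Dom q x b K a) (hq : 1 < q) {j : ℕ} (hj : j ≤ K) :
    pol x K j (Real.exp 1) = 1 := by
  unfold pol
  apply Finset.prod_eq_one
  intro i hi
  rw [Finset.mem_range] at hi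
  have h1 := h.den_ge hq (i := i) (by omega)
  have h0 := gapc_pos hq
  exact div_self (by linarith)

/-- the weights at depth `B` -/
noncomputable def gam (x : ℕ → ℝ) (b : ℕ → ℂ) (B : ℝ) (k : ℕ) : ℂ :=
  b k * (x k * Real.exp (-(B * x k)) : ℝ)

/-- the transformed sums -/
noncomputable def TT (x : ℕ → ℝ) (b : ℕ → ℂ) (K : ℕ) (B : ℝ) (j i : ℕ) : ℂ :=
  ∑' k, gam x b B k * ((Real.exp (x k) ^ i * pol x K j (Real.exp (x k)) : ℝ) : ℂ)

lemma norm_gam (hx : ∀ k, 0 ≤ x k) (B : ℝ) (k : ℕ) :
    ‖gam x b B k‖ = ‖b k‖ * x k * Real.exp (-(B * x k)) := by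
  unfold gam
  rw [norm_mul, Complex.norm_real, Real.norm_of_nonneg (by have := hx k; positivity)]
  ring

lemma Dom.summable_TT (h : Dom q x b K a) (hq : 1 < q) {B : ℝ} {j i : ℕ} (hj : j ≤ K)
    (hB : (i : ℝ) + j + 1 ≤ B) :
    Summable fun k => gam x b B k * ((Real.exp (x k) ^ i * pol x K j (Real.exp (x k)) : ℝ) : ℂ) := by
  have h0 := gapc_pos hq
  apply Summable.of_norm_bounded (g := fun k => (Real.exp 1 / gapc q) ^ j *
    (‖b k‖ * x k ^ 1 * Real.exp (-x k))) ((h.main_sum hq 1 le_rfl).1.mul_left _)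
  intro k
  have hx := h.x0 k
  rw [norm_mul, norm_gam h.x0, Complex.norm_real, Real.norm_eq_abs, abs_mul,
    abs_of_pos (show 0 < Real.exp (x k) ^ i by positivity)]
  have h1 := h.pol_abs_le hq hj (u := Real.exp (x k)) (Real.one_le_exp hx)
  calc ‖b k‖ * x k * Real.exp (-(B * x k)) * (Real.exp (x k) ^ i * |pol x K j (Real.exp (x k))|)
      ≤ ‖b k‖ * x k * Real.exp (-(B * x k)) *
          (Real.exp (x k) ^ i * (Real.exp 1 * Real.exp (x k) / gapc q) ^ j) := by gcongr
    _ = (Real.exp 1 / gapc q) ^ j * (‖b k‖ * x k ^ 1 *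
          (Real.exp (-(B * x k)) * Real.exp (x k) ^ (i + j))) := by
        rw [pow_add, pow_one, mul_div_right_comm, mul_pow]
        ring
    _ ≤ (Real.exp 1 / gapc q) ^ j * (‖b k‖ * x k ^ 1 * Real.exp (-x k)) := by
        gcongr
        rw [← Real.exp_nat_mul, ← Real.exp_add]
        apply Real.exp_le_exp.2
        push_cast
        nlinarith

lemma Dom.TT_succ (h : Dom q x b K a) (hq : 1 < q) {B : ℝ} {j i : ℕ} (hj : j < K)
    (hB : (i : ℝ) + j + 2 ≤ B) :
    TT x b K B (j + 1) i = (TT x b K B j (i + 1) - (Real.exp (x (K - 1 - j)) : ℝ) * TT x b K B j i) /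
      ((Real.exp 1 - Real.exp (x (K - 1 - j)) : ℝ) : ℂ) := by
  have h0 := gapc_pos hq
  have h1 := h.den_ge hq hj
  have hd : ((Real.exp 1 - Real.exp (x (K - 1 - j)) : ℝ) : ℂ) ≠ 0 := by
    rw [Complex.ofReal_ne_zero]; linarith
  rw [eq_div_iff hd]
  have s1 := h.summable_TT hq (B := B) (j := j) (i := i + 1) hj.le (by push_cast; linarith)
  have s2 := h.summable_TT hq (B := B) (j := j) (i := i) hj.le (by linarith)
  unfold TT
  rw [← tsum_mul_left, ← s1.tsum_sub (s2.mul_left _), ← tsum_mul_right]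
  apply tsum_congr
  intro k
  have e : pol x K (j + 1) (Real.exp (x k)) * (Real.exp 1 - Real.exp (x (K - 1 - j))) =
      pol x K j (Real.exp (x k)) * (Real.exp (x k) - Real.exp (x (K - 1 - j))) := by
    unfold pol
    rw [Finset.prod_range_succ, mul_assoc, div_mul_cancel₀ _ (by linarith)]
  have e2 : ((Real.exp (x k) ^ i * pol x K (j + 1) (Real.exp (x k)) : ℝ) : ℂ) *
      ((Real.exp 1 - Real.exp (x (K - 1 - j)) : ℝ) : ℂ) =
      ((Real.exp (x k) ^ (i + 1) * pol x K j (Real.exp (x k)) : ℝ) : ℂ) -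
        (Real.exp (x (K - 1 - j)) : ℝ) * ((Real.exp (x k) ^ i * pol x K j (Real.exp (x k)) : ℝ) : ℂ)
      := by
    rw [← Complex.ofReal_mul, ← Complex.ofReal_mul, ← Complex.ofReal_sub]
    congr 1
    rw [mul_assoc, e]
    ring
  rw [mul_assoc, e2]
  ring

/-- if all the values `TT 0 i`, `i ≤ J`, are small then so is `TT J 0` -/
lemma Dom.TT_bound (h : Dom q x b K a) (hq : 1 < q) {B E : ℝ} {J : ℕ} (hJ : J ≤ K)
    (hB : (J : ℝ) + 1 ≤ B) (hE : ∀ i, i ≤ J → ‖TT x b K B 0 i‖ ≤ E) :
    ∀ j, j ≤ J → ∀ i, i + j ≤ J → ‖TT x b K B j i‖ ≤ ((1 + Real.exp 1) / gapc q) ^ j * E := by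
  have h0 := gapc_pos hq
  have hE0 : 0 ≤ E := (norm_nonneg _).trans (hE 0 (by omega))
  intro j
  induction j with
  | zero => intro _ i hi; simpa using hE i (by omega)
  | succ j ih =>
    intro hj i hi
    have h1 := h.den_ge hq (i := j) (by omega)
    have hB' : (i : ℝ) + j + 2 ≤ B := by
      have : (i : ℝ) + (j + 1) ≤ J := by exact_mod_cast hi
      linarith
    rw [h.TT_succ hq (by omega) hB', norm_div, Complex.norm_real,
      Real.norm_of_nonneg (show 0 ≤ Real.exp 1 - Real.exp (x (K - 1 - j)) by linarith)]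
    have h2 := ih (by omega) (i + 1) (by omega)
    have h3 := ih (by omega) i (by omega)
    have h4 : Real.exp (x (K - 1 - j)) ≤ Real.exp 1 :=
      Real.exp_le_exp.2 (h.x_le_one hq (by omega))
    have h5 : ‖TT x b K B j (i + 1) - (Real.exp (x (K - 1 - j)) : ℝ) * TT x b K B j i‖ ≤
        (1 + Real.exp 1) * (((1 + Real.exp 1) / gapc q) ^ j * E) := by
      refine (norm_sub_le _ _).trans ?_
      rw [norm_mul, Complex.norm_real, Real.norm_of_nonneg (Real.exp_pos _).le, add_mul, one_mul]
      gcongr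
    calc ‖TT x b K B j (i + 1) - (Real.exp (x (K - 1 - j)) : ℝ) * TT x b K B j i‖ /
          (Real.exp 1 - Real.exp (x (K - 1 - j)))
        ≤ ((1 + Real.exp 1) * (((1 + Real.exp 1) / gapc q) ^ j * E)) / gapc q := by gcongr
      _ = _ := by rw [pow_succ]; ring

/-- choice of the number of annihilated frequencies -/
lemma exists_J (D C : ℝ) (hq : 1 < q) (hD : 0 < D) :
    ∃ J : ℕ, C * ∏ i ∈ Finset.range J, (D * (1 / q) ^ (i + 1)) ≤ 1 := by
  have hq0 : 0 < q := by linarith
  have hs : Summable fun J : ℕ => ∏ i ∈ Finset.range J, (D * (1 / q) ^ (i + 1)) := by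
    apply summable_of_ratio_test_tendsto_lt_one (l := 0) one_pos
    · filter_upwards with J
      apply ne_of_gt
      positivity
    · have : ∀ J : ℕ, ‖∏ i ∈ Finset.range (J + 1), (D * (1 / q) ^ (i + 1))‖ /
          ‖∏ i ∈ Finset.range J, (D * (1 / q) ^ (i + 1))‖ = D * (1 / q) ^ (J + 1) := by
        intro J
        have hp : 0 < ∏ i ∈ Finset.range J, (D * (1 / q) ^ (i + 1)) :=
          Finset.prod_pos (fun i _ => by positivity)
        rw [Finset.prod_range_succ, norm_mul, mul_div_cancel_left₀ _ (norm_ne_zero_iff.2 hp.ne'),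
          Real.norm_of_nonneg (by positivity)]
      simp only [this]
      have h1 : Tendsto (fun J : ℕ => (1 / q) ^ (J + 1)) atTop (𝓝 0) :=
        (tendsto_pow_atTop_nhds_zero_of_lt_one (by positivity)
          (by rw [div_lt_one hq0]; exact hq)).comp (tendsto_add_atTop_nat 1)
      have := h1.const_mul D
      rwa [mul_zero] at this
  have h1 := (hs.tendsto_atTop_zero).const_mul C
  rw [mul_zero] at h1
  exact ((h1.eventually (ge_mem_nhds (show (0 : ℝ) < 1 by norm_num))).exists)

/-- **Oscillation lemma.** -/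
theorem osc (hq : 1 < q) : ∃ (J : ℕ) (B c1 : ℝ), 0 < c1 ∧ 2 * (J : ℝ) + 20 ≤ B ∧
    ∀ (x : ℕ → ℝ) (b : ℕ → ℂ) (K : ℕ) (a : ℝ), Dom q x b K a → J ≤ K →
      ∃ i, i ≤ J ∧ c1 * a ≤ ‖TT x b K B 0 i‖ := by
  have hg := gapc_pos hq
  have hq1 : 0 < q - 1 := by linarith
  set lam := Real.sqrt (1 / q) with hlam
  have hl0 : 0 ≤ lam := Real.sqrt_nonneg _
  have hl1 : lam < 1 := sqrt_inv_lt_one hq
  have h1l : 0 < 1 - lam := by linarith
  set δ0 : ℝ := |Real.log (gapc q)| with hδ0
  have hδ0' : -Real.log (gapc q) ≤ δ0 := neg_le_abs _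
  have hδpos : 0 ≤ δ0 := abs_nonneg _
  set D : ℝ := (Real.exp 1 / gapc q) * Real.exp (2 + (1 + δ0) / (q - 1)) with hD
  have hDpos : 0 < D := by positivity
  obtain ⟨J, hJ⟩ := exists_J D (4 / (1 - lam) * Real.exp (21 + 4 / (q - 1))) hq hDpos
  set T : ℝ := (4 + J * (1 + δ0)) / (q - 1) + J + 20 with hT
  set B : ℝ := T + J + 1 with hB
  have hTpos : 0 ≤ (4 + J * (1 + δ0)) / (q - 1) := by positivity
  have hT0 : 0 ≤ T := by positivity
  refine ⟨J, B, Real.exp (-B) / 4 / ((1 + Real.exp 1) / gapc q) ^ J, by positivity,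
    by rw [hB, hT]; linarith, ?_⟩
  intro x b K a h hJK
  have ha := h.a0
  by_contra hcon
  have hcon' : ∀ i, i ≤ J → ‖TT x b K B 0 i‖ ≤
      Real.exp (-B) / 4 / ((1 + Real.exp 1) / gapc q) ^ J * a := by
    intro i hi
    by_contra h2
    exact hcon ⟨i, hi, (not_le.1 h2).le⟩
  have hT1 : ‖TT x b K B J 0‖ ≤ Real.exp (-B) / 4 * a := by
    have := h.TT_bound hq hJK (by rw [hB]; linarith) hcon' J le_rfl 0 (by omega)
    refine this.trans (le_of_eq ?_)
    field_simp
  -- the transformed sum
  set Q : ℝ := ∏ i ∈ Finset.range J, (Real.exp 1 / gapc q) * (1 / q) ^ (i + 1) with hQ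
  have hQpos : 0 < Q := Finset.prod_pos (fun i _ => by positivity)
  set F : ℕ → ℂ := fun k =>
    gam x b B k * ((Real.exp (x k) ^ 0 * pol x K J (Real.exp (x k)) : ℝ) : ℂ) with hF
  have hsF : Summable F := h.summable_TT hq hJK (by push_cast; rw [hB]; linarith)
  have hTT : TT x b K B J 0 = F K + ∑' k, if k = K then 0 else F k :=
    hsF.tsum_eq_add_tsum_ite K
  have hFK : ‖F K‖ = a * Real.exp (-B) := by
    simp only [hF]
    rw [norm_mul, norm_gam h.x0, h.xK, h.pol_one hq hJK, h.bK]
    simp
  have hnF : ∀ k, ‖F k‖ = ‖b k‖ * x k * Real.exp (-(B * x k)) * |pol x K J (Real.exp (x k))| := by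
    intro k
    simp only [hF]
    rw [norm_mul, norm_gam h.x0, pow_zero, one_mul, Complex.norm_real, Real.norm_eq_abs]
  set r : ℕ → ℝ := fun k => ‖if k = K then 0 else F k‖ with hr
  have hrs : Summable r := by
    apply Summable.of_nonneg_of_le (fun k => norm_nonneg _) _ hsF.norm
    intro k
    by_cases hk : k = K
    · simp [hk]
    · simp [hk]
  set μ : ℝ := Real.exp (-(T * (q - 1))) with hμ
  have hTq : 4 + J * (1 + δ0) ≤ T * (q - 1) := by
    have h1 : (4 + J * (1 + δ0)) / (q - 1) ≤ T := by rw [hT]; have : (0 : ℝ) ≤ J := by positivity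
                                                     linarith
    rw [div_le_iff₀ hq1] at h1
    exact h1
  have hμ0 : 0 < μ := Real.exp_pos _
  have hexp3 : (16 : ℝ) ≤ Real.exp 3 := by
    have h1 := Real.exp_one_gt_d9
    have h2 : Real.exp 3 = Real.exp 1 ^ 3 := by
      rw [← Real.exp_nat_mul]; norm_num
    rw [h2]
    calc (16 : ℝ) ≤ 2.7182818283 ^ 3 := by norm_num
      _ ≤ Real.exp 1 ^ 3 := by gcongr
  have hJδ : 0 ≤ J * (1 + δ0) := by positivity
  have hμ1 : μ ≤ 1 / 2 := by
    have h1 : μ ≤ Real.exp (-3) := Real.exp_le_exp.2 (by linarith)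
    have h2 : Real.exp (-3) ≤ 1 / 16 := by
      rw [Real.exp_neg, ← one_div]
      exact one_div_le_one_div_of_le (by norm_num) hexp3
    linarith
  have hrlow : ∀ k, k < K → r k ≤ a * Q * lam ^ (K - 1 - k) := by
    intro k hk
    simp only [hr]
    rw [if_neg (by omega), hnF]
    have h1 := h.pol_low hq hJK hk
    have h2 := h.low_bound hq hk.le
    have h3 : Real.exp (-(B * x k)) ≤ 1 := by
      apply Real.exp_le_one_iff.2
      have := h.x0 k
      have : 0 ≤ B * x k := by positivity
      linarith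
    have h4 := h.x0 k
    calc ‖b k‖ * x k * Real.exp (-(B * x k)) * |pol x K J (Real.exp (x k))|
        ≤ (a * lam ^ (K - k)) * 1 * Q := by gcongr
      _ = a * Q * lam ^ (K - k) := by ring
      _ ≤ a * Q * lam ^ (K - 1 - k) := by
          apply mul_le_mul_of_nonneg_left _ (by positivity)
          exact pow_le_pow_of_le_one hl0 hl1.le (by omega)
  have hrhigh : ∀ j, r (j + (K + 1)) ≤
      (2 * a * (1 / gapc q) ^ J * Real.exp (-T) * μ) * μ ^ j := by
    intro j
    simp only [hr]
    rw [if_neg (by omega), hnF]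
    set k := j + (K + 1) with hk
    have h1 : K ≤ k := by omega
    have h2 := h.high_bound hq h1
    have h3 := h.one_le_x hq h1
    have h4 := h.pol_high hq hJK (u := Real.exp (x k)) (Real.exp_le_exp.2 h3)
    have h5 : q ^ (j + 1) ≤ x k := by
      have := h.x_ge hq (j + 1)
      have e : K + (j + 1) = k := by omega
      rwa [e] at this
    have h6 : 1 + ((j + 1 : ℕ) : ℝ) * (q - 1) ≤ x k := by
      have := one_add_mul_le_pow (show -2 ≤ q - 1 by linarith) (j + 1)
      have e : 1 + (q - 1) = q := by ring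
      rw [e] at this
      exact this.trans h5
    have h7 : x k ^ 2 ≤ 2 * Real.exp (x k) := by
      have := Real.pow_div_factorial_le_exp (x k) (by linarith) 2
      rw [div_le_iff₀ (by positivity)] at this
      simpa [Nat.factorial, mul_comm] using this
    have h8 : Real.exp (-(T * x k)) ≤ Real.exp (-T) * μ ^ (j + 1) := by
      rw [hμ, ← Real.exp_nat_mul, ← Real.exp_add]
      apply Real.exp_le_exp.2
      have : T * (1 + ((j + 1 : ℕ) : ℝ) * (q - 1)) ≤ T * x k := mul_le_mul_of_nonneg_left h6 hT0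
      linarith
    calc ‖b k‖ * x k * Real.exp (-(B * x k)) * |pol x K J (Real.exp (x k))|
        ≤ (a * x k) * x k * Real.exp (-(B * x k)) * (Real.exp (x k) / gapc q) ^ J := by gcongr
      _ = a * (1 / gapc q) ^ J * (x k ^ 2 * (Real.exp (-(B * x k)) * Real.exp (x k) ^ J)) := by
          rw [div_eq_mul_one_div (Real.exp (x k)), mul_pow]; ring
      _ ≤ a * (1 / gapc q) ^ J * ((2 * Real.exp (x k)) *
            (Real.exp (-(B * x k)) * Real.exp (x k) ^ J)) := by gcongr
      _ = a * (1 / gapc q) ^ J * (2 * Real.exp (-(T * x k))) := by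
          congr 1
          rw [mul_assoc]
          congr 1
          rw [← Real.exp_nat_mul, ← Real.exp_add, ← Real.exp_add, hB]
          congr 1
          ring
      _ ≤ a * (1 / gapc q) ^ J * (2 * (Real.exp (-T) * μ ^ (j + 1))) := by gcongr
      _ = _ := by rw [pow_succ]; ring
  have hsum : ∑' k, r k ≤ a * Real.exp (-B) / 2 := by
    rw [← hrs.sum_add_tsum_nat_add (K + 1), Finset.sum_range_succ]
    have h1 : r K = 0 := by simp [hr]
    have h2 : ∑ k ∈ Finset.range K, r k ≤ a * Real.exp (-B) / 4 := by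
      calc ∑ k ∈ Finset.range K, r k ≤ ∑ k ∈ Finset.range K, a * Q * lam ^ (K - 1 - k) := by
            apply Finset.sum_le_sum
            intro k hk
            exact hrlow k (Finset.mem_range.1 hk)
        _ = ∑ k ∈ Finset.range K, a * Q * lam ^ k :=
            Finset.sum_range_reflect (fun k => a * Q * lam ^ k) K
        _ ≤ ∑' k, a * Q * lam ^ k :=
            ((summable_geometric_of_lt_one hl0 hl1).mul_left _).sum_le_tsum _
              (fun k _ => by positivity)
        _ = a * Q / (1 - lam) := by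
            rw [tsum_mul_left, tsum_geometric_of_lt_one hl0 hl1]; rfl
        _ ≤ a * Real.exp (-B) / 4 := by
            have e1 : ∏ i ∈ Finset.range J, (D * (1 / q) ^ (i + 1)) =
                Q * Real.exp (2 + (1 + δ0) / (q - 1)) ^ J := by
              have e0 : Real.exp (2 + (1 + δ0) / (q - 1)) ^ J =
                  ∏ _i ∈ Finset.range J, Real.exp (2 + (1 + δ0) / (q - 1)) := by
                rw [Finset.prod_const, Finset.card_range]
              rw [hQ, hD, e0, ← Finset.prod_mul_distrib]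
              apply Finset.prod_congr rfl
              intro i _
              ring
            have e2 : Real.exp B = Real.exp (21 + 4 / (q - 1)) *
                Real.exp (2 + (1 + δ0) / (q - 1)) ^ J := by
              rw [← Real.exp_nat_mul, ← Real.exp_add, hB, hT]
              congr 1
              field_simp
              ring
            have e3 : 4 / (1 - lam) * (Q * Real.exp B) ≤ 1 := by
              rw [e1] at hJ
              rw [e2]
              linarith
            have e4 : Real.exp B * Real.exp (-B) = 1 := by rw [← Real.exp_add]; simp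
            have e5 := Real.exp_pos (-B)
            have e6 : 4 / (1 - lam) * Q ≤ Real.exp (-B) := by
              calc 4 / (1 - lam) * Q = (4 / (1 - lam) * (Q * Real.exp B)) * Real.exp (-B) := by
                    rw [mul_assoc, mul_assoc Q, e4, mul_one]
                _ ≤ 1 * Real.exp (-B) := by gcongr
                _ = _ := one_mul _
            calc a * Q / (1 - lam) = a * (4 / (1 - lam) * Q) / 4 := by ring
              _ ≤ a * Real.exp (-B) / 4 := by gcongr
    have h3 : ∑' j, r (j + (K + 1)) ≤ a * Real.exp (-B) / 4 := by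
      have hgs := summable_geometric_of_lt_one hμ0.le (by linarith : μ < 1)
      calc ∑' j, r (j + (K + 1)) ≤
            ∑' j : ℕ, (2 * a * (1 / gapc q) ^ J * Real.exp (-T) * μ) * μ ^ j :=
            Summable.tsum_le_tsum hrhigh ((summable_nat_add_iff (K + 1)).2 hrs) (hgs.mul_left _)
        _ = (2 * a * (1 / gapc q) ^ J * Real.exp (-T) * μ) * (1 - μ)⁻¹ := by
            rw [tsum_mul_left, tsum_geometric_of_lt_one hμ0.le (by linarith)]
        _ ≤ (2 * a * (1 / gapc q) ^ J * Real.exp (-T) * μ) * 2 := by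
            gcongr
            rw [inv_le_comm₀ (by linarith) (by norm_num)]
            linarith
        _ ≤ a * Real.exp (-B) / 4 := by
            have e1 : (1 / gapc q) ^ J ≤ Real.exp (J * δ0) := by
              have : (1 / gapc q) = Real.exp (-Real.log (gapc q)) := by
                rw [Real.exp_neg, Real.exp_log hg, one_div]
              rw [this, ← Real.exp_nat_mul]
              apply Real.exp_le_exp.2
              gcongr
            have e2 : 16 * (Real.exp (J * δ0) * μ) ≤ Real.exp (-(J + 1)) := by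
              calc 16 * (Real.exp (J * δ0) * μ) ≤ Real.exp 3 * (Real.exp (J * δ0) * μ) := by
                    gcongr
                _ = Real.exp (3 + (J * δ0 + -(T * (q - 1)))) := by
                    rw [hμ, ← Real.exp_add, ← Real.exp_add]
                _ ≤ Real.exp (-(J + 1)) := by
                    apply Real.exp_le_exp.2
                    linarith
            have e3 : Real.exp (-B) = Real.exp (-T) * Real.exp (-(J + 1)) := by
              rw [← Real.exp_add, hB]; congr 1; ring
            rw [e3]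
            have e4 := Real.exp_pos (-T)
            calc 2 * a * (1 / gapc q) ^ J * Real.exp (-T) * μ * 2
                = a * Real.exp (-T) / 4 * (16 * ((1 / gapc q) ^ J * μ)) := by ring
              _ ≤ a * Real.exp (-T) / 4 * (16 * (Real.exp (J * δ0) * μ)) := by gcongr
              _ ≤ a * Real.exp (-T) / 4 * Real.exp (-(J + 1)) := by gcongr
              _ = _ := by ring
    rw [h1]
    linarith
  have hrest : ‖∑' k, if k = K then 0 else F k‖ ≤ a * Real.exp (-B) / 2 :=
    (norm_tsum_le_tsum_norm hrs).trans hsum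
  have hfin : a * Real.exp (-B) - a * Real.exp (-B) / 2 ≤ ‖TT x b K B J 0‖ := by
    rw [hTT]
    have := norm_sub_le_norm_add (F K) (∑' k, if k = K then 0 else F k)
    rw [hFK] at this
    linarith
  have hpos : 0 < a * Real.exp (-B) := by positivity
  linarith

end Pool.Agent.Had83
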