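import Pool.Agent.Had83.EnergyE

/-!
Square means of the series.
-/

open MeasureTheory Filter Topology Set Metric
open scoped ENNReal Real

namespace Pool.Agent.Had83

lemma int_exp (m : ℤ) (hm : m ≠ 0) :
    ∫ θ in (0 : ℝ)..(2 * π), Complex.exp ((m : ℂ) * Complex.I * θ) = 0 := by
  have hc : (m : ℂ) * Complex.I ≠ 0 := mul_ne_zero (by exact_mod_cast hm) Complex.I_ne_zero
  rw [integral_exp_mul_complex hc]
  have h1 : (m : ℂ) * Complex.I * ((2 * π : ℝ) : ℂ) = m * (2 * π * Complex.I) := by
    push_cast
    ring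
  rw [h1, Complex.exp_int_mul_two_pi_mul_I]
  simp

lemma pars_fin {n : ℕ → ℕ} (hn : StrictMono n) (d : ℕ → ℂ) (m : ℕ) :
    ∫ θ in (0 : ℝ)..(2 * π), ‖∑ k ∈ Finset.range m, d k * Complex.exp ((n k : ℂ) * (θ * Complex.I))‖ ^ 2
      = 2 * π * ∑ k ∈ Finset.range m, ‖d k‖ ^ 2 := by
  induction m with
  | zero => simp
  | succ m ih =>
    have hc1 : Continuous fun θ : ℝ =>
        ∑ k ∈ Finset.range m, d k * Complex.exp ((n k : ℂ) * (θ * Complex.I)) := by fun_prop
    have hc2 : Continuous fun θ : ℝ => d m * Complex.exp ((n m : ℂ) * (θ * Complex.I)) := by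
      fun_prop
    have h1 : ∀ θ : ℝ, ‖∑ k ∈ Finset.range (m + 1),
        d k * Complex.exp ((n k : ℂ) * (θ * Complex.I))‖ ^ 2 =
        ‖∑ k ∈ Finset.range m, d k * Complex.exp ((n k : ℂ) * (θ * Complex.I))‖ ^ 2 + ‖d m‖ ^ 2 +
          2 * ((∑ k ∈ Finset.range m, d k * Complex.exp ((n k : ℂ) * (θ * Complex.I))) *
            (starRingEnd ℂ) (d m * Complex.exp ((n m : ℂ) * (θ * Complex.I)))).re := by
      intro θ
      rw [Finset.sum_range_succ]
      have h2 : ‖d m * Complex.exp ((n m : ℂ) * (θ * Complex.I))‖ = ‖d m‖ := by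
        rw [norm_mul, Complex.norm_exp]
        have : ((n m : ℂ) * (θ * Complex.I)).re = 0 := by simp
        rw [this, Real.exp_zero, mul_one]
      rw [← h2, ← Complex.normSq_eq_norm_sq, ← Complex.normSq_eq_norm_sq,
        ← Complex.normSq_eq_norm_sq, Complex.normSq_add]
    simp only [h1]
    have hcz : Continuous fun θ : ℝ =>
        (∑ k ∈ Finset.range m, d k * Complex.exp ((n k : ℂ) * (θ * Complex.I))) *
            (starRingEnd ℂ) (d m * Complex.exp ((n m : ℂ) * (θ * Complex.I))) :=
      hc1.mul (Complex.continuous_conj.comp hc2)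
    have hcross : ∫ θ in (0 : ℝ)..(2 * π),
        ((∑ k ∈ Finset.range m, d k * Complex.exp ((n k : ℂ) * (θ * Complex.I))) *
            (starRingEnd ℂ) (d m * Complex.exp ((n m : ℂ) * (θ * Complex.I)))).re = 0 := by
      have h3 : ∫ θ in (0 : ℝ)..(2 * π),
          ((∑ k ∈ Finset.range m, d k * Complex.exp ((n k : ℂ) * (θ * Complex.I))) *
            (starRingEnd ℂ) (d m * Complex.exp ((n m : ℂ) * (θ * Complex.I)))) = 0 := by
        simp only [Finset.sum_mul]
        rw [intervalIntegral.integral_finsetSum]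
        · apply Finset.sum_eq_zero
          intro k hk
          rw [Finset.mem_range] at hk
          have h4 : ∀ θ : ℝ, d k * Complex.exp ((n k : ℂ) * (θ * Complex.I)) *
              (starRingEnd ℂ) (d m * Complex.exp ((n m : ℂ) * (θ * Complex.I))) =
              d k * (starRingEnd ℂ) (d m) *
                Complex.exp ((((n k : ℤ) - (n m : ℤ) : ℤ) : ℂ) * Complex.I * θ) := by
            intro θ
            rw [map_mul, ← Complex.exp_conj]
            have e1 : Complex.exp ((((n k : ℤ) - (n m : ℤ) : ℤ) : ℂ) * Complex.I * θ) =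
                Complex.exp ((n k : ℂ) * (θ * Complex.I)) *
                  Complex.exp ((starRingEnd ℂ) ((n m : ℂ) * (θ * Complex.I))) := by
              rw [← Complex.exp_add]
              congr 1
              simp only [map_mul, Complex.conj_I, Complex.conj_ofReal, Complex.conj_natCast]
              push_cast
              ring
            rw [e1]
            ring
          simp only [h4]
          rw [intervalIntegral.integral_const_mul, int_exp, mul_zero]
          have := hn hk
          omega
        · intro k _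
          apply Continuous.intervalIntegrable
          exact Continuous.mul (by fun_prop) (Complex.continuous_conj.comp hc2)
      have h5 := Complex.reCLM.intervalIntegral_comp_comm
        (hcz.intervalIntegrable (μ := volume) 0 (2 * π))
      simp only [Complex.reCLM_apply] at h5
      rw [h5, h3, Complex.zero_re]
    rw [intervalIntegral.integral_add, intervalIntegral.integral_add, ih,
      intervalIntegral.integral_const_mul, hcross, Finset.sum_range_succ,
      intervalIntegral.integral_const]
    · simp only [sub_zero, smul_eq_mul, mul_zero, add_zero]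
      ring
    · exact (hc1.norm.pow 2).intervalIntegrable _ _
    · exact continuous_const.intervalIntegrable _ _
    · exact ((hc1.norm.pow 2).add continuous_const).intervalIntegrable _ _
    · exact (continuous_const.mul (Complex.continuous_re.comp hcz)).intervalIntegrable _ _


variable {c : ℕ → ℂ} {n : ℕ → ℕ}

lemma line_term (k : ℕ) (t θ : ℝ) :
    c k * Complex.exp ((n k : ℂ) * ((t : ℝ) + (θ : ℝ) * Complex.I)) =
      (c k * Real.exp (n k * t)) * Complex.exp ((n k : ℂ) * (θ * Complex.I)) := by
  rw [mul_add, Complex.exp_add]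
  push_cast
  ring

/-- upper bound for the square mean -/
theorem pars_le (hn : StrictMono n) (h : Good c n) {t S : ℝ} (ht : t < 0)
    (hS : ∀ m, ∑ k ∈ Finset.range m, ‖c k‖ ^ 2 * Real.exp (2 * n k * t) ≤ S) :
    ∫ θ in (0 : ℝ)..(2 * π), ‖Ser c n (t + θ * Complex.I)‖ ^ 2 ≤ 2 * π * S := by
  have hpi := Real.pi_pos
  have hlim : Tendsto (fun m : ℕ => ∫ θ in (0 : ℝ)..(2 * π),
      ‖∑ k ∈ Finset.range m, c k * Complex.exp ((n k : ℂ) * ((t : ℝ) + (θ : ℝ) * Complex.I))‖ ^ 2)
      atTop (𝓝 (∫ θ in (0 : ℝ)..(2 * π), ‖Ser c n (t + θ * Complex.I)‖ ^ 2)) := by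
    apply intervalIntegral.tendsto_integral_filter_of_dominated_convergence
      (fun _ => (∑' k, ‖c k‖ * Real.exp (n k * t)) ^ 2)
    · refine Eventually.of_forall fun m => ?_
      apply Continuous.aestronglyMeasurable
      fun_prop
    · refine Eventually.of_forall fun m => Eventually.of_forall fun θ _ => ?_
      have hre : (((t : ℝ) : ℂ) + (θ : ℝ) * Complex.I).re = t := by simp
      have hsn := h.summable_norm (ζ := ((t : ℝ) : ℂ) + (θ : ℝ) * Complex.I) (by rw [hre]; exact ht)
      rw [Real.norm_of_nonneg (by positivity)]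
      apply pow_le_pow_left₀ (norm_nonneg _)
      refine (norm_sum_le _ _).trans ?_
      have e1 : ∀ k, ‖c k * Complex.exp ((n k : ℂ) * ((t : ℝ) + (θ : ℝ) * Complex.I))‖ =
          ‖c k‖ * Real.exp (n k * t) := by
        intro k
        rw [norm_term, hre]
      simp only [e1] at hsn ⊢
      exact hsn.sum_le_tsum _ (fun k _ => by positivity)
    · exact intervalIntegrable_const
    · refine Eventually.of_forall fun θ _ => ?_
      have hre : (((t : ℝ) : ℂ) + (θ : ℝ) * Complex.I).re = t := by simp
      have hs := h.summable (ζ := ((t : ℝ) : ℂ) + (θ : ℝ) * Complex.I) (by rw [hre]; exact ht)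
      exact (hs.hasSum.tendsto_sum_nat.norm).pow 2
  apply le_of_tendsto hlim
  refine Eventually.of_forall fun m => ?_
  simp only [line_term]
  rw [pars_fin hn (fun k => c k * Real.exp (n k * t)) m]
  apply mul_le_mul_of_nonneg_left _ (by positivity)
  refine le_trans (le_of_eq ?_) (hS m)
  apply Finset.sum_congr rfl
  intro k _
  rw [norm_mul, Complex.norm_real, Real.norm_of_nonneg (Real.exp_pos _).le, mul_pow, ← Real.exp_nat_mul]
  congr 2
  push_cast
  ring

/-- upper bound for the mean -/
theorem mean_le (hn : StrictMono n) (h : Good c n) {t S : ℝ} (ht : t < 0)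
    (hS : ∀ m, ∑ k ∈ Finset.range m, ‖c k‖ ^ 2 * Real.exp (2 * n k * t) ≤ S) :
    ∫ θ in (0 : ℝ)..(2 * π), ‖Ser c n (t + θ * Complex.I)‖ ≤ π * (S + 1) := by
  have hpi := Real.pi_pos
  have h1 := pars_le hn h ht hS
  have hc := (h.cont_line ht).norm
  have h2 : ∫ θ in (0 : ℝ)..(2 * π), ‖Ser c n (t + θ * Complex.I)‖ ≤
      ∫ θ in (0 : ℝ)..(2 * π), (1 / 2) * (‖Ser c n (t + θ * Complex.I)‖ ^ 2 + 1) := by
    apply intervalIntegral.integral_mono_on (by positivity)
    · exact hc.intervalIntegrable _ _
    · exact (continuous_const.mul ((hc.pow 2).add continuous_const)).intervalIntegrable _ _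
    · intro θ _
      nlinarith [sq_nonneg (‖Ser c n (t + θ * Complex.I)‖ - 1)]
  have h3 : ∫ θ in (0 : ℝ)..(2 * π), (‖Ser c n (t + θ * Complex.I)‖ ^ 2 + 1) =
      (∫ θ in (0 : ℝ)..(2 * π), ‖Ser c n (t + θ * Complex.I)‖ ^ 2) + 2 * π := by
    rw [intervalIntegral.integral_add (f := fun θ : ℝ => ‖Ser c n (t + θ * Complex.I)‖ ^ 2)
      (g := fun _ => (1 : ℝ)) ((hc.pow 2).intervalIntegrable _ _)
      (continuous_const.intervalIntegrable _ _), intervalIntegral.integral_const]
    simp
  rw [intervalIntegral.integral_const_mul, h3] at h2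
  linarith

/-- the characteristic is bounded by the square mean -/
theorem char_le (hn : StrictMono n) (h : Good c n) {t S : ℝ} (ht : t < 0)
    (hS : ∀ m, ∑ k ∈ Finset.range m, ‖c k‖ ^ 2 * Real.exp (2 * n k * t) ≤ S) :
    (2 * π)⁻¹ * ∫ θ in (0 : ℝ)..(2 * π), max 0 (Real.log ‖Ser c n (t + θ * Complex.I)‖) ≤ S := by
  have hpi := Real.pi_pos
  have h1 := pars_le hn h ht hS
  have hc := (h.cont_line ht).norm
  have h2 : ∫ θ in (0 : ℝ)..(2 * π), max 0 (Real.log ‖Ser c n (t + θ * Complex.I)‖) ≤
      ∫ θ in (0 : ℝ)..(2 * π), ‖Ser c n (t + θ * Complex.I)‖ ^ 2 := by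
    rw [intervalIntegral.integral_of_le (by positivity), intervalIntegral.integral_of_le
      (by positivity)]
    apply integral_mono_of_nonneg
    · exact Eventually.of_forall fun θ => le_max_left _ _
    · exact (hc.pow 2).integrableOn_Ioc
    · refine Eventually.of_forall fun θ => ?_
      apply max_le (by positivity)
      set x := ‖Ser c n (t + θ * Complex.I)‖ with hx
      rcases (norm_nonneg (Ser c n (t + θ * Complex.I))).eq_or_lt with h3 | h3
      · rw [← hx] at h3
        rw [← h3]; simp
      · rw [← hx] at h3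
        have := Real.log_le_sub_one_of_pos h3
        nlinarith [sq_nonneg (x - 1)]
  rw [inv_mul_le_iff₀ (by positivity)]
  exact h2.trans h1

end Pool.Agent.Had83
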