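import Pool.Agent.Had83.Parseval

/-!
Dominating indices control all the coefficients.
-/

open MeasureTheory Filter Topology Set Metric
open scoped ENNReal Real

namespace Pool.Agent.Had83

lemma ratio_pow {n : ℕ → ℕ} {q : ℝ} (hq : 1 < q) (hr : ∀ k, q * (n k : ℝ) ≤ (n (k + 1) : ℝ))
    (k j : ℕ) : q ^ j * (n k : ℝ) ≤ n (k + j) := by
  induction j with
  | zero => simp
  | succ j ih =>
    calc q ^ (j + 1) * (n k : ℝ) = q * (q ^ j * n k) := by ring
      _ ≤ q * n (k + j) := by gcongr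
      _ ≤ _ := hr (k + j)

/-- geometric sum centered at `k` -/
lemma geom_center {x : ℝ} (hx0 : 0 ≤ x) (hx1 : x < 1) (k m : ℕ) :
    ∑ K ∈ Finset.range m, x ^ ((k - K) + (K - k)) ≤ 2 / (1 - x) := by
  have hg : ∀ j, ∑ i ∈ Finset.range j, x ^ i ≤ 1 / (1 - x) := by
    intro j
    rw [geom_sum_eq hx1.ne, one_div, ← neg_div_neg_eq, neg_sub, neg_sub, ← one_div]
    apply div_le_div_of_nonneg_right _ (by linarith)
    have := pow_nonneg hx0 j
    linarith
  have h1 : ∀ K, x ^ ((k - K) + (K - k)) ≤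
      (if K < k + 1 then x ^ (k - K) else 0) + (if k ≤ K then x ^ (K - k) else 0) := by
    intro K
    have h0 : ∀ i, 0 ≤ x ^ i := fun i => pow_nonneg hx0 i
    rcases le_total K k with h | h
    · rw [if_pos (show K < k + 1 by omega), Nat.sub_eq_zero_of_le h, add_zero]
      split_ifs
      · have := h0 0; linarith
      · linarith
    · rw [if_pos h, Nat.sub_eq_zero_of_le h, zero_add]
      split_ifs
      · have := h0 0; linarith
      · linarith
  have h2 : ∑ K ∈ Finset.range m, (if K < k + 1 then x ^ (k - K) else 0) ≤ 1 / (1 - x) := by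
    rw [← Finset.sum_filter]
    calc ∑ K ∈ Finset.range m with K < k + 1, x ^ (k - K)
        ≤ ∑ K ∈ Finset.range (k + 1), x ^ (k - K) := by
          apply Finset.sum_le_sum_of_subset_of_nonneg
          · intro K hK
            rw [Finset.mem_filter] at hK
            exact Finset.mem_range.2 hK.2
          · intro _ _ _
            exact pow_nonneg hx0 _
      _ = ∑ j ∈ Finset.range (k + 1), x ^ j := by
          rw [← Finset.sum_range_reflect (fun j => x ^ j)]
          apply Finset.sum_congr rfl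
          intro j hj
          rw [Finset.mem_range] at hj
          congr 1
      _ ≤ _ := hg _
  have h3 : ∑ K ∈ Finset.range m, (if k ≤ K then x ^ (K - k) else 0) ≤ 1 / (1 - x) := by
    rw [← Finset.sum_filter]
    have hf : (Finset.range m).filter (fun K => k ≤ K) = Finset.Ico k m := by
      ext K
      rw [Finset.mem_filter, Finset.mem_range, Finset.mem_Ico, and_comm]
    rw [hf, Finset.sum_Ico_eq_sum_range]
    simp only [add_tsub_cancel_left]
    exact hg _
  calc ∑ K ∈ Finset.range m, x ^ ((k - K) + (K - k)) ≤ _ := Finset.sum_le_sum fun K _ => h1 K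
    _ = _ := Finset.sum_add_distrib
    _ ≤ 1 / (1 - x) + 1 / (1 - x) := add_le_add h2 h3
    _ = _ := by ring

variable {c : ℕ → ℂ} {n : ℕ → ℕ} {q : ℝ}

/-- weight -/
noncomputable def mw (n : ℕ → ℕ) (K j : ℕ) : ℝ := min ((n j : ℝ) / n K) ((n K : ℝ) / n j)

lemma mw_pos {K j : ℕ} (hK : 0 < n K) (hj : 0 < n j) : 0 < mw n K j := by
  unfold mw
  have h1 : (0 : ℝ) < n K := by exact_mod_cast hK
  have h2 : (0 : ℝ) < n j := by exact_mod_cast hj
  exact lt_min (by positivity) (by positivity)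

lemma mw_nonneg (K j : ℕ) : 0 ≤ mw n K j := by
  unfold mw
  exact le_min (by positivity) (by positivity)

lemma mw_zero {K j : ℕ} (hj : n j = 0) : mw n K j = 0 := by
  unfold mw
  rw [hj]
  simp

lemma mw_a {K j k : ℕ} (hK : 0 < n K) (hj : 0 < n j) (hjk : n j ≤ n k) :
    mw n K k * n j ≤ mw n K j * n k := by
  unfold mw
  have h1 : (0 : ℝ) < n K := by exact_mod_cast hK
  have h2 : (0 : ℝ) < n j := by exact_mod_cast hj
  have h3 : (n j : ℝ) ≤ n k := by exact_mod_cast hjk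
  have h4 : (0 : ℝ) < n k := by linarith
  rw [min_mul_of_nonneg _ _ h2.le, min_mul_of_nonneg _ _ h4.le]
  apply min_le_min
  · apply le_of_eq
    ring
  · rw [div_mul_eq_mul_div, div_mul_eq_mul_div, div_le_div_iff₀ h4 h2]
    nlinarith [mul_nonneg h1.le (mul_nonneg (sub_nonneg.2 h3) (by linarith : (0 : ℝ) ≤ n k + n j))]

lemma mw_b {K j k : ℕ} (hK : 0 < n K) (hj : 0 < n j) (hjk : n j ≤ n k) :
    mw n K j * n j ≤ mw n K k * n k := by
  unfold mw
  have h1 : (0 : ℝ) < n K := by exact_mod_cast hK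
  have h2 : (0 : ℝ) < n j := by exact_mod_cast hj
  have h3 : (n j : ℝ) ≤ n k := by exact_mod_cast hjk
  have h4 : (0 : ℝ) < n k := by linarith
  rw [min_mul_of_nonneg _ _ h2.le, min_mul_of_nonneg _ _ h4.le]
  apply min_le_min
  · rw [div_mul_eq_mul_div, div_mul_eq_mul_div]
    apply div_le_div_of_nonneg_right _ h1.le
    nlinarith
  · rw [div_mul_cancel₀ _ h2.ne', div_mul_cancel₀ _ h4.ne']

lemma mw_le (hq : 1 < q) (hr : ∀ k, q * (n k : ℝ) ≤ (n (k + 1) : ℝ))
    {K k : ℕ} (hK : 0 < n K) (hk : 0 < n k) : mw n K k ≤ (1 / q) ^ ((k - K) + (K - k)) := by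
  have h1 : (0 : ℝ) < n K := by exact_mod_cast hK
  have h2 : (0 : ℝ) < n k := by exact_mod_cast hk
  unfold mw
  rcases le_total K k with h | h
  · rw [Nat.sub_eq_zero_of_le h, add_zero]
    apply (min_le_right _ _).trans
    have h3 := ratio_pow hq hr K (k - K)
    rw [Nat.add_sub_cancel' h] at h3
    rw [div_pow, one_pow, div_le_div_iff₀ h2 (by positivity), one_mul, mul_comm]
    exact h3
  · rw [Nat.sub_eq_zero_of_le h, zero_add]
    apply (min_le_left _ _).trans
    have h3 := ratio_pow hq hr k (K - k)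
    rw [Nat.add_sub_cancel' h] at h3
    rw [div_pow, one_pow, div_le_div_iff₀ h1 (by positivity), one_mul, mul_comm]
    exact h3

/-- a maximizer of the weighted coefficient is dominating -/
lemma dom_of_max (hq : 1 < q) (hn : StrictMono n) (hr : ∀ k, q * (n k : ℝ) ≤ (n (k + 1) : ℝ))
    {K k : ℕ} (hK : 0 < n K) (hcK : c K ≠ 0)
    (hmax : ∀ j, ‖c j‖ ^ 2 * mw n K j ≤ ‖c k‖ ^ 2 * mw n K k) :
    DomN c n k ∧ ‖c K‖ ^ 2 ≤ ‖c k‖ ^ 2 * (1 / q) ^ ((k - K) + (K - k)) := by
  have hKr : (0 : ℝ) < n K := by exact_mod_cast hK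
  have hself : mw n K K = 1 := by
    unfold mw
    rw [div_self hKr.ne', min_self]
  have h1 := hmax K
  rw [hself, mul_one] at h1
  have hcK' : 0 < ‖c K‖ ^ 2 := by
    have := norm_pos_iff.2 hcK
    positivity
  have hnk : 0 < n k := by
    rcases Nat.eq_zero_or_pos (n k) with h | h
    · rw [mw_zero h, mul_zero] at h1
      linarith
    · exact h
  have hck : c k ≠ 0 := by
    intro h
    rw [h, norm_zero] at h1
    norm_num at h1
    exact hcK h1
  refine ⟨⟨hnk, hck, ?_, ?_⟩, ?_⟩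
  · intro j hj
    rcases Nat.eq_zero_or_pos (n j) with h | h
    · rw [h]
      simp
      positivity
    · have hm := mw_pos hK h
      have h3 := mw_a hK h (hn hj).le
      have h4 := hmax j
      have h5 : mw n K j * (‖c j‖ ^ 2 * n j) ≤ mw n K j * (‖c k‖ ^ 2 * n k) := by
        calc mw n K j * (‖c j‖ ^ 2 * n j) = (‖c j‖ ^ 2 * mw n K j) * n j := by ring
          _ ≤ (‖c k‖ ^ 2 * mw n K k) * n j := by gcongr
          _ = ‖c k‖ ^ 2 * (mw n K k * n j) := by ring
          _ ≤ ‖c k‖ ^ 2 * (mw n K j * n k) := by gcongr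
          _ = _ := by ring
      exact le_of_mul_le_mul_left h5 hm
  · intro j hj
    have h : 0 < n j := lt_trans hnk (hn hj)
    have hm := mw_pos hK h
    have h3 := mw_b hK hnk (hn hj).le
    have h4 := hmax j
    have h5 : mw n K j * (‖c j‖ ^ 2 * n k) ≤ mw n K j * (‖c k‖ ^ 2 * n j) := by
      calc mw n K j * (‖c j‖ ^ 2 * n k) = (‖c j‖ ^ 2 * mw n K j) * n k := by ring
        _ ≤ (‖c k‖ ^ 2 * mw n K k) * n k := by gcongr
        _ = ‖c k‖ ^ 2 * (mw n K k * n k) := by ring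
        _ ≤ ‖c k‖ ^ 2 * (mw n K j * n j) := by gcongr
        _ = _ := by ring
    exact le_of_mul_le_mul_left h5 hm
  · apply h1.trans
    apply mul_le_mul_of_nonneg_left _ (by positivity)
    exact mw_le hq hr hK hnk

lemma n_pos (hn : StrictMono n) {K : ℕ} (hK : 1 ≤ K) : 0 < n K :=
  lt_of_lt_of_le (show 0 < K by omega) (hn.le_apply)

/-- Claim D' -/
lemma rec_below (hq : 1 < q) (hn : StrictMono n) (hr : ∀ k, q * (n k : ℝ) ≤ (n (k + 1) : ℝ))
    {K K0 : ℕ} (hK0 : DomN c n K0) (hK : 1 ≤ K) (hKK : K ≤ K0) (hcK : c K ≠ 0) :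
    ∃ k ≤ K0, DomN c n k ∧ ‖c K‖ ^ 2 ≤ ‖c k‖ ^ 2 * (1 / q) ^ ((k - K) + (K - k)) := by
  have hnK := n_pos hn hK
  have hKr : (0 : ℝ) < n K := by exact_mod_cast hnK
  have h0r : (0 : ℝ) < n K0 := by exact_mod_cast hK0.1
  obtain ⟨k, hk, hmax⟩ := Finset.exists_max_image (Finset.range (K0 + 1))
    (fun j => ‖c j‖ ^ 2 * mw n K j) ⟨0, Finset.mem_range.2 (by omega)⟩
  refine ⟨k, by rw [Finset.mem_range] at hk; omega, ?_⟩
  apply dom_of_max hq hn hr hnK hcK
  intro j
  by_cases hj : j ≤ K0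
  · exact hmax j (Finset.mem_range.2 (by omega))
  · rw [not_le] at hj
    refine le_trans ?_ (hmax K0 (Finset.mem_range.2 (by omega)))
    have hjr : (n K0 : ℝ) < n j := by exact_mod_cast hn hj
    have hKle : (n K : ℝ) ≤ n K0 := by exact_mod_cast hn.monotone hKK
    have h1 := hK0.2.2.2 j hj
    have e1 : mw n K j = (n K : ℝ) / n j := by
      unfold mw
      apply min_eq_right
      rw [div_le_div_iff₀ (by linarith) hKr]
      nlinarith
    have e2 : mw n K K0 = (n K : ℝ) / n K0 := by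
      unfold mw
      apply min_eq_right
      rw [div_le_div_iff₀ (by linarith) hKr]
      nlinarith
    rw [e1, e2, ← mul_div_assoc, ← mul_div_assoc, div_le_div_iff₀ (by linarith) h0r]
    nlinarith [mul_le_mul_of_nonneg_left h1 hKr.le]

/-- Claim D -/
lemma rec_any (hq : 1 < q) (hn : StrictMono n) (hr : ∀ k, q * (n k : ℝ) ≤ (n (k + 1) : ℝ))
    {A : ℝ} (hA : ∀ k, ‖c k‖ ≤ A) {K : ℕ} (hK : 1 ≤ K) (hcK : c K ≠ 0) :
    ∃ k, DomN c n k ∧ ‖c K‖ ^ 2 ≤ ‖c k‖ ^ 2 * (1 / q) ^ ((k - K) + (K - k)) := by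
  have hnK := n_pos hn hK
  have hKr : (0 : ℝ) < n K := by exact_mod_cast hnK
  have hcK' : 0 < ‖c K‖ ^ 2 := by
    have := norm_pos_iff.2 hcK
    positivity
  have hself : mw n K K = 1 := by
    unfold mw
    rw [div_self hKr.ne', min_self]
  obtain ⟨J, hJ⟩ := exists_nat_gt (A ^ 2 * n K / ‖c K‖ ^ 2)
  set T := max (max J K) 1 with hT
  obtain ⟨k, hk, hmax⟩ := Finset.exists_max_image (Finset.range (T + 1))
    (fun j => ‖c j‖ ^ 2 * mw n K j) ⟨0, Finset.mem_range.2 (by omega)⟩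
  refine ⟨k, ?_⟩
  apply dom_of_max hq hn hr hnK hcK
  intro j
  by_cases hj : j ≤ T
  · exact hmax j (Finset.mem_range.2 (by omega))
  · rw [not_le] at hj
    refine le_trans ?_ (hmax K (Finset.mem_range.2 (by omega)))
    rw [hself, mul_one]
    have hj1 : J ≤ j := by omega
    have hj2 : 1 ≤ j := by omega
    have hnj : (J : ℝ) ≤ n j := by
      exact_mod_cast hj1.trans hn.le_apply
    have hnj0 : (0 : ℝ) < n j := by exact_mod_cast n_pos hn hj2
    have h1 : mw n K j ≤ (n K : ℝ) / n j := by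
      unfold mw
      exact min_le_right _ _
    have h2 : ‖c j‖ ^ 2 ≤ A ^ 2 := pow_le_pow_left₀ (norm_nonneg _) (hA j) 2
    calc ‖c j‖ ^ 2 * mw n K j ≤ A ^ 2 * ((n K : ℝ) / n j) :=
          mul_le_mul h2 h1 (mw_nonneg K j) (by positivity)
      _ ≤ ‖c K‖ ^ 2 := by
        rw [← mul_div_assoc, div_le_iff₀ hnj0]
        rw [div_lt_iff₀ hcK'] at hJ
        nlinarith

open Classical in
/-- dominating indices up to `K0` -/
noncomputable def Rec (c : ℕ → ℂ) (n : ℕ → ℕ) (K0 : ℕ) : Finset ℕ :=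
  (Finset.range (K0 + 1)).filter (fun k => DomN c n k)

lemma mem_Rec {K0 k : ℕ} : k ∈ Rec c n K0 ↔ k ≤ K0 ∧ DomN c n k := by
  classical
  unfold Rec
  rw [Finset.mem_filter, Finset.mem_range]
  exact and_congr_left fun _ => Nat.lt_succ_iff

/-- the sum over dominating indices -/
noncomputable def XX (c : ℕ → ℂ) (n : ℕ → ℕ) (K0 : ℕ) : ℝ := ∑ k ∈ Rec c n K0, ‖c k‖ ^ 2

/-- summation principle -/
lemma sum_of_weights (hq : 1 < q) {K0 m : ℕ} {f : ℕ → ℝ}
    (hf : ∀ K, 1 ≤ K → K < m → f K ≤ ∑ k ∈ Rec c n K0, ‖c k‖ ^ 2 * (1 / q) ^ ((k - K) + (K - k)))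
    (h0 : f 0 ≤ ‖c 0‖ ^ 2) :
    ∑ K ∈ Finset.range m, f K ≤ ‖c 0‖ ^ 2 + 2 / (1 - 1 / q) * XX c n K0 := by
  have hx0 : 0 ≤ 1 / q := by positivity
  have hx1 : 1 / q < 1 := by
    rw [div_lt_one (by linarith)]
    exact hq
  have hX : 0 ≤ XX c n K0 := Finset.sum_nonneg fun _ _ => by positivity
  have hnn : ∀ K, 0 ≤ ∑ k ∈ Rec c n K0, ‖c k‖ ^ 2 * (1 / q) ^ ((k - K) + (K - k)) :=
    fun K => Finset.sum_nonneg fun _ _ => by positivity
  have hS : ∑ K ∈ Finset.range m,
      ∑ k ∈ Rec c n K0, ‖c k‖ ^ 2 * (1 / q) ^ ((k - K) + (K - k)) ≤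
      2 / (1 - 1 / q) * XX c n K0 := by
    rw [Finset.sum_comm]
    unfold XX
    rw [Finset.mul_sum]
    apply Finset.sum_le_sum
    intro k _
    rw [← Finset.mul_sum, mul_comm]
    apply mul_le_mul_of_nonneg_right _ (by positivity)
    exact geom_center hx0 hx1 k m
  rcases Nat.eq_zero_or_pos m with hm | hm
  · rw [hm, Finset.sum_range_zero]
    have : 0 ≤ 2 / (1 - 1 / q) := by
      apply div_nonneg (by norm_num)
      linarith
    positivity
  · obtain ⟨m', rfl⟩ : ∃ m', m = m' + 1 := ⟨m - 1, by omega⟩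
    rw [Finset.sum_range_succ'] at hS ⊢
    have h1 : ∑ K ∈ Finset.range m', f (K + 1) ≤ ∑ K ∈ Finset.range m',
        ∑ k ∈ Rec c n K0, ‖c k‖ ^ 2 * (1 / q) ^ ((k - (K + 1)) + ((K + 1) - k)) := by
      apply Finset.sum_le_sum
      intro K hK
      rw [Finset.mem_range] at hK
      exact hf (K + 1) (by omega) (by omega)
    have h2 := hnn 0
    linarith

lemma term_le_weights {K0 K k : ℕ} (hk : k ∈ Rec c n K0) (hq : 1 < q) :
    ‖c k‖ ^ 2 * (1 / q) ^ ((k - K) + (K - k)) ≤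
      ∑ k ∈ Rec c n K0, ‖c k‖ ^ 2 * (1 / q) ^ ((k - K) + (K - k)) := by
  apply Finset.single_le_sum (f := fun k => ‖c k‖ ^ 2 * (1 / q) ^ ((k - K) + (K - k)))
  · intro _ _
    positivity
  · exact hk

/-- partial sums with the exponential weight -/
lemma sum_exp_le (hq : 1 < q) (hn : StrictMono n) (hr : ∀ k, q * (n k : ℝ) ≤ (n (k + 1) : ℝ))
    {K0 : ℕ} (hK0 : DomN c n K0) (m : ℕ) :
    ∑ k ∈ Finset.range m, ‖c k‖ ^ 2 * Real.exp (2 * n k * (-(1 / n K0))) ≤
      ‖c 0‖ ^ 2 + 2 / (1 - 1 / q) * XX c n K0 := by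
  have h0r : (0 : ℝ) < n K0 := by exact_mod_cast hK0.1
  have hexp : ∀ k, Real.exp (2 * n k * (-(1 / n K0))) ≤ 1 := by
    intro k
    rw [Real.exp_le_one_iff]
    have : 0 ≤ 2 * (n k : ℝ) * (1 / n K0) := by positivity
    linarith
  apply sum_of_weights hq
  · intro K hK _
    have hnK := n_pos hn hK
    by_cases hKK : K ≤ K0
    · by_cases hcK : c K = 0
      · rw [hcK]
        simp only [norm_zero]
        rw [zero_pow (by norm_num), zero_mul]
        exact Finset.sum_nonneg fun _ _ => by positivity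
      · obtain ⟨k, hk, hd, hle⟩ := rec_below hq hn hr hK0 hK hKK hcK
        calc ‖c K‖ ^ 2 * Real.exp (2 * n K * (-(1 / n K0))) ≤ ‖c K‖ ^ 2 * 1 := by
              gcongr
              exact hexp K
          _ = ‖c K‖ ^ 2 := mul_one _
          _ ≤ _ := hle
          _ ≤ _ := term_le_weights (mem_Rec.2 ⟨hk, hd⟩) hq
    · rw [not_le] at hKK
      refine le_trans ?_ (term_le_weights (mem_Rec.2 ⟨le_rfl, hK0⟩) hq)
      rw [Nat.sub_eq_zero_of_le hKK.le, zero_add]
      have h1 := hK0.2.2.2 K hKK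
      have h3 := ratio_pow hq hr K0 (K - K0)
      rw [Nat.add_sub_cancel' hKK.le] at h3
      set y : ℝ := (n K : ℝ) / n K0 with hy
      have hy0 : 0 < y := by
        have : (0 : ℝ) < n K := by exact_mod_cast hnK
        positivity
      have h4 : ‖c K‖ ^ 2 ≤ ‖c K0‖ ^ 2 * y := by
        rw [hy, ← mul_div_assoc, le_div_iff₀ h0r]
        exact h1
      have h5 : Real.exp (2 * n K * (-(1 / n K0))) = Real.exp (-y) * Real.exp (-y) := by
        rw [← Real.exp_add, hy]
        congr 1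
        ring
      have h6 : y * Real.exp (-y) ≤ 1 := by
        have h7 := Real.add_one_le_exp y
        have h8 : Real.exp y * Real.exp (-y) = 1 := by rw [← Real.exp_add]; simp
        have h9 := Real.exp_pos (-y)
        nlinarith
      have h10 : q ^ (K - K0) ≤ y := by
        rw [hy, le_div_iff₀ h0r]
        exact h3
      have h11 : Real.exp (-y) ≤ (1 / q) ^ (K - K0) := by
        have h12 : Real.exp (-y) ≤ 1 / y := by
          rw [le_div_iff₀ hy0, mul_comm]
          exact h6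
        refine h12.trans ?_
        rw [div_pow, one_pow]
        apply one_div_le_one_div_of_le (by positivity) h10
      calc ‖c K‖ ^ 2 * Real.exp (2 * n K * (-(1 / n K0)))
          ≤ (‖c K0‖ ^ 2 * y) * (Real.exp (-y) * Real.exp (-y)) := by
            rw [h5]
            gcongr
        _ = ‖c K0‖ ^ 2 * (y * Real.exp (-y)) * Real.exp (-y) := by ring
        _ ≤ ‖c K0‖ ^ 2 * 1 * (1 / q) ^ (K - K0) := by gcongr
        _ = _ := by ring
  · calc ‖c 0‖ ^ 2 * Real.exp (2 * n 0 * (-(1 / n K0))) ≤ ‖c 0‖ ^ 2 * 1 := by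
          gcongr
          exact hexp 0
      _ = _ := mul_one _

/-- if the sums over dominating indices are bounded, all sums are -/
lemma sum_bdd (hq : 1 < q) (hn : StrictMono n) (hr : ∀ k, q * (n k : ℝ) ≤ (n (k + 1) : ℝ))
    {A X : ℝ} (hA : ∀ k, ‖c k‖ ≤ A) (hX0 : 0 ≤ X) (hX : ∀ K0, DomN c n K0 → XX c n K0 ≤ X)
    (m : ℕ) : ∑ k ∈ Finset.range m, ‖c k‖ ^ 2 ≤ ‖c 0‖ ^ 2 + 2 / (1 - 1 / q) * X := by
  have hx1 : 1 / q < 1 := by
    rw [div_lt_one (by linarith)]
    exact hq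
  have hβ : 0 ≤ 2 / (1 - 1 / q) := by
    apply div_nonneg (by norm_num)
    linarith
  -- the set of nonzero indices
  by_cases hne : ∃ K, 1 ≤ K ∧ K < m ∧ c K ≠ 0
  · choose! φ hφ using fun (K : ℕ) (h : 1 ≤ K ∧ c K ≠ 0) => rec_any hq hn hr hA h.1 h.2
    classical
    set I := (Finset.range m).filter (fun K => 1 ≤ K ∧ c K ≠ 0) with hI
    have hIne : I.Nonempty := by
      obtain ⟨K, h1, h2, h3⟩ := hne
      exact ⟨K, Finset.mem_filter.2 ⟨Finset.mem_range.2 h2, h1, h3⟩⟩
    obtain ⟨K1, hK1, hmax⟩ := Finset.exists_max_image I φ hIne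
    have hK1' := (Finset.mem_filter.1 hK1).2
    have hd := (hφ K1 hK1').1
    have h1 : ∑ k ∈ Finset.range m, ‖c k‖ ^ 2 ≤ ‖c 0‖ ^ 2 + 2 / (1 - 1 / q) * XX c n (φ K1) := by
      apply sum_of_weights hq
      · intro K hK hKm
        by_cases hcK : c K = 0
        · rw [hcK]
          simp only [norm_zero]
          rw [zero_pow (by norm_num)]
          exact Finset.sum_nonneg fun _ _ => by positivity
        · obtain ⟨h2, h3⟩ := hφ K ⟨hK, hcK⟩
          refine h3.trans (term_le_weights (mem_Rec.2 ⟨?_, h2⟩) hq)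
          exact hmax K (Finset.mem_filter.2 ⟨Finset.mem_range.2 hKm, hK, hcK⟩)
      · exact le_rfl
    refine h1.trans ?_
    gcongr
    exact hX _ hd
  · push Not at hne
    have h1 : ∑ k ∈ Finset.range m, ‖c k‖ ^ 2 ≤ ‖c 0‖ ^ 2 := by
      rcases Nat.eq_zero_or_pos m with hm | hm
      · rw [hm, Finset.sum_range_zero]
        positivity
      · rw [← Finset.sum_subset (Finset.singleton_subset_iff.2 (Finset.mem_range.2 hm))]
        · rw [Finset.sum_singleton]
        · intro K hK hK0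
          rw [Finset.mem_singleton] at hK0
          rw [hne K (by omega) (Finset.mem_range.1 hK)]
          simp
    have := mul_nonneg hβ hX0
    linarith

end Pool.Agent.Had83
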