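import Pool.Agent.Had83.Osc
import Pool.Agent.Had83.Local

/-!
Exponential series on the left half-plane.
-/

open MeasureTheory Filter Topology Set Metric
open scoped ENNReal Real

namespace Pool.Agent.Had83

/-- sub-exponential growth of the coefficients -/
def Good (c : ℕ → ℂ) (n : ℕ → ℕ) : Prop :=
  ∀ η : ℝ, 0 < η → Summable fun k => ‖c k‖ * Real.exp (-(η * n k))

/-- the series -/
noncomputable def Ser (c : ℕ → ℂ) (n : ℕ → ℕ) (ζ : ℂ) : ℂ := ∑' k, c k * Complex.exp (n k * ζ)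

/-- coefficients of the derivative -/
def Dc (c : ℕ → ℂ) (n : ℕ → ℕ) (k : ℕ) : ℂ := n k * c k

lemma Good.Dc {c : ℕ → ℂ} {n : ℕ → ℕ} (h : Good c n) : Good (Dc c n) n := by
  intro η hη
  apply Summable.of_nonneg_of_le (fun k => by positivity) _ ((h (η / 2) (by positivity)).mul_left
    (2 / η))
  intro k
  unfold Had83.Dc
  rw [norm_mul, Complex.norm_natCast]
  have h1 : (n k : ℝ) * (η / 2) ≤ Real.exp (η / 2 * n k) := by
    have := Real.add_one_le_exp (η / 2 * n k)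
    linarith
  have h2 : (n k : ℝ) ≤ 2 / η * Real.exp (η / 2 * n k) := by
    rw [div_mul_eq_mul_div, le_div_iff₀ hη]
    linarith
  have h3 : Real.exp (-(η * n k)) = Real.exp (-(η / 2 * n k)) * Real.exp (-(η / 2 * n k)) := by
    rw [← Real.exp_add]; congr 1; ring
  have h4 : Real.exp (η / 2 * n k) * Real.exp (-(η / 2 * n k)) = 1 := by
    rw [← Real.exp_add]; simp
  calc (n k : ℝ) * ‖c k‖ * Real.exp (-(η * n k))
      ≤ (2 / η * Real.exp (η / 2 * n k)) * ‖c k‖ * Real.exp (-(η * n k)) := by gcongr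
    _ = 2 / η * (‖c k‖ * Real.exp (-(η / 2 * n k))) *
          (Real.exp (η / 2 * n k) * Real.exp (-(η / 2 * n k))) := by rw [h3]; ring
    _ = 2 / η * (‖c k‖ * Real.exp (-(η / 2 * n k))) := by rw [h4, mul_one]

lemma norm_term (c : ℕ → ℂ) (n : ℕ → ℕ) (k : ℕ) (ζ : ℂ) :
    ‖c k * Complex.exp (n k * ζ)‖ = ‖c k‖ * Real.exp (n k * ζ.re) := by
  rw [norm_mul, Complex.norm_exp]
  congr 2
  simp

lemma Good.norm_le {c : ℕ → ℂ} {n : ℕ → ℕ} {η : ℝ} {ζ : ℂ} (hζ : ζ.re ≤ -η) (k : ℕ) :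
    ‖c k * Complex.exp (n k * ζ)‖ ≤ ‖c k‖ * Real.exp (-(η * n k)) := by
  rw [norm_term]
  gcongr
  have : (0 : ℝ) ≤ n k := Nat.cast_nonneg _
  nlinarith

lemma Good.summable {c : ℕ → ℂ} {n : ℕ → ℕ} (h : Good c n) {ζ : ℂ} (hζ : ζ.re < 0) :
    Summable fun k => c k * Complex.exp (n k * ζ) :=
  Summable.of_norm_bounded (h (-ζ.re) (by linarith)) (fun k => Good.norm_le (by linarith) k)

lemma Good.summable_norm {c : ℕ → ℂ} {n : ℕ → ℕ} (h : Good c n) {ζ : ℂ} (hζ : ζ.re < 0) :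
    Summable fun k => ‖c k * Complex.exp (n k * ζ)‖ :=
  Summable.of_nonneg_of_le (fun _ => norm_nonneg _) (fun k => Good.norm_le (by linarith) k)
    (h (-ζ.re) (by linarith))

lemma Good.hasDerivAt {c : ℕ → ℂ} {n : ℕ → ℕ} (h : Good c n) {ζ : ℂ} (hζ : ζ.re < 0) :
    HasDerivAt (Ser c n) (Ser (Had83.Dc c n) n ζ) ζ := by
  set η : ℝ := -ζ.re / 2 with hη
  have hη0 : 0 < η := by rw [hη]; linarith
  set t : Set ℂ := {z : ℂ | z.re < -η} with ht
  have hto : IsOpen t := isOpen_lt Complex.continuous_re continuous_const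
  have htc : Convex ℝ t := convex_halfSpace_re_lt (-η)
  have hζt : ζ ∈ t := by
    change ζ.re < -η
    rw [hη]; linarith
  have hd : ∀ k : ℕ, ∀ y ∈ t, HasDerivAt (fun y => c k * Complex.exp (n k * y))
      (Had83.Dc c n k * Complex.exp (n k * y)) y := by
    intro k y _
    have h1 : HasDerivAt (fun y : ℂ => (n k : ℂ) * y) (n k : ℂ) y := by
      simpa using (hasDerivAt_id y).const_mul (n k : ℂ)
    have h2 := (h1.cexp).const_mul (c k)
    refine h2.congr_deriv ?_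
    unfold Had83.Dc
    ring
  exact hasDerivAt_tsum_of_isPreconnected (h.Dc η hη0) hto htc.isPreconnected hd
    (fun k y hy => Good.norm_le (le_of_lt hy) k) hζt (h.summable hζ) hζt

/-- dominating index for a sequence of coefficients -/
def DomN (c : ℕ → ℂ) (n : ℕ → ℕ) (K : ℕ) : Prop :=
  0 < n K ∧ c K ≠ 0 ∧ (∀ k, k < K → ‖c k‖ ^ 2 * n k ≤ ‖c K‖ ^ 2 * n K) ∧
    (∀ k, K < k → ‖c k‖ ^ 2 * n K ≤ ‖c K‖ ^ 2 * n k)

lemma DomN.dom {c : ℕ → ℂ} {n : ℕ → ℕ} {K : ℕ} (h : DomN c n K) {q : ℝ}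
    (hr : ∀ k, q * (n k : ℝ) ≤ (n (k + 1) : ℝ)) {b : ℕ → ℂ} (hb : ∀ k, ‖b k‖ = ‖c k‖) :
    Dom q (fun k => (n k : ℝ) / n K) b K ‖c K‖ := by
  obtain ⟨h1, h2, h3, h4⟩ := h
  have h1' : (0 : ℝ) < n K := by exact_mod_cast h1
  refine ⟨fun k => by positivity, div_self h1'.ne', fun k => ?_, norm_pos_iff.2 h2, hb K, ?_, ?_⟩
  · rw [← mul_div_assoc]
    gcongr
    exact hr k
  · intro k hk
    rw [hb, ← mul_div_assoc, div_le_iff₀ h1']
    exact h3 k hk
  · intro k hk
    rw [hb, ← mul_div_assoc, le_div_iff₀ h1']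
    exact h4 k hk

/-- the base point -/
noncomputable def base (B θ : ℝ) (N : ℕ) : ℂ := ((-(B / N) : ℝ) : ℂ) + θ * Complex.I

lemma base_re (B θ : ℝ) (N : ℕ) (τ : ℂ) : (base B θ N + τ / N).re = (-B + τ.re) / N := by
  unfold base
  rw [Complex.add_re, Complex.add_re, Complex.ofReal_re, Complex.mul_re, Complex.div_natCast_re]
  simp
  ring

/-- **Local structure at a dominating index.** -/
theorem loc_of_dom {q : ℝ} (hq : 1 < q) : ∃ (J : ℕ) (R B C1 c1 : ℝ), 2 ≤ R ∧ 0 < C1 ∧ 0 < c1 ∧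
    2 * R + 5 ≤ B ∧ ∀ (c : ℕ → ℂ) (n : ℕ → ℕ) (K : ℕ) (θ : ℝ) (w : ℂ), Good c n →
      (∀ k, q * (n k : ℝ) ≤ (n (k + 1) : ℝ)) → DomN c n K → J ≤ K →
      LocHyp R C1 c1 ‖c K‖ (fun τ => Ser c n (base B θ (n K) + τ / n K) - w)
        (fun τ => Ser (Dc c n) n (base B θ (n K) + τ / n K) / n K) := by
  obtain ⟨J, B, c1, hc1, hB, hosc⟩ := osc hq
  set lam := Real.sqrt (1 / q) with hlam
  have hl1 : lam < 1 := sqrt_inv_lt_one hq
  have h1l : 0 < 1 - lam := by linarith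
  set C1 : ℝ := 48 / (1 - lam) with hC1
  refine ⟨J, J + 2, B, C1, c1, ?_, by positivity, hc1, by linarith, ?_⟩
  · have : (0 : ℝ) ≤ J := Nat.cast_nonneg _
    linarith
  intro c n K θ w hG hr hK hJK
  have hN : (0 : ℝ) < n K := by exact_mod_cast hK.1
  have hNc : (n K : ℂ) ≠ 0 := by
    have := hK.1
    exact_mod_cast this.ne'
  set R : ℝ := J + 2 with hR
  set a := ‖c K‖ with ha
  have ha0 : 0 < a := norm_pos_iff.2 hK.2.1
  have hdom := hK.dom hr (b := c) (fun _ => rfl)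
  -- real parts
  have hre : ∀ τ ∈ ball (0 : ℂ) (2 * R + 4), (base B θ (n K) + τ / n K).re ≤ -(1 / n K) := by
    intro τ hτ
    rw [mem_ball, dist_zero_right] at hτ
    have h1 := (abs_le.1 (Complex.abs_re_le_norm τ)).2
    rw [base_re, ← neg_div]
    gcongr
    linarith
  have hre' : ∀ τ ∈ ball (0 : ℂ) (2 * R + 4), (base B θ (n K) + τ / n K).re < 0 := by
    intro τ hτ
    have := hre τ hτ
    have h2 : 0 < 1 / (n K : ℝ) := by positivity
    linarith
  have hinner : ∀ τ : ℂ, HasDerivAt (fun τ : ℂ => base B θ (n K) + τ / n K) (1 / n K) τ := by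
    intro τ
    exact ((hasDerivAt_id τ).div_const (n K : ℂ)).const_add _
  have hsumbound : ∀ (p : ℕ) (_ : 1 ≤ p) (d : ℕ → ℂ), (∀ k, ‖d k‖ = (n k : ℝ) ^ p * ‖c k‖) →
      ∀ τ ∈ ball (0 : ℂ) (2 * R + 4), ‖Ser d n (base B θ (n K) + τ / n K)‖ ≤
        (n K : ℝ) ^ p * (2 * ((p + 2).factorial * a) / (1 - lam)) := by
    intro p hp d hd τ hτ
    obtain ⟨hs, hle⟩ := hdom.main_sum hq p hp
    have hterm : ∀ k, ‖d k * Complex.exp (n k * (base B θ (n K) + τ / n K))‖ ≤
        (n K : ℝ) ^ p * (‖c k‖ * ((n k : ℝ) / n K) ^ p * Real.exp (-((n k : ℝ) / n K))) := by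
      intro k
      rw [norm_term, hd]
      have h1 : Real.exp (n k * (base B θ (n K) + τ / n K).re) ≤ Real.exp (-((n k : ℝ) / n K)) := by
        apply Real.exp_le_exp.2
        have h2 := hre τ hτ
        have h3 : (0 : ℝ) ≤ n k := Nat.cast_nonneg _
        calc (n k : ℝ) * (base B θ (n K) + τ / n K).re ≤ n k * (-(1 / n K)) := by gcongr
          _ = _ := by ring
      calc (n k : ℝ) ^ p * ‖c k‖ * Real.exp (n k * (base B θ (n K) + τ / n K).re)
          ≤ (n k : ℝ) ^ p * ‖c k‖ * Real.exp (-((n k : ℝ) / n K)) := by gcongr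
        _ = _ := by rw [div_pow]; field_simp
    have hsn : Summable fun k => ‖d k * Complex.exp (n k * (base B θ (n K) + τ / n K))‖ :=
      Summable.of_nonneg_of_le (fun _ => norm_nonneg _) hterm (hs.mul_left _)
    calc ‖Ser d n (base B θ (n K) + τ / n K)‖
        ≤ ∑' k, ‖d k * Complex.exp (n k * (base B θ (n K) + τ / n K))‖ :=
          norm_tsum_le_tsum_norm hsn
      _ ≤ ∑' k, (n K : ℝ) ^ p *
            (‖c k‖ * ((n k : ℝ) / n K) ^ p * Real.exp (-((n k : ℝ) / n K))) :=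
          Summable.tsum_le_tsum hterm hsn (hs.mul_left _)
      _ = (n K : ℝ) ^ p *
            ∑' k, (‖c k‖ * ((n k : ℝ) / n K) ^ p * Real.exp (-((n k : ℝ) / n K))) :=
          tsum_mul_left
      _ ≤ _ := by gcongr
  have hD1 : ∀ k, ‖Dc c n k‖ = (n k : ℝ) ^ 1 * ‖c k‖ := by
    intro k
    unfold Dc
    rw [norm_mul, Complex.norm_natCast, pow_one]
  have hD2 : ∀ k, ‖Dc (Dc c n) n k‖ = (n k : ℝ) ^ 2 * ‖c k‖ := by
    intro k
    unfold Dc
    rw [norm_mul, norm_mul, Complex.norm_natCast]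
    ring
  have hder1 : ∀ τ ∈ ball (0 : ℂ) (2 * R + 4),
      HasDerivAt (fun τ => Ser c n (base B θ (n K) + τ / n K) - w)
        (Ser (Dc c n) n (base B θ (n K) + τ / n K) / n K) τ := by
    intro τ hτ
    have h1 := (hG.hasDerivAt (hre' τ hτ)).comp τ (hinner τ)
    refine (h1.sub_const w).congr_deriv ?_
    ring
  have hder2 : ∀ τ ∈ ball (0 : ℂ) (2 * R + 4),
      HasDerivAt (fun τ => Ser (Dc c n) n (base B θ (n K) + τ / n K) / n K)
        (Ser (Dc (Dc c n) n) n (base B θ (n K) + τ / n K) / n K / n K) τ := by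
    intro τ hτ
    have h1 := (hG.Dc.hasDerivAt (hre' τ hτ)).comp τ (hinner τ)
    refine (h1.div_const (n K : ℂ)).congr_deriv ?_
    ring
  refine ⟨hder1, ?_, ?_, ?_⟩
  · intro τ hτ
    have h1 := hsumbound 1 le_rfl _ hD1 τ hτ
    rw [norm_div, Complex.norm_natCast, div_le_iff₀ hN]
    refine h1.trans ?_
    rw [hC1]
    have : 2 * (((1 + 2).factorial : ℕ) * a) / (1 - lam) = 12 * a / (1 - lam) := by
      norm_num [Nat.factorial]; ring
    rw [this]
    have h2 : 12 * a / (1 - lam) ≤ 48 / (1 - lam) * a := by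
      rw [div_mul_eq_mul_div]
      gcongr
      linarith
    calc (n K : ℝ) ^ 1 * (12 * a / (1 - lam)) = (12 * a / (1 - lam)) * n K := by ring
      _ ≤ _ := by gcongr
  · intro τ hτ σ hσ
    apply Convex.norm_image_sub_le_of_norm_hasDerivWithin_le
      (fun x hx => (hder2 x hx).hasDerivWithinAt) _ (convex_ball _ _) hσ hτ
    intro x hx
    have h1 := hsumbound 2 (by norm_num) _ hD2 x hx
    rw [norm_div, norm_div, Complex.norm_natCast, div_div, ← sq, div_le_iff₀ (by positivity)]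
    refine h1.trans (le_of_eq ?_)
    rw [hC1]
    norm_num [Nat.factorial]
    ring
  · obtain ⟨i, hi, hle⟩ := hosc (fun k => (n k : ℝ) / n K)
      (fun k => c k * Complex.exp ((n k * θ : ℝ) * Complex.I)) K a
      (hK.dom hr (fun k => by rw [norm_mul, Complex.norm_exp_ofReal_mul_I, mul_one])) hJK
    refine ⟨(i : ℂ), ?_, ?_⟩
    · rw [Complex.norm_natCast, hR]
      have : (i : ℝ) ≤ J := by exact_mod_cast hi
      linarith
    · refine hle.trans (le_of_eq ?_)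
      congr 1
      unfold TT Ser
      rw [← tsum_div_const]
      apply tsum_congr
      intro k
      unfold gam pol Dc base
      rw [Finset.range_zero, Finset.prod_empty, mul_one]
      have e1 : (n k : ℂ) * (((-(B / n K) : ℝ) : ℂ) + θ * Complex.I + (i : ℂ) / n K) =
          ((n k * θ : ℝ) : ℂ) * Complex.I + ((-(B * ((n k : ℝ) / n K)) : ℝ) : ℂ) +
            i * (((n k : ℝ) / n K : ℝ) : ℂ) := by
        push_cast
        field_simp
        ring
      rw [e1, Complex.exp_add, Complex.exp_add, Complex.exp_nat_mul, ← Complex.ofReal_exp,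
        ← Complex.ofReal_exp]
      push_cast
      field_simp

end Pool.Agent.Had83
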