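import Pool.Agent.Had83.Avg
import Pool.Agent.Had83.Energy

/-!
The estimate attached to one dominating index.
-/

open MeasureTheory Filter Topology Set Metric
open scoped ENNReal Real

namespace Pool.Agent.Had83

/-- left half plane -/
def LH : Set ℂ := {ζ | ζ.re < 0}

lemma isOpen_LH : IsOpen LH := isOpen_lt Complex.continuous_re continuous_const

/-- the series, extended by zero -/
noncomputable def SerM (c : ℕ → ℂ) (n : ℕ → ℕ) : ℂ → ℂ := LH.indicator (Ser c n)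

variable {c : ℕ → ℂ} {n : ℕ → ℕ} {w : ℂ}

lemma Good.continuousOn (h : Good c n) : ContinuousOn (Ser c n) LH :=
  fun _ hζ => (h.hasDerivAt hζ).continuousAt.continuousWithinAt

lemma SerM_meas (h : Good c n) : Measurable (SerM c n) := by
  classical
  unfold SerM
  rw [← Set.piecewise_eq_indicator]
  exact h.continuousOn.measurable_piecewise continuousOn_const isOpen_LH.measurableSet

lemma Ser_per (ζ : ℂ) : Ser c n (ζ + (2 * π : ℝ) * Complex.I) = Ser c n ζ := by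
  unfold Ser
  apply tsum_congr
  intro k
  congr 1
  have : (n k : ℂ) * (ζ + (2 * π : ℝ) * Complex.I) = n k * ζ + n k * (2 * π * Complex.I) := by
    push_cast
    ring
  rw [this, Complex.exp_add, Complex.exp_nat_mul_two_pi_mul_I, mul_one]

lemma SerM_eq {ζ : ℂ} (hζ : ζ.re < 0) : SerM c n ζ = Ser c n ζ :=
  indicator_of_mem (show ζ ∈ LH from hζ) _

lemma SerM_per (ζ : ℂ) : SerM c n (ζ + (2 * π : ℝ) * Complex.I) = SerM c n ζ := by
  have h : (ζ + (2 * π : ℝ) * Complex.I).re = ζ.re := by simp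
  by_cases hζ : ζ.re < 0
  · rw [SerM_eq hζ, SerM_eq (by rw [h]; exact hζ), Ser_per]
  · unfold SerM
    rw [indicator_of_notMem, indicator_of_notMem]
    · exact hζ
    · intro h'
      apply hζ
      rw [← h]
      exact h'

/-- log plus of the reciprocal -/
noncomputable def Psi (c : ℕ → ℂ) (n : ℕ → ℕ) (w ζ : ℂ) : ℝ≥0∞ :=
  ENNReal.ofReal (max 0 (Real.log ‖SerM c n ζ - w‖⁻¹))

/-- energy density -/
noncomputable def Kap (c : ℕ → ℂ) (n : ℕ → ℕ) (w : ℂ) (ρ : ℝ) (ζ : ℂ) : ℝ≥0∞ :=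
  ENNReal.ofReal (‖SerM (Dc c n) n ζ‖ ^ 2 / Real.sqrt (ρ ^ 2 + ‖SerM c n ζ - w‖ ^ 2))

/-- mean of `Psi` -/
noncomputable def mPsi (c : ℕ → ℂ) (n : ℕ → ℕ) (w : ℂ) (t : ℝ) : ℝ≥0∞ :=
  ∫⁻ θ in Ioc 0 (2 * π), Psi c n w ((t : ℝ) + (θ : ℝ) * Complex.I)

/-- mean of `Kap` -/
noncomputable def eK (c : ℕ → ℂ) (n : ℕ → ℕ) (w : ℂ) (ρ : ℝ) (t : ℝ) : ℝ≥0∞ :=
  ∫⁻ θ in Ioc 0 (2 * π), Kap c n w ρ ((t : ℝ) + (θ : ℝ) * Complex.I)

lemma Psi_meas (h : Good c n) : Measurable (Psi c n w) := by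
  unfold Psi
  apply Measurable.ennreal_ofReal
  apply measurable_const.max
  apply Real.measurable_log.comp
  exact ((SerM_meas h).sub_const w).norm.inv

lemma Kap_meas (h : Good c n) (ρ : ℝ) : Measurable (Kap c n w ρ) := by
  unfold Kap
  apply Measurable.ennreal_ofReal
  apply Measurable.div
  · exact ((SerM_meas h.Dc).norm).pow_const 2
  · exact (measurable_const.add ((((SerM_meas h).sub_const w).norm).pow_const 2)).sqrt

lemma eK_meas (h : Good c n) (ρ : ℝ) : Measurable (eK c n w ρ) := by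
  unfold eK
  apply Measurable.lintegral_prod_right'
    (f := fun p : ℝ × ℝ => Kap c n w ρ ((p.1 : ℝ) + (p.2 : ℝ) * Complex.I))
  apply (Kap_meas h ρ).comp
  fun_prop

lemma Psi_per (ζ : ℂ) : Psi c n w (ζ + (2 * π : ℝ) * Complex.I) = Psi c n w ζ := by
  unfold Psi
  rw [SerM_per]

lemma Kap_per (ρ : ℝ) (ζ : ℂ) : Kap c n w ρ (ζ + (2 * π : ℝ) * Complex.I) = Kap c n w ρ ζ := by
  unfold Kap
  rw [SerM_per, SerM_per]

lemma LocHyp.congr {R C1 c1 a : ℝ} {g g' f f' : ℂ → ℂ} (h : LocHyp R C1 c1 a g g') (hR : 2 ≤ R)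
    (h1 : ∀ τ ∈ ball (0 : ℂ) (2 * R + 4), f τ = g τ)
    (h2 : ∀ τ ∈ ball (0 : ℂ) (2 * R + 4), f' τ = g' τ) : LocHyp R C1 c1 a f f' := by
  refine ⟨?_, ?_, ?_, ?_⟩
  · intro τ hτ
    rw [h2 τ hτ]
    apply (h.der τ hτ).congr_of_eventuallyEq
    filter_upwards [isOpen_ball.mem_nhds hτ] with σ hσ using h1 σ hσ
  · intro τ hτ
    rw [h2 τ hτ]
    exact h.b1 τ hτ
  · intro τ hτ σ hσ
    rw [h2 τ hτ, h2 σ hσ]
    exact h.b2 τ hτ σ hσ
  · obtain ⟨τ1, hτ1, h3⟩ := h.low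
    refine ⟨τ1, hτ1, ?_⟩
    rw [h2 τ1]
    · exact h3
    · rw [mem_ball, dist_zero_right]
      linarith

/-- averaged lower bound -/
lemma mPsi_lower (h : Good c n) {B M : ℝ} {N : ℕ} (hN : 0 < N)
    (hM : ∀ t : ℝ, -(B + 1) / N ≤ t → t ≤ -(B - 1) / N → ENNReal.ofReal M ≤ mPsi c n w t) :
    ENNReal.ofReal (M * π) ≤
      ∫⁻ θ in Ioc 0 (2 * π), ∫⁻ τ in closedBall (0 : ℂ) 1, Psi c n w (base B θ N + τ / N) := by
  have hNr : (0 : ℝ) < N := by exact_mod_cast hN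
  rw [avg_swap (Psi_meas h) (fun ζ => Psi_per ζ) _ B hN]
  calc ENNReal.ofReal (M * π) = ∫⁻ _τ in closedBall (0 : ℂ) 1, ENNReal.ofReal M := by
        rw [setLIntegral_const, vol_closedBall 0 zero_le_one, ← ENNReal.ofReal_mul' (by positivity)]
        congr 1
        ring
    _ ≤ _ := by
        apply setLIntegral_mono' measurableSet_closedBall
        intro τ hτ
        rw [mem_closedBall, dist_zero_right] at hτ
        have h1 := abs_le.1 ((Complex.abs_re_le_norm τ).trans hτ)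
        apply hM
        · apply div_le_div_of_nonneg_right _ hNr.le
          linarith
        · apply div_le_div_of_nonneg_right _ hNr.le
          linarith

theorem step_large {q : ℝ} (hq : 1 < q) : ∃ (J : ℕ) (B C : ℝ), 1 < B ∧ 0 < C ∧
    ∀ (c : ℕ → ℂ) (n : ℕ → ℕ) (K : ℕ) (w : ℂ) (M : ℝ), Good c n →
      (∀ k, q * (n k : ℝ) ≤ (n (k + 1) : ℝ)) → DomN c n K → J ≤ K → 1 ≤ ‖c K‖ →
      (∀ t : ℝ, -(B + 1) / n K ≤ t → t ≤ -(B - 1) / n K → ENNReal.ofReal M ≤ mPsi c n w t) →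
      M ≤ C := by
  have hpi := Real.pi_pos
  obtain ⟨J, R, B, C1, c1, hR, hC1, hc1, hB, hloc⟩ := loc_of_dom hq
  obtain ⟨C2, hC2, hl⟩ := local_large hR hc1 hC1
  refine ⟨J, B, 2 * C2, by linarith, by positivity, ?_⟩
  intro c n K w M h hr hK hJ hc hM
  have hN := hK.1
  have hNr : (0 : ℝ) < n K := by exact_mod_cast hN
  have h1 := mPsi_lower h hN hM
  have h2 : ∫⁻ θ in Ioc 0 (2 * π), ∫⁻ τ in closedBall (0 : ℂ) 1,
      Psi c n w (base B θ (n K) + τ / n K) ≤ ENNReal.ofReal (2 * C2 * π) := by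
    calc ∫⁻ θ in Ioc 0 (2 * π), ∫⁻ τ in closedBall (0 : ℂ) 1,
          Psi c n w (base B θ (n K) + τ / n K) ≤ ∫⁻ _θ in Ioc 0 (2 * π), ENNReal.ofReal C2 := by
          apply lintegral_mono
          intro θ
          have h3 := (hloc c n K θ w h hr hK hJ).congr hR
            (f := fun τ => SerM c n (base B θ (n K) + τ / n K) - w)
            (f' := fun τ => SerM (Dc c n) n (base B θ (n K) + τ / n K) / n K) ?_ ?_
          · exact hl _ _ _ hc h3
          all_goals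
            intro τ hτ
            rw [mem_ball, dist_zero_right] at hτ
            have h4 := (abs_le.1 (Complex.abs_re_le_norm τ)).2
            rw [SerM_eq]
            rw [base_re]
            apply div_neg_of_neg_of_pos _ hNr
            linarith
      _ = _ := by
          rw [setLIntegral_const, Real.volume_Ioc, ← ENNReal.ofReal_mul hC2.le]
          congr 1
          ring
  have h3 := h1.trans h2
  rw [ENNReal.ofReal_le_ofReal_iff (by positivity)] at h3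
  exact le_of_mul_le_mul_right h3 hpi

theorem step {q : ℝ} (hq : 1 < q) (A : ℝ) (hA : 0 < A) : ∃ (J : ℕ) (R B C : ℝ), 2 ≤ R ∧
    2 * R + 5 ≤ B ∧ 0 < C ∧
    ∀ (c : ℕ → ℂ) (n : ℕ → ℕ) (K : ℕ) (w : ℂ) (ρ M : ℝ), Good c n →
      (∀ k, q * (n k : ℝ) ≤ (n (k + 1) : ℝ)) → DomN c n K → J ≤ K → ‖c K‖ ≤ A → 0 < ρ →
      ρ ≤ ‖c K‖ → 0 ≤ M →
      (∀ t : ℝ, -(B + 1) / n K ≤ t → t ≤ -(B - 1) / n K → ENNReal.ofReal M ≤ mPsi c n w t) →
      ENNReal.ofReal (M * ‖c K‖ ^ 2 * C) ≤ ENNReal.ofReal (1 / n K) *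
        ∫⁻ t in Icc ((-B - R) / n K) ((-B + R) / n K), eK c n w ρ t := by
  have hpi := Real.pi_pos
  obtain ⟨J, R, B, C1, c1, hR, hC1, hc1, hB, hloc⟩ := loc_of_dom hq
  obtain ⟨C2, hC2, hl⟩ := local_small hR hc1 hC1 A hA
  refine ⟨J, R, B, π / (2 * R * C2), hR, hB, by positivity, ?_⟩
  intro c n K w ρ M h hr hK hJ hcA hρ hρc hM0 hM
  have hN := hK.1
  have hNr : (0 : ℝ) < n K := by exact_mod_cast hN
  set a := ‖c K‖ with ha
  have ha0 : 0 < a := norm_pos_iff.2 hK.2.1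
  have h1 := mPsi_lower h hN hM
  have hK1 : ∀ ζ, ENNReal.ofReal (‖SerM (Dc c n) n ζ / n K‖ ^ 2 /
      Real.sqrt (ρ ^ 2 + ‖SerM c n ζ - w‖ ^ 2)) = ENNReal.ofReal (1 / (n K : ℝ) ^ 2) *
        Kap c n w ρ ζ := by
    intro ζ
    unfold Kap
    rw [← ENNReal.ofReal_mul (by positivity), norm_div, Complex.norm_natCast]
    congr 1
    field_simp
  have h2 : ∫⁻ θ in Ioc 0 (2 * π), ∫⁻ τ in closedBall (0 : ℂ) 1,
      Psi c n w (base B θ (n K) + τ / n K) ≤
      ENNReal.ofReal (C2 / a ^ 2) * (ENNReal.ofReal (1 / (n K : ℝ) ^ 2) *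
        ∫⁻ θ in Ioc 0 (2 * π), ∫⁻ τ in closedBall (0 : ℂ) R,
          Kap c n w ρ (base B θ (n K) + τ / n K)) := by
    rw [← lintegral_const_mul' _ _ ENNReal.ofReal_ne_top,
      ← lintegral_const_mul' _ _ ENNReal.ofReal_ne_top]
    apply lintegral_mono
    intro θ
    have h3 := (hloc c n K θ w h hr hK hJ).congr hR
      (f := fun τ => SerM c n (base B θ (n K) + τ / n K) - w)
      (f' := fun τ => SerM (Dc c n) n (base B θ (n K) + τ / n K) / n K) ?_ ?_
    · refine (hl a ρ _ _ ha0 hcA hρ hρc h3).trans (le_of_eq ?_)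
      simp only [hK1]
      rw [lintegral_const_mul' _ _ ENNReal.ofReal_ne_top]
    all_goals
      intro τ hτ
      rw [mem_ball, dist_zero_right] at hτ
      have h4 := (abs_le.1 (Complex.abs_re_le_norm τ)).2
      rw [SerM_eq]
      rw [base_re]
      apply div_neg_of_neg_of_pos _ hNr
      linarith
  have h3 : ∫⁻ θ in Ioc 0 (2 * π), ∫⁻ τ in closedBall (0 : ℂ) R,
      Kap c n w ρ (base B θ (n K) + τ / n K) ≤
      ENNReal.ofReal (2 * R) * (ENNReal.ofReal (n K) *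
        ∫⁻ t in Icc ((-B - R) / n K) ((-B + R) / n K), eK c n w ρ t) := by
    rw [avg_swap (Kap_meas h ρ) (fun ζ => Kap_per ρ ζ) _ B hN,
      ← lintegral_scale (f := eK c n w ρ) hN]
    have hm : Measurable fun x : ℝ => eK c n w ρ ((-B + x) / n K) :=
      (eK_meas h ρ).comp (by fun_prop)
    exact lintegral_re_le hm (by linarith)
  have h4 := h1.trans (h2.trans (mul_le_mul_right (mul_le_mul_right h3 _) _))
  have h5 := mul_le_mul_right h4 (ENNReal.ofReal (a ^ 2 / (2 * R * C2)))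
  have e1 : ENNReal.ofReal (a ^ 2 / (2 * R * C2)) * ENNReal.ofReal (M * π) =
      ENNReal.ofReal (M * a ^ 2 * (π / (2 * R * C2))) := by
    rw [← ENNReal.ofReal_mul (by positivity)]
    congr 1
    ring
  have e2 : ENNReal.ofReal (a ^ 2 / (2 * R * C2)) * (ENNReal.ofReal (C2 / a ^ 2) *
      (ENNReal.ofReal (1 / (n K : ℝ) ^ 2) * (ENNReal.ofReal (2 * R) * (ENNReal.ofReal (n K) *
        ∫⁻ t in Icc ((-B - R) / n K) ((-B + R) / n K), eK c n w ρ t)))) =
      ENNReal.ofReal (1 / n K) *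
        ∫⁻ t in Icc ((-B - R) / n K) ((-B + R) / n K), eK c n w ρ t := by
    rw [← mul_assoc, ← mul_assoc, ← mul_assoc, ← mul_assoc, ← ENNReal.ofReal_mul (by positivity),
      ← ENNReal.ofReal_mul (by positivity), ← ENNReal.ofReal_mul (by positivity),
      ← ENNReal.ofReal_mul (by positivity)]
    congr 2
    field_simp
  rw [e1, e2] at h5
  exact h5

end Pool.Agent.Had83
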